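import Pool.Agent.Y890.SP.Spec
import Pool.Agent.Y124.NFPoly

/-!
# The field generated by analytic functions
-/

set_option autoImplicit false
set_option linter.unusedSectionVars false

open Polynomial Filter Topology

namespace Pool.Agent.Y890.SP

/-- the value at `x` of a polynomial in the variable `x` and the functions `f` -/
noncomputable def evF {σ : Type} (f : σ → ℂ → ℂ) (x : ℂ) (p : MvPolynomial σ ℂ[X]) : ℂ :=
  MvPolynomial.eval₂ (Polynomial.evalRingHom x) (fun i => f i x) p

/-- `ℂ(x)` is algebraically closed in the field generated by `x` and the functions `f` on `U`: if on some nonempty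
open set `V ⊆ U` an analytic function `g` is a quotient of polynomials in `x` and `f`, and is algebraic over `ℂ(x)`,
then it is a rational function of `x` -/
def Regular {σ : Type} (U : Set ℂ) (f : σ → ℂ → ℂ) : Prop :=
  ∀ (V : Set ℂ) (g : ℂ → ℂ) (P Q : MvPolynomial σ ℂ[X]) (R : ℂ[X][X]), IsOpen V → V.Nonempty → V ⊆ U →
    AnalyticOnNhd ℂ g V → R ≠ 0 → (∀ x ∈ V, evF f x Q ≠ 0) → (∀ x ∈ V, evF f x Q * g x = evF f x P) →
    (∀ x ∈ V, (R.map (Polynomial.evalRingHom x)).eval (g x) = 0) →
    ∃ p q : ℂ[X], q ≠ 0 ∧ ∀ x ∈ V, q.eval x * g x = p.eval x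

variable {σ : Type} {U : Set ℂ} {f : σ → ℂ → ℂ}

theorem evF_add (x : ℂ) (p q : MvPolynomial σ ℂ[X]) : evF f x (p + q) = evF f x p + evF f x q :=
  MvPolynomial.eval₂_add _ _

theorem evF_mul (x : ℂ) (p q : MvPolynomial σ ℂ[X]) : evF f x (p * q) = evF f x p * evF f x q :=
  MvPolynomial.eval₂_mul _ _

theorem evF_an (hf : ∀ i, AnalyticOnNhd ℂ (f i) U) (p : MvPolynomial σ ℂ[X]) :
    AnalyticOnNhd ℂ (fun x => evF f x p) U := by
  intro x hx
  induction p using MvPolynomial.induction_on with
  | C a =>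
    have h1 : (fun x => evF f x (MvPolynomial.C a)) = fun x => a.eval x := by
      funext x
      simp [evF]
    rw [h1]
    exact (AnalyticOnNhd.eval_polynomial (A := ℂ) a) x trivial
  | add p q hp hq =>
    have h1 : (fun x => evF f x (p + q)) = fun x => evF f x p + evF f x q := funext fun x => evF_add x p q
    rw [h1]
    exact hp.add hq
  | mul_X p i hp =>
    have h1 : (fun x => evF f x (p * MvPolynomial.X i)) = fun x => evF f x p * f i x := by
      funext x
      rw [evF_mul]
      simp [evF]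
    rw [h1]
    exact hp.mul (hf i x hx)

/-- the relations between the functions -/
noncomputable def rel (U : Set ℂ) (f : σ → ℂ → ℂ) : Ideal (MvPolynomial σ ℂ[X]) where
  carrier := {p | ∀ x ∈ U, evF f x p = 0}
  add_mem' := by
    intro p q hp hq x hx
    rw [evF_add, hp x hx, hq x hx, add_zero]
  zero_mem' := fun x _ => MvPolynomial.eval₂_zero _ _
  smul_mem' := by
    intro p q hq x hx
    rw [smul_eq_mul, evF_mul, hq x hx, mul_zero]

theorem mem_rel {p : MvPolynomial σ ℂ[X]} : p ∈ rel U f ↔ ∀ x ∈ U, evF f x p = 0 := Iff.rfl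

theorem rel_prime (hU : IsPreconnected U) (hne : U.Nonempty) (hf : ∀ i, AnalyticOnNhd ℂ (f i) U) :
    (rel U f).IsPrime := by
  refine ⟨?_, ?_⟩
  · rw [Ideal.ne_top_iff_one]
    intro h
    obtain ⟨x, hx⟩ := hne
    have h1 := h x hx
    simp [evF] at h1
  · intro p q hpq
    exact (evF_an hf p).eq_zero_or_eq_zero_of_mul_eq_zero (evF_an hf q)
      (fun x hx => by rw [← evF_mul]; exact hpq x hx) hU

/-- the field generated by the functions -/
theorem exists_field (hU : IsPreconnected U) (hUo : IsOpen U) (hne : U.Nonempty) (hf : ∀ i, AnalyticOnNhd ℂ (f i) U) :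
    ∃ (L : Type) (_ : Field L) (_ : Algebra ℂ[X] L) (_ : FaithfulSMul ℂ[X] L) (F : σ → L),
      (∀ p : MvPolynomial σ ℂ[X], MvPolynomial.aeval F p = 0 ↔ ∀ x ∈ U, evF f x p = 0) ∧
      ∀ l : L, ∃ p q : MvPolynomial σ ℂ[X], MvPolynomial.aeval F q ≠ 0 ∧
        MvPolynomial.aeval F q * l = MvPolynomial.aeval F p := by
  classical
  have hprime : (rel U f).IsPrime := rel_prime hU hne hf
  let B : Type := MvPolynomial σ ℂ[X] ⧸ rel U f
  let iB : CommRing B := Ideal.Quotient.commRing (rel U f)
  have hdom : IsDomain B := Ideal.Quotient.isDomain (rel U f)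
  let L : Type := FractionRing B
  let F : σ → L := fun i => algebraMap B L (Ideal.Quotient.mk (rel U f) (MvPolynomial.X i))
  have hF : ∀ p : MvPolynomial σ ℂ[X], MvPolynomial.aeval F p = algebraMap B L (Ideal.Quotient.mk (rel U f) p) := by
    intro p
    induction p using MvPolynomial.induction_on with
    | C a =>
      rw [MvPolynomial.aeval_C, IsScalarTower.algebraMap_apply ℂ[X] B L]
      rfl
    | add p q hp hq => rw [map_add, map_add, map_add, hp, hq]
    | mul_X p i hp => rw [map_mul, map_mul, map_mul, hp, MvPolynomial.aeval_X]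
  have hinj : Function.Injective (algebraMap B L) := IsFractionRing.injective B L
  have hz : ∀ p : MvPolynomial σ ℂ[X], MvPolynomial.aeval F p = 0 ↔ ∀ x ∈ U, evF f x p = 0 := by
    intro p
    rw [hF, map_eq_zero_iff _ hinj, Ideal.Quotient.eq_zero_iff_mem]
    rfl
  refine ⟨L, inferInstance, inferInstance, ?_, F, hz, ?_⟩
  · rw [faithfulSMul_iff_algebraMap_injective, injective_iff_map_eq_zero]
    intro a ha
    have h1 : MvPolynomial.aeval F (MvPolynomial.C a) = 0 := by
      rw [MvPolynomial.aeval_C]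
      exact ha
    rw [hz] at h1
    apply Polynomial.eq_zero_of_infinite_isRoot
    obtain ⟨x0, hx0⟩ := hne
    refine Set.Infinite.mono (s := U) ?_ (infinite_of_mem_nhds x0 (hUo.mem_nhds hx0))
    intro x hx
    have h2 := h1 x hx
    simpa [evF] using h2
  · intro l
    obtain ⟨a, b, hb, rfl⟩ := IsFractionRing.div_surjective (A := B) l
    obtain ⟨p, rfl⟩ := Ideal.Quotient.mk_surjective a
    obtain ⟨q, rfl⟩ := Ideal.Quotient.mk_surjective b
    have hq : MvPolynomial.aeval F q ≠ 0 := by
      rw [hF, Ne, map_eq_zero_iff _ hinj]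
      exact nonZeroDivisors.ne_zero hb
    refine ⟨p, q, hq, ?_⟩
    rw [← hF, ← hF, mul_div_cancel₀ _ hq]

theorem isOpen_ne (hUo : IsOpen U) (hf : ∀ i, AnalyticOnNhd ℂ (f i) U) (q : MvPolynomial σ ℂ[X]) :
    IsOpen {x | x ∈ U ∧ evF f x q ≠ 0} := by
  have h1 : ContinuousOn (fun x => evF f x q) U := (evF_an hf q).continuousOn
  exact h1.isOpen_inter_preimage hUo isOpen_compl_singleton

/-- regularity in terms of the field -/
theorem reg_field (hU : IsPreconnected U) (hUo : IsOpen U) (hf : ∀ i, AnalyticOnNhd ℂ (f i) U)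
    (hreg : Regular U f) {L : Type} [Field L] [Algebra ℂ[X] L] [FaithfulSMul ℂ[X] L] (F : σ → L)
    (hz : ∀ p : MvPolynomial σ ℂ[X], MvPolynomial.aeval F p = 0 ↔ ∀ x ∈ U, evF f x p = 0)
    (hfrac : ∀ l : L, ∃ p q : MvPolynomial σ ℂ[X], MvPolynomial.aeval F q ≠ 0 ∧
        MvPolynomial.aeval F q * l = MvPolynomial.aeval F p) (a : L) (ha : IsAlgebraic ℂ[X] a) :
    ∃ p q : ℂ[X], q ≠ 0 ∧ algebraMap ℂ[X] L q * a = algebraMap ℂ[X] L p := by
  classical
  obtain ⟨P, Q, hQ, hPQ⟩ := hfrac a
  obtain ⟨R, hR, hRa⟩ := ha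
  set V : Set ℂ := {x | x ∈ U ∧ evF f x Q ≠ 0} with hV
  have hVo : IsOpen V := isOpen_ne hUo hf Q
  have hVne : V.Nonempty := by
    by_contra hcon
    apply hQ
    rw [hz]
    intro x hx
    by_contra hne
    exact hcon ⟨x, hx, hne⟩
  let g : ℂ → ℂ := fun x => evF f x P / evF f x Q
  have hg : AnalyticOnNhd ℂ g V := fun x hx => (evF_an hf P x hx.1).div (evF_an hf Q x hx.1) hx.2
  -- the homogenized equation
  set n := R.natDegree with hn
  let W : MvPolynomial σ ℂ[X] := ∑ i ∈ Finset.range (n + 1), MvPolynomial.C (R.coeff i) * P ^ i * Q ^ (n - i)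
  have hW : MvPolynomial.aeval F W = 0 := by
    have h1 : MvPolynomial.aeval F W = MvPolynomial.aeval F Q ^ n * aeval a R := by
      rw [aeval_eq_sum_range, map_sum, Finset.mul_sum]
      refine Finset.sum_congr rfl fun i hi => ?_
      have hi' : i ≤ n := Nat.lt_succ_iff.1 (Finset.mem_range.1 hi)
      rw [map_mul, map_mul, map_pow, map_pow, MvPolynomial.aeval_C, ← hPQ, Algebra.smul_def]
      have h2 : (MvPolynomial.aeval F Q : L) ^ n = MvPolynomial.aeval F Q ^ i * MvPolynomial.aeval F Q ^ (n - i) := by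
        rw [← pow_add]
        congr 1
        omega
      rw [h2]
      ring
    rw [h1, hRa, mul_zero]
  rw [hz] at hW
  obtain ⟨p, q, hq, hpq⟩ := hreg V g P Q R hVo hVne (fun x hx => hx.1) hg hR (fun x hx => hx.2)
    (fun x hx => mul_div_cancel₀ _ hx.2) (by
      intro x hx
      have h1 := hW x hx.1
      have h2 : evF f x W = evF f x Q ^ n * (R.map (Polynomial.evalRingHom x)).eval (g x) := by
        have h3 : evF f x W = ∑ i ∈ Finset.range (n + 1), (R.coeff i).eval x * evF f x P ^ i * evF f x Q ^ (n - i) := by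
          simp only [evF, W, MvPolynomial.eval₂_sum, MvPolynomial.eval₂_mul, MvPolynomial.eval₂_pow,
            MvPolynomial.eval₂_C, coe_evalRingHom]
        rw [h3, eval_map, eval₂_eq_sum_range, Finset.mul_sum]
        refine Finset.sum_congr rfl fun i hi => ?_
        have hi' : i ≤ n := Nat.lt_succ_iff.1 (Finset.mem_range.1 hi)
        have h4 : evF f x Q ^ n = evF f x Q ^ i * evF f x Q ^ (n - i) := by
          rw [← pow_add]
          congr 1
          omega
        have h5 : evF f x P = evF f x Q * g x := (mul_div_cancel₀ _ hx.2).symm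
        rw [h4, h5]
        simp only [coe_evalRingHom]
        ring
      rw [h2] at h1
      rcases mul_eq_zero.1 h1 with h3 | h3
      · exact absurd h3 (pow_ne_zero _ hx.2)
      · exact h3)
  refine ⟨p, q, hq, ?_⟩
  have h1 : MvPolynomial.aeval F (MvPolynomial.C q * P - MvPolynomial.C p * Q) = 0 := by
    rw [hz]
    have h2 := evF_an hf (MvPolynomial.C q * P - MvPolynomial.C p * Q)
    obtain ⟨x0, hx0⟩ := hVne
    have h3 : ∀ᶠ x in 𝓝 x0, evF f x (MvPolynomial.C q * P - MvPolynomial.C p * Q) = 0 := by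
      filter_upwards [hVo.mem_nhds hx0] with x hx
      have h4 := hpq x hx
      have h5 : evF f x P = evF f x Q * g x := (mul_div_cancel₀ _ hx.2).symm
      have h6 : evF f x (MvPolynomial.C q * P - MvPolynomial.C p * Q) = q.eval x * evF f x P - p.eval x * evF f x Q := by
        simp [evF]
      rw [h6, h5, ← h4]
      ring
    exact h2.eqOn_zero_of_preconnected_of_eventuallyEq_zero hU hx0.1 h3
  rw [map_sub, map_mul, map_mul, MvPolynomial.aeval_C, MvPolynomial.aeval_C, ← hPQ, sub_eq_zero] at h1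
  have h2 : MvPolynomial.aeval F Q * (algebraMap ℂ[X] L q * a) = MvPolynomial.aeval F Q * algebraMap ℂ[X] L p := by
    rw [← mul_comm (algebraMap ℂ[X] L p), ← h1]
    ring
  exact mul_left_cancel₀ hQ h2

theorem ev_option {I : Type} (ι : I → σ) (P : MvPolynomial (Option I) ℂ) (t : ℂ) :
    evF f t (MvPolynomial.rename ι (MvPolynomial.optionEquivRight ℂ I P)) =
      MvPolynomial.eval (fun o : Option I => o.elim t fun y => f (ι y) t) P := by
  have h1 : (MvPolynomial.eval₂Hom (Polynomial.evalRingHom t) (fun i => f i t)).comp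
      ((MvPolynomial.rename ι : MvPolynomial I ℂ[X] →ₐ[ℂ[X]] MvPolynomial σ ℂ[X]).toRingHom.comp
        (MvPolynomial.optionEquivRight ℂ I).toAlgHom.toRingHom) =
      MvPolynomial.eval (fun o : Option I => o.elim t fun y => f (ι y) t) := by
    refine MvPolynomial.ringHom_ext ?_ ?_
    · intro a
      change MvPolynomial.eval₂Hom (Polynomial.evalRingHom t) (fun i => f i t)
        (MvPolynomial.rename ι (MvPolynomial.optionEquivRight ℂ I (MvPolynomial.C a))) = _
      rw [MvPolynomial.optionEquivRight_C, MvPolynomial.rename_C, MvPolynomial.eval₂Hom_C, MvPolynomial.eval_C,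
        coe_evalRingHom, eval_C]
    · intro o
      change MvPolynomial.eval₂Hom (Polynomial.evalRingHom t) (fun i => f i t)
        (MvPolynomial.rename ι (MvPolynomial.optionEquivRight ℂ I (MvPolynomial.X o))) = _
      cases o with
      | none =>
        rw [MvPolynomial.optionEquivRight_X_none, MvPolynomial.rename_C, MvPolynomial.eval₂Hom_C, MvPolynomial.eval_X,
          coe_evalRingHom, eval_X]
        rfl
      | some i =>
        rw [MvPolynomial.optionEquivRight_X_some, MvPolynomial.rename_X, MvPolynomial.eval₂Hom_X', MvPolynomial.eval_X]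
        rfl
  exact RingHom.congr_fun h1 P

/-- local independence of the chosen coordinates -/
theorem locInd_of (hU : IsPreconnected U) (hf : ∀ i, AnalyticOnNhd ℂ (f i) U) {L : Type} [Field L] [Algebra ℂ[X] L]
    (F : σ → L) (hz : ∀ p : MvPolynomial σ ℂ[X], MvPolynomial.aeval F p = 0 ↔ ∀ x ∈ U, evF f x p = 0)
    {I : Type} (ι : I → σ) (hind : AlgebraicIndependent ℂ[X] (F ∘ ι)) (t0 : ℂ) (ht0 : t0 ∈ U) :
    Y124.LocInd (fun i t => f (ι i) t) t0 := by
  intro P hP
  set p := MvPolynomial.optionEquivRight ℂ I P with hp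
  have hev : ∀ t, evF f t (MvPolynomial.rename ι p) =
      MvPolynomial.eval (fun o : Option I => o.elim t fun y => f (ι y) t) P := fun t => ev_option ι P t
  have h1 : ∀ x ∈ U, evF f x (MvPolynomial.rename ι p) = 0 := by
    have h2 := evF_an hf (MvPolynomial.rename ι p)
    refine h2.eqOn_zero_of_preconnected_of_eventuallyEq_zero hU ht0 ?_
    filter_upwards [hP] with t ht
    rw [hev]
    exact ht
  rw [← hz, MvPolynomial.aeval_rename] at h1
  have h3 : p = 0 := by
    apply hind
    rw [map_zero]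
    exact h1
  rw [hp] at h3
  exact (map_eq_zero_iff _ (MvPolynomial.optionEquivRight ℂ I).injective).1 h3

end Pool.Agent.Y890.SP
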