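import Pool.Agent.Y890.SP.Sys

/-!
# All degrees, heights, number fields and constants at once
-/

set_option autoImplicit false
set_option linter.unusedSectionVars false

open Polynomial NumberField Filter

namespace Pool.Agent.Y890.SP

/-- a diagonal argument -/
theorem exists_omega (S : ℕ → ℝ → Prop) (hS : ∀ k, ∃ T₀ : ℝ, ∀ T, T₀ ≤ T → S (k + 1) T) :
    ∃ (ω : ℝ → ℕ) (T₀ : ℝ), Tendsto ω atTop atTop ∧ Monotone ω ∧ ∀ T, T₀ ≤ T → 0 < ω T ∧ S (ω T) T := by
  classical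
  choose T₀ hT₀ using hS
  let ω : ℝ → ℕ := fun T => Nat.findGreatest (fun k => ∀ j < k, max (T₀ j) j ≤ T) ⌈T⌉₊
  have hmono : Monotone ω := by
    intro T T' h
    refine Nat.findGreatest_mono ?_ (Nat.ceil_mono h)
    intro k hk j hj
    exact (hk j hj).trans h
  refine ⟨ω, max (T₀ 0) 1, ?_, hmono, ?_⟩
  · refine tendsto_atTop_atTop.2 fun k => ?_
    refine ⟨max (∑ j ∈ Finset.range k, |T₀ j|) k, fun T hT => ?_⟩
    apply Nat.le_findGreatest
    · have h1 : (k : ℝ) ≤ T := (le_max_right _ _).trans hT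
      exact Nat.cast_le.1 (h1.trans (Nat.le_ceil T))
    · intro j hj
      refine max_le ?_ ?_
      · calc T₀ j ≤ |T₀ j| := le_abs_self _
          _ ≤ ∑ j ∈ Finset.range k, |T₀ j| :=
              Finset.single_le_sum (f := fun j => |T₀ j|) (fun _ _ => abs_nonneg _) (Finset.mem_range.2 hj)
          _ ≤ T := (le_max_left _ _).trans hT
      · have h1 : (k : ℝ) ≤ T := (le_max_right _ _).trans hT
        have h2 : (j : ℝ) ≤ k := by exact_mod_cast hj.le
        linarith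
  · intro T hT
    have h1 : T₀ 0 ≤ T := (le_max_left _ _).trans hT
    have h2 : 1 ≤ T := (le_max_right _ _).trans hT
    have hpos : 1 ≤ ω T := by
      apply Nat.le_findGreatest
      · exact Nat.one_le_ceil_iff.2 (by linarith)
      · intro j hj
        have : j = 0 := by omega
        subst this
        refine max_le h1 ?_
        push_cast
        linarith
    refine ⟨hpos, ?_⟩
    have h3 : ∀ j < ω T, max (T₀ j) j ≤ T :=
      Nat.findGreatest_spec (P := fun k => ∀ j < k, max (T₀ j) j ≤ T) (m := 0) (Nat.zero_le _)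
        (fun j hj => absurd hj (Nat.not_lt_zero j))
    obtain ⟨k, hk⟩ : ∃ k, ω T = k + 1 := ⟨ω T - 1, by omega⟩
    rw [hk] at h3 ⊢
    exact hT₀ k T ((le_max_left _ _).trans (h3 k (Nat.lt_succ_self k)))

/-- the points of the disc of radius `k` at distance at least `1 / k` from the complement of `U` -/
def Core (U : Set ℂ) (k : ℕ) : Set ℂ := {z | ‖z‖ ≤ k ∧ Metric.ball z (k : ℝ)⁻¹ ⊆ U}

theorem core_compact (U : Set ℂ) (k : ℕ) : IsCompact (Core U k) := by
  have h1 : IsClosed (Core U k) := by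
    rw [← isSeqClosed_iff_isClosed]
    intro z a hz ha
    refine ⟨?_, ?_⟩
    · exact le_of_tendsto ha.norm (Eventually.of_forall fun i => (hz i).1)
    · intro y hy
      rw [Metric.mem_ball] at hy
      have h2 : Tendsto (fun i => dist y (z i)) atTop (nhds (dist y a)) := tendsto_const_nhds.dist ha
      obtain ⟨i, hi⟩ := (h2.eventually (gt_mem_nhds hy)).exists
      exact (hz i).2 (Metric.mem_ball.2 hi)
  refine Metric.isCompact_of_isClosed_isBounded h1 ?_
  refine (Metric.isBounded_closedBall (x := (0 : ℂ)) (r := k)).subset ?_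
  intro z hz
  rw [mem_closedBall_zero_iff]
  exact hz.1

theorem core_sub (U : Set ℂ) {k : ℕ} (hk : 0 < k) : Core U k ⊆ U := by
  intro z hz
  exact hz.2 (Metric.mem_ball_self (by positivity))

/-- **All degrees, heights, number fields and constants at once.** -/
theorem exc_omega {n : ℕ} {σ : Type} [Fintype σ] [DecidableEq σ] {U : Fin (n + 1) → Set ℂ}
    {f : Fin (n + 1) → σ → ℂ → ℂ} (hU : ∀ j, IsPreconnected (U j)) (hUo : ∀ j, IsOpen (U j))
    (hne : ∀ j, (U j).Nonempty) (hf : ∀ j i, AnalyticOnNhd ℂ (f j i) (U j)) (hreg : ∀ j, Regular (U j) (f j)) :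
    ∃ (ω : ℝ → ℕ) (T₀ : ℝ), Tendsto ω atTop atTop ∧ Monotone ω ∧ ∀ T, T₀ ≤ T → 0 < ω T ∧
      ∀ (K : Type) [Field K] [NumberField K], Module.finrank ℚ K ≤ ω T → ∀ (io : K →+* ℂ) (ξ : Fin (ω T) → ℂ),
        (Exc (ω T) U f (fun j => Core (U j) (ω T)) K io ξ (ω T) T).Finite ∧
          ((Exc (ω T) U f (fun j => Core (U j) (ω T)) K io ξ (ω T) T).ncard : ℝ) ≤
            T ^ ((ω T : ℝ)⁻¹) * ({x : K | Y120.HtLe K T x}.ncard : ℝ) ^ n := by
  classical
  let S : ℕ → ℝ → Prop := fun k T => ∀ (K : Type) [Field K] [NumberField K], Module.finrank ℚ K ≤ k →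
    ∀ (io : K →+* ℂ) (ξ : Fin k → ℂ), (Exc k U f (fun j => Core (U j) k) K io ξ k T).Finite ∧
      ((Exc k U f (fun j => Core (U j) k) K io ξ k T).ncard : ℝ) ≤
        T ^ ((k : ℝ)⁻¹) * ({x : K | Y120.HtLe K T x}.ncard : ℝ) ^ n
  refine exists_omega S fun k => ?_
  have hk : (0 : ℝ) < ((k + 1 : ℕ) : ℝ)⁻¹ / 2 := by positivity
  obtain ⟨C, T₀, hC, hT₀, H⟩ := exc_bound hU hUo hne hf hreg (fun j => Core (U j) (k + 1))
    (fun j => core_compact _ _) (fun j => core_sub _ (Nat.succ_pos k)) (k + 1) (Fin (k + 1)) (k + 1)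
    ((k + 1 : ℕ) : ℝ) _ hk
  refine ⟨max T₀ (C ^ (2 * (k + 1))), fun T hT K _ _ hK io ξ => ?_⟩
  have hT1 : T₀ ≤ T := (le_max_left _ _).trans hT
  have hT2 : C ^ (2 * (k + 1)) ≤ T := (le_max_right _ _).trans hT
  have hTp : 0 < T := by linarith
  obtain ⟨h1, h2⟩ := H K hK io ξ T hT1
  refine ⟨h1, h2.trans ?_⟩
  refine mul_le_mul_of_nonneg_right ?_ (by positivity)
  have h3 : C ≤ T ^ (((k + 1 : ℕ) : ℝ)⁻¹ / 2) := by
    have h4 : C = (C ^ (2 * (k + 1))) ^ (((k + 1 : ℕ) : ℝ)⁻¹ / 2) := by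
      rw [← Real.rpow_natCast, ← Real.rpow_mul hC]
      have : ((2 * (k + 1) : ℕ) : ℝ) * (((k + 1 : ℕ) : ℝ)⁻¹ / 2) = 1 := by
        push_cast
        have : ((k : ℝ) + 1) ≠ 0 := by positivity
        field_simp
      rw [this, Real.rpow_one]
    rw [h4]
    exact Real.rpow_le_rpow (by positivity) hT2 hk.le
  calc C * T ^ (((k + 1 : ℕ) : ℝ)⁻¹ / 2) ≤ T ^ (((k + 1 : ℕ) : ℝ)⁻¹ / 2) * T ^ (((k + 1 : ℕ) : ℝ)⁻¹ / 2) :=
        mul_le_mul_of_nonneg_right h3 (by positivity)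
    _ = T ^ (((k + 1 : ℕ) : ℝ)⁻¹) := by
        rw [← Real.rpow_add hTp]
        congr 1
        ring

end Pool.Agent.Y890.SP
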