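import Mathlib

/-!
# Bertini–Noether: specializations of absolutely irreducible polynomials
-/

set_option autoImplicit false
set_option linter.unusedSectionVars false

open Polynomial

namespace Pool.Agent.Y890.SP

/-- a system of polynomial equations over a domain without solutions over the algebraic closure -/
theorem no_sol {A k kb : Type} [CommRing A] [IsDomain A] [Field k] [Algebra A k] [IsFractionRing A k] [Field kb]
    [Algebra k kb] [IsAlgClosed kb] {τ : Type} [Finite τ] (J : Ideal (MvPolynomial τ A))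
    (h : ∀ x : τ → kb, ∃ p ∈ J, MvPolynomial.eval₂ ((algebraMap k kb).comp (algebraMap A k)) x p ≠ 0) :
    ∃ D : A, D ≠ 0 ∧ MvPolynomial.C D ∈ J := by
  classical
  let : Algebra (MvPolynomial τ A) (MvPolynomial τ k) := MvPolynomial.algebraMvPolynomial
  have hloc : IsLocalization ((nonZeroDivisors A).map (MvPolynomial.C (σ := τ))) (MvPolynomial τ k) :=
    MvPolynomial.isLocalization (nonZeroDivisors A) k
  have h1 : MvPolynomial.zeroLocus kb (J.map (algebraMap (MvPolynomial τ A) (MvPolynomial τ k))) = ∅ := by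
    rw [Set.eq_empty_iff_forall_notMem]
    intro x hx
    obtain ⟨p, hp, hne⟩ := h x
    apply hne
    have h2 := hx _ (Ideal.mem_map_of_mem _ hp)
    rw [MvPolynomial.algebraMap_def, MvPolynomial.aeval_def, MvPolynomial.eval₂_map] at h2
    exact h2
  have h2 : (J.map (algebraMap (MvPolynomial τ A) (MvPolynomial τ k))) = ⊤ := by
    rw [← Ideal.radical_eq_top, ← MvPolynomial.vanishingIdeal_zeroLocus_eq_radical (K := kb), h1]
    exact MvPolynomial.vanishingIdeal_empty
  have h3 : algebraMap (MvPolynomial τ A) (MvPolynomial τ k) 1 ∈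
      J.map (algebraMap (MvPolynomial τ A) (MvPolynomial τ k)) := by
    rw [h2]
    trivial
  rw [IsLocalization.algebraMap_mem_map_algebraMap_iff ((nonZeroDivisors A).map (MvPolynomial.C (σ := τ)))] at h3
  obtain ⟨m, ⟨D, hD, rfl⟩, hm⟩ := h3
  rw [mul_one] at hm
  exact ⟨D, nonZeroDivisors.ne_zero hD, hm⟩

/-- a monic factorization with factors of degrees `a` and `b` -/
def Fac {R : Type*} [CommRing R] {I : Type*} (m : Polynomial (MvPolynomial I R)) (a b : ℕ) : Prop :=
  ∃ u v : Polynomial (MvPolynomial I R), u.Monic ∧ v.Monic ∧ u.natDegree = a ∧ v.natDegree = b ∧ u * v = m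

variable {I : Type} [Fintype I] [DecidableEq I]

/-- exponents in a box -/
noncomputable def ex {N : ℕ} (α : I → Fin (N + 1)) : I →₀ ℕ := Finsupp.equivFunOnFinite.symm fun i => (α i : ℕ)

theorem ex_inj {N : ℕ} : Function.Injective (ex : (I → Fin (N + 1)) → (I →₀ ℕ)) := by
  intro α β h
  funext i
  have h1 := DFunLike.congr_fun h i
  exact Fin.ext h1

/-- the polynomial with given coefficients in a box -/
noncomputable def box {R : Type*} [CommSemiring R] {N : ℕ} (c : (I → Fin (N + 1)) → R) : MvPolynomial I R :=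
  ∑ α, MvPolynomial.monomial (ex α) (c α)

theorem box_map {R S : Type*} [CommSemiring R] [CommSemiring S] {N : ℕ} (g : R →+* S) (c : (I → Fin (N + 1)) → R) :
    MvPolynomial.map g (box c) = box (fun α => g (c α)) := by
  simp only [box, map_sum, MvPolynomial.map_monomial]

theorem box_of_le {R : Type*} [CommSemiring R] {N : ℕ} (p : MvPolynomial I R) (hp : p.totalDegree ≤ N) :
    box (N := N) (fun α => p.coeff (ex α)) = p := by
  classical
  ext m
  rw [box, MvPolynomial.coeff_sum]
  simp only [MvPolynomial.coeff_monomial]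
  by_cases hm : ∃ α : I → Fin (N + 1), ex α = m
  · obtain ⟨α, rfl⟩ := hm
    rw [Finset.sum_eq_single α]
    · simp
    · intro β _ hβ
      rw [if_neg fun h => hβ (ex_inj h)]
    · simp
  · push Not at hm
    rw [Finset.sum_eq_zero fun α _ => if_neg (hm α)]
    by_contra hne
    have hms : m ∈ p.support := by
      rw [MvPolynomial.mem_support_iff]
      exact fun h => hne h.symm
    have hle : ∀ i, m i < N + 1 := by
      intro i
      have h1 := MvPolynomial.le_totalDegree hms
      have h2 : m i ≤ m.sum fun _ e => e := by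
        rw [Finsupp.sum_fintype _ _ (fun _ => rfl)]
        exact Finset.single_le_sum (f := fun i => m i) (fun _ _ => Nat.zero_le _) (Finset.mem_univ i)
      omega
    exact hm (fun i => ⟨m i, hle i⟩) (by ext i; rfl)

/-- the monic polynomial with given lower coefficients -/
noncomputable def mon {R : Type*} [CommRing R] (a : ℕ) (c : Fin a → R) : R[X] := X ^ a + ∑ i, C (c i) * X ^ (i : ℕ)

theorem mon_map {R S : Type*} [CommRing R] [CommRing S] (g : R →+* S) (a : ℕ) (c : Fin a → R) :
    (mon a c).map g = mon a (fun i => g (c i)) := by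
  simp [mon, Polynomial.map_sum]

theorem mon_lt {R : Type*} [CommRing R] (a : ℕ) (c : Fin a → R) : (∑ i, C (c i) * X ^ (i : ℕ) : R[X]).degree < a := by
  refine lt_of_le_of_lt (degree_sum_le _ _) ?_
  rw [Finset.sup_lt_iff]
  · intro i _
    refine lt_of_le_of_lt (degree_C_mul_X_pow_le _ _) ?_
    exact_mod_cast i.2
  · exact WithBot.bot_lt_coe _

theorem mon_monic {R : Type*} [CommRing R] [Nontrivial R] (a : ℕ) (c : Fin a → R) : (mon a c).Monic :=
  monic_X_pow_add (mon_lt a c)

theorem mon_natDegree {R : Type*} [CommRing R] [Nontrivial R] (a : ℕ) (c : Fin a → R) : (mon a c).natDegree = a := by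
  have h1 : (mon a c).degree = a := by
    rw [mon, degree_add_eq_left_of_degree_lt]
    · exact degree_X_pow a
    · rw [degree_X_pow]
      exact mon_lt a c
  exact natDegree_eq_of_degree_eq_some h1

theorem mon_self {R : Type*} [CommRing R] (u : R[X]) (hu : u.Monic) :
    mon u.natDegree (fun i => u.coeff i) = u := by
  conv_rhs => rw [hu.as_sum]
  rw [mon, Finset.sum_range]

theorem totalDegree_le {F : Type} [Field F] (u v m : Polynomial (MvPolynomial I F)) (hu : u ≠ 0) (hv : v ≠ 0)
    (h : u * v = m) (i : ℕ) :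
    (u.coeff i).totalDegree ≤ ((MvPolynomial.optionEquivLeft F I).symm m).totalDegree := by
  have h1 := MvPolynomial.totalDegree_coeff_optionEquivLeft_le (R := F) (p := (MvPolynomial.optionEquivLeft F I).symm u) (i := i)
  rw [AlgEquiv.apply_symm_apply] at h1
  refine h1.trans ?_
  rw [← h, map_mul, MvPolynomial.totalDegree_mul_of_isDomain]
  · omega
  · simpa using hu
  · simpa using hv

/-- **Bertini–Noether**, for one pair of degrees -/
theorem bn {A k kb : Type} [CommRing A] [IsDomain A] [Field k] [Algebra A k] [IsFractionRing A k] [Field kb]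
    [Algebra k kb] [IsAlgClosed kb] (m : Polynomial (MvPolynomial I A)) (a b : ℕ)
    (h : ¬ Fac (m.map (MvPolynomial.map ((algebraMap k kb).comp (algebraMap A k)))) a b) :
    ∃ D : A, D ≠ 0 ∧ ∀ (F : Type) [Field F] (φ : A →+* F), φ D ≠ 0 → ¬ Fac (m.map (MvPolynomial.map φ)) a b := by
  classical
  set N : ℕ := ((MvPolynomial.optionEquivLeft A I).symm m).totalDegree with hN
  let E := I → Fin (N + 1)
  let τ := (Fin a × E) ⊕ (Fin b × E)
  let R := MvPolynomial τ A
  let U : Polynomial (MvPolynomial I R) := mon a fun i => box fun α => MvPolynomial.X (Sum.inl (i, α))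
  let V : Polynomial (MvPolynomial I R) := mon b fun i => box fun α => MvPolynomial.X (Sum.inr (i, α))
  let W : Polynomial (MvPolynomial I R) := U * V - m.map (MvPolynomial.map (MvPolynomial.C))
  let J : Ideal R := Ideal.span (Set.range fun p : ℕ × (I →₀ ℕ) => (W.coeff p.1).coeff p.2)
  -- values
  have hval : ∀ (F : Type) [Field F] (φ : A →+* F) (x : τ → F), (∀ p ∈ J, MvPolynomial.eval₂ φ x p = 0) ↔
      mon a (fun i => box (I := I) fun α => x (Sum.inl (i, α))) * mon b (fun i => box (I := I) fun α => x (Sum.inr (i, α))) =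
        m.map (MvPolynomial.map φ) := by
    intro F _ φ x
    set g : R →+* F := MvPolynomial.eval₂Hom φ x with hg
    have hgC : g.comp MvPolynomial.C = φ := RingHom.ext fun y => MvPolynomial.eval₂Hom_C _ _ _
    have hX : ∀ t : τ, g (MvPolynomial.X t) = x t := fun t => MvPolynomial.eval₂Hom_X' _ _ _
    have hW : W.map (MvPolynomial.map g) =
        mon a (fun i => box (I := I) fun α => x (Sum.inl (i, α))) * mon b (fun i => box (I := I) fun α => x (Sum.inr (i, α))) -
        m.map (MvPolynomial.map φ) := by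
      have h1 : (m.map (MvPolynomial.map (MvPolynomial.C : A →+* R))).map (MvPolynomial.map g) =
          m.map (MvPolynomial.map (σ := I) φ) := by
        rw [Polynomial.map_map]
        congr 1
        exact RingHom.ext fun p => by rw [RingHom.comp_apply, MvPolynomial.map_map, hgC]
      change (U * V - _).map _ = _
      rw [Polynomial.map_sub, Polynomial.map_mul, h1, mon_map, mon_map]
      simp only [box_map, hX]
    have h2 : (∀ p ∈ J, g p = 0) ↔ W.map (MvPolynomial.map g) = 0 := by
      constructor
      · intro h0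
        ext i α
        rw [coeff_map, MvPolynomial.coeff_map, coeff_zero, MvPolynomial.coeff_zero]
        exact h0 _ (Ideal.subset_span ⟨(i, α), rfl⟩)
      · intro h0
        have h3 : J ≤ RingHom.ker g := by
          rw [Ideal.span_le]
          rintro _ ⟨⟨i, α⟩, rfl⟩
          rw [SetLike.mem_coe, RingHom.mem_ker]
          have h4 := congrArg (fun w => (Polynomial.coeff w i).coeff α) h0
          simp only [coeff_map, MvPolynomial.coeff_map, coeff_zero, MvPolynomial.coeff_zero] at h4
          exact h4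
        exact fun p hp => h3 hp
    rw [hW, sub_eq_zero] at h2
    exact h2
  obtain ⟨D, hD0, hDJ⟩ := no_sol (k := k) (kb := kb) J (by
    intro x
    by_contra hcon
    push Not at hcon
    have h1 := (hval kb _ x).1 hcon
    exact h ⟨_, _, mon_monic _ _, mon_monic _ _, mon_natDegree _ _, mon_natDegree _ _, h1⟩)
  refine ⟨D, hD0, ?_⟩
  intro F _ φ hφ
  rintro ⟨u, v, hu, hv, rfl, rfl, huv⟩
  apply hφ
  have hNle : ((MvPolynomial.optionEquivLeft F I).symm (m.map (MvPolynomial.map φ))).totalDegree ≤ N := by
    have h1 : (MvPolynomial.optionEquivLeft F I).symm (m.map (MvPolynomial.map φ)) =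
        MvPolynomial.map φ ((MvPolynomial.optionEquivLeft A I).symm m) := by
      rw [AlgEquiv.symm_apply_eq]
      obtain ⟨m', rfl⟩ := (MvPolynomial.optionEquivLeft A I).surjective m
      rw [AlgEquiv.symm_apply_apply]
      ext i α
      rw [coeff_map, MvPolynomial.coeff_map, MvPolynomial.optionEquivLeft_coeff_coeff,
        MvPolynomial.optionEquivLeft_coeff_coeff, MvPolynomial.coeff_map]
    rw [h1]
    exact Finset.sup_mono (MvPolynomial.support_map_subset _ _)
  let x : τ → F := Sum.elim (fun p => (u.coeff p.1).coeff (ex p.2)) (fun p => (v.coeff p.1).coeff (ex p.2))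
  have h1 := (hval F φ x).2 (by
    rw [← huv]
    simp only [x, Sum.elim_inl, Sum.elim_inr]
    have e1 : (fun i : Fin u.natDegree => box (I := I) (N := N) fun α => (u.coeff i).coeff (ex α)) =
        fun i : Fin u.natDegree => u.coeff (i : ℕ) := by
      funext i
      exact box_of_le _ ((totalDegree_le u v _ hu.ne_zero hv.ne_zero huv i).trans hNle)
    have e2 : (fun i : Fin v.natDegree => box (I := I) (N := N) fun α => (v.coeff i).coeff (ex α)) =
        fun i : Fin v.natDegree => v.coeff (i : ℕ) := by
      funext i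
      refine box_of_le _ ((totalDegree_le v u _ hv.ne_zero hu.ne_zero (by rw [mul_comm]; exact huv) i).trans hNle)
    rw [e1, e2, mon_self u hu, mon_self v hv])
  have h2 := h1 _ hDJ
  rwa [MvPolynomial.eval₂_C] at h2

/-- **Bertini–Noether** -/
theorem bn_all {A k kb : Type} [CommRing A] [IsDomain A] [Field k] [Algebra A k] [IsFractionRing A k] [Field kb]
    [Algebra k kb] [IsAlgClosed kb] (m : Polynomial (MvPolynomial I A)) (hm : m.Monic) (e : ℕ) (he : m.natDegree = e)
    (he0 : 0 < e)
    (h : ∀ a b, 0 < a → 0 < b → ¬ Fac (m.map (MvPolynomial.map ((algebraMap k kb).comp (algebraMap A k)))) a b) :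
    ∃ D : A, D ≠ 0 ∧ ∀ (F : Type) [Field F] (φ : A →+* F), φ D ≠ 0 → Irreducible (m.map (MvPolynomial.map (σ := I) φ)) := by
  classical
  have h1 : ∀ a : Fin e, 0 < (a : ℕ) → ∃ D : A, D ≠ 0 ∧ ∀ (F : Type) [Field F] (φ : A →+* F), φ D ≠ 0 →
      ¬ Fac (m.map (MvPolynomial.map φ)) (e - a) a := fun a ha =>
    bn (k := k) (kb := kb) m (e - a) a (h _ _ (by have := a.2; omega) ha)
  have h2 : ∀ a : Fin e, ∃ D : A, D ≠ 0 ∧ ((0 < (a : ℕ)) → ∀ (F : Type) [Field F] (φ : A →+* F), φ D ≠ 0 →
      ¬ Fac (m.map (MvPolynomial.map φ)) (e - a) a) := by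
    intro a
    rcases Nat.eq_zero_or_pos (a : ℕ) with h0 | h0
    · exact ⟨1, one_ne_zero, fun h => absurd h (by omega)⟩
    · obtain ⟨D, hD, hh⟩ := h1 a h0
      exact ⟨D, hD, fun _ => hh⟩
  choose D hD0 hD using h2
  refine ⟨∏ a, D a, Finset.prod_ne_zero_iff.2 fun a _ => hD0 a, ?_⟩
  intro F _ φ hφ
  rw [map_prod, Finset.prod_ne_zero_iff] at hφ
  have hmm : (m.map (MvPolynomial.map (σ := I) φ)).Monic := hm.map _
  have hdeg : (m.map (MvPolynomial.map (σ := I) φ)).natDegree = e := by rw [hm.natDegree_map, he]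
  rw [hmm.irreducible_iff_natDegree']
  refine ⟨?_, ?_⟩
  · intro h1
    rw [h1, natDegree_one] at hdeg
    omega
  · intro u v hu hv huv hmem
    rw [Finset.mem_Ioc, hdeg] at hmem
    have hsum : u.natDegree + v.natDegree = e := by
      rw [← hdeg, ← huv, hu.natDegree_mul hv]
    have hlt : v.natDegree < e := by omega
    refine hD ⟨v.natDegree, hlt⟩ hmem.1 F φ (hφ _ (Finset.mem_univ _)) ⟨u, v, hu, hv, ?_, rfl, huv⟩
    change u.natDegree = e - v.natDegree
    omega

end Pool.Agent.Y890.SP
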