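import Pool.Agent.Y890.SP.Minor

/-!
# Lifting solutions of linear systems over a smaller field of constants
-/

set_option autoImplicit false
set_option linter.unusedSectionVars false

namespace Pool.Agent.Y890.SP

variable {τ ι Q : Type*} [Field Q] [Algebra Q ℂ]

/-- the coordinates of a polynomial in a basis of `ℂ` over a subfield -/
noncomputable def pr (b : Module.Basis ι Q ℂ) (μ : ι) (p : MvPolynomial τ ℂ) : MvPolynomial τ Q :=
  ∑ α ∈ p.support, MvPolynomial.monomial α (b.coord μ (p.coeff α))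

theorem coeff_pr (b : Module.Basis ι Q ℂ) (μ : ι) (p : MvPolynomial τ ℂ) (α : τ →₀ ℕ) :
    (pr b μ p).coeff α = b.coord μ (p.coeff α) := by
  classical
  rw [pr, MvPolynomial.coeff_sum]
  simp only [MvPolynomial.coeff_monomial]
  rw [Finset.sum_ite_eq']
  split_ifs with h
  · rfl
  · rw [MvPolynomial.notMem_support_iff.1 h, map_zero]

theorem pr_degree (b : Module.Basis ι Q ℂ) (μ : ι) (p : MvPolynomial τ ℂ) :
    (pr b μ p).totalDegree ≤ p.totalDegree := by
  classical
  refine Finset.sup_mono fun α hα => ?_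
  rw [MvPolynomial.mem_support_iff] at hα ⊢
  intro h
  rw [coeff_pr, h, map_zero] at hα
  exact hα rfl

theorem pr_sum {X : Type*} (b : Module.Basis ι Q ℂ) (μ : ι) (s : Finset X) (p : X → MvPolynomial τ ℂ) :
    pr b μ (∑ x ∈ s, p x) = ∑ x ∈ s, pr b μ (p x) := by
  ext α
  simp only [coeff_pr, MvPolynomial.coeff_sum, map_sum]

theorem pr_mul (b : Module.Basis ι Q ℂ) (μ : ι) (p : MvPolynomial τ ℂ) (g : MvPolynomial τ Q) :
    pr b μ (p * MvPolynomial.map (algebraMap Q ℂ) g) = pr b μ p * g := by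
  classical
  ext α
  simp only [coeff_pr, MvPolynomial.coeff_mul, map_sum, MvPolynomial.coeff_map]
  refine Finset.sum_congr rfl fun x _ => ?_
  rw [mul_comm (MvPolynomial.coeff x.1 p), ← Algebra.smul_def, map_smul, smul_eq_mul, mul_comm]

theorem eval_pr (b : Module.Basis ι Q ℂ) (μ : ι) (p : MvPolynomial τ ℂ) (s : τ → Q) :
    MvPolynomial.eval s (pr b μ p) = b.coord μ (MvPolynomial.eval (fun j => algebraMap Q ℂ (s j)) p) := by
  classical
  rw [pr, map_sum, MvPolynomial.eval_eq _ p, map_sum]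
  refine Finset.sum_congr rfl fun α _ => ?_
  rw [MvPolynomial.eval_monomial]
  have h1 : (∏ i ∈ α.support, (algebraMap Q ℂ (s i)) ^ α i) = algebraMap Q ℂ (∏ i ∈ α.support, s i ^ α i) := by
    simp [map_prod]
  rw [h1, mul_comm (MvPolynomial.coeff α p), ← Algebra.smul_def, map_smul, smul_eq_mul, mul_comm]
  rfl

theorem pr_zero {b : Module.Basis ι Q ℂ} {p : MvPolynomial τ ℂ} (h : ∀ μ, pr b μ p = 0) : p = 0 := by
  ext α
  rw [MvPolynomial.coeff_zero]
  apply b.ext_elem
  intro μ
  have := congrArg (MvPolynomial.coeff α) (h μ)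
  rw [coeff_pr] at this
  simpa using this

/-- the coordinates that occur -/
theorem pr_finite (b : Module.Basis ι Q ℂ) (p : MvPolynomial τ ℂ) : ∃ J : Finset ι, ∀ μ ∉ J, pr b μ p = 0 := by
  classical
  refine ⟨p.support.biUnion fun α => (b.repr (p.coeff α)).support, fun μ hμ => ?_⟩
  ext α
  rw [coeff_pr, MvPolynomial.coeff_zero]
  by_contra h
  apply hμ
  rw [Finset.mem_biUnion]
  refine ⟨α, ?_, ?_⟩
  · rw [MvPolynomial.mem_support_iff]
    intro h0
    rw [h0, map_zero] at h
    exact h rfl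
  · rw [Finsupp.mem_support_iff]
    exact h

/-- **Lifting.** -/
theorem exists_lift {N Λ h : Type} [Fintype N] [Fintype Λ] [Fintype h] [DecidableEq N] [DecidableEq Λ]
    [DecidableEq h] (b : Module.Basis ι Q ℂ) (M : N → Λ → MvPolynomial τ ℂ) (d : ℕ)
    (hd : ∀ κ l, (M κ l).totalDegree ≤ d) (ξ : h → ℂ) :
    ∃ D : MvPolynomial τ Q, D ≠ 0 ∧ D.totalDegree ≤ Fintype.card (Λ × h) * d ∧
      ∀ (s : τ → Q) (P : Λ → h → Q), MvPolynomial.eval s D ≠ 0 →
        (∀ κ, ∑ l, (∑ i, ξ i * algebraMap Q ℂ (P l i)) *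
          MvPolynomial.eval (fun j => algebraMap Q ℂ (s j)) (M κ l) = 0) →
        ∃ G : Λ → h → MvPolynomial τ Q, (∀ l i, MvPolynomial.eval s (G l i) = P l i) ∧
          ∀ κ, ∑ l, (∑ i, MvPolynomial.C (ξ i) * MvPolynomial.map (algebraMap Q ℂ) (G l i)) * M κ l = 0 := by
  classical
  choose J hJ using fun p : N × Λ × h => pr_finite b (M p.1 p.2.1 * MvPolynomial.C (ξ p.2.2))
  let J' : Finset ι := Finset.univ.biUnion J
  have hJ' : ∀ (κ : N) (l : Λ) (i : h), ∀ μ ∉ J', pr b μ (M κ l * MvPolynomial.C (ξ i)) = 0 := by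
    intro κ l i μ hμ
    apply hJ (κ, l, i)
    intro h1
    exact hμ (Finset.mem_biUnion.2 ⟨_, Finset.mem_univ _, h1⟩)
  let M' : Matrix (N × J') (Λ × h) (MvPolynomial τ Q) :=
    Matrix.of fun p q => pr b p.2.1 (M p.1 q.1 * MvPolynomial.C (ξ q.2))
  obtain ⟨k, r, c, Φ, hk, hdet, hΦ⟩ := exists_geninv_minor M'
  set D := (M'.submatrix r c).det with hD
  refine ⟨D, hdet, ?_, ?_⟩
  · refine (totalDegree_det_le _ d fun i j => ?_).trans (Nat.mul_le_mul_right d hk)
    refine (pr_degree b _ _).trans ?_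
    refine (MvPolynomial.totalDegree_mul _ _).trans ?_
    rw [MvPolynomial.totalDegree_C, add_zero]
    exact hd _ _
  intro s P hs hP
  let P' : Λ × h → MvPolynomial τ Q := fun q => MvPolynomial.C (P q.1 q.2)
  let V : N × J' → MvPolynomial τ Q := M'.mulVec P'
  have hV : ∀ p, MvPolynomial.eval s (V p) = 0 := by
    intro p
    have h1 : V p = ∑ q, M' p q * P' q := rfl
    rw [h1, map_sum]
    have h2 : ∀ q : Λ × h, MvPolynomial.eval s (M' p q * P' q) =
        b.coord p.2.1 ((ξ q.2 * algebraMap Q ℂ (P q.1 q.2)) *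
          MvPolynomial.eval (fun j => algebraMap Q ℂ (s j)) (M p.1 q.1)) := by
      intro q
      rw [map_mul]
      have h3 : MvPolynomial.eval s (P' q) = P q.1 q.2 := MvPolynomial.eval_C _
      have h4 : MvPolynomial.eval s (M' p q) = b.coord p.2.1
          (MvPolynomial.eval (fun j => algebraMap Q ℂ (s j)) (M p.1 q.1) * ξ q.2) := by
        have h5 : M' p q = pr b p.2.1 (M p.1 q.1 * MvPolynomial.C (ξ q.2)) := rfl
        rw [h5, eval_pr, map_mul, MvPolynomial.eval_C]
      rw [h3, h4]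
      have h6 : (ξ q.2 * algebraMap Q ℂ (P q.1 q.2)) * MvPolynomial.eval (fun j => algebraMap Q ℂ (s j)) (M p.1 q.1) =
          P q.1 q.2 • (MvPolynomial.eval (fun j => algebraMap Q ℂ (s j)) (M p.1 q.1) * ξ q.2) := by
        rw [Algebra.smul_def]
        ring
      rw [h6, map_smul, smul_eq_mul, mul_comm]
    simp only [h2]
    rw [← map_sum, Fintype.sum_prod_type]
    have h7 := hP p.1
    simp only [Finset.sum_mul] at h7
    rw [h7, map_zero]
  let G' : Λ × h → MvPolynomial τ Q := fun q =>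
    MvPolynomial.C (MvPolynomial.eval s D)⁻¹ * (D * P' q - Φ.mulVec V q)
  refine ⟨fun l i => G' (l, i), ?_, ?_⟩
  · intro l i
    have h1 : MvPolynomial.eval s (Φ.mulVec V (l, i)) = 0 := by
      have h2 : Φ.mulVec V (l, i) = ∑ p, Φ (l, i) p * V p := rfl
      rw [h2, map_sum]
      refine Finset.sum_eq_zero fun p _ => ?_
      rw [map_mul, hV, mul_zero]
    have h3 : MvPolynomial.eval s (P' (l, i)) = P l i := MvPolynomial.eval_C _
    simp only [G', map_mul, map_sub, h1, h3, MvPolynomial.eval_C, sub_zero]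
    field_simp
  · intro κ
    have hker : M'.mulVec G' = 0 := by
      have h1 : G' = (MvPolynomial.C (MvPolynomial.eval s D)⁻¹ : MvPolynomial τ Q) • (D • P' - Φ.mulVec V) := by
        funext q
        simp [G']
      rw [h1, Matrix.mulVec_smul, Matrix.mulVec_sub, Matrix.mulVec_smul]
      have h2 : M'.mulVec (Φ.mulVec V) = D • M'.mulVec P' := by
        have h3 : M'.mulVec (Φ.mulVec V) = (M' * Φ * M').mulVec P' := by
          simp only [V, Matrix.mulVec_mulVec, Matrix.mul_assoc]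
        rw [h3, hΦ, Matrix.smul_mulVec]
      rw [h2, sub_self, smul_zero]
    apply pr_zero (b := b)
    intro μ
    rw [pr_sum]
    have h4 : ∀ l, (∑ i, MvPolynomial.C (ξ i) * MvPolynomial.map (algebraMap Q ℂ) (G' (l, i))) * M κ l =
        ∑ i, (M κ l * MvPolynomial.C (ξ i)) * MvPolynomial.map (algebraMap Q ℂ) (G' (l, i)) := by
      intro l
      rw [Finset.sum_mul]
      refine Finset.sum_congr rfl fun i _ => ?_
      ring
    have h5 : ∀ l, pr b μ ((∑ i, MvPolynomial.C (ξ i) * MvPolynomial.map (algebraMap Q ℂ) (G' (l, i))) * M κ l) =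
        ∑ i, pr b μ (M κ l * MvPolynomial.C (ξ i)) * G' (l, i) := by
      intro l
      rw [h4, pr_sum]
      exact Finset.sum_congr rfl fun i _ => pr_mul b μ _ _
    simp only [h5]
    by_cases hμ : μ ∈ J'
    · have h6 := congrFun hker (κ, ⟨μ, hμ⟩)
      rw [Matrix.mulVec, dotProduct, Fintype.sum_prod_type] at h6
      exact h6
    · refine Finset.sum_eq_zero fun l _ => Finset.sum_eq_zero fun i _ => ?_
      rw [hJ' κ l i μ hμ, zero_mul]

end Pool.Agent.Y890.SP
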