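import Mathlib

/-!
# Saturated modules of vectors of polynomials that are stable under differentiation
-/

set_option autoImplicit false

open MvPolynomial
open scoped MonomialOrder

namespace Pool.Agent.Y890.SP

variable {τ Q : Type} [Field Q] [CharZero Q]

theorem coeff_euler (j : τ) (u : MvPolynomial τ Q) (δ : τ →₀ ℕ) :
    (X j * pderiv j u).coeff δ = δ j * u.coeff δ := by
  classical
  rw [coeff_X_mul']
  split_ifs with h
  · rw [coeff_pderiv]
    have h1 : δ j ≠ 0 := Finsupp.mem_support_iff.1 h
    have h2 : δ - Finsupp.single j 1 + Finsupp.single j 1 = δ := by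
      ext i
      simp only [Finsupp.coe_add, Finsupp.coe_tsub, Pi.add_apply, Pi.sub_apply]
      rcases eq_or_ne i j with rfl | hne
      · simp only [Finsupp.single_eq_same]
        omega
      · rw [Finsupp.single_eq_of_ne (by simpa using hne)]
        omega
    rw [h2]
    have h3 : (((δ - Finsupp.single j 1 : τ →₀ ℕ) j : ℕ) : Q) + 1 = (δ j : Q) := by
      have : (δ - Finsupp.single j 1 : τ →₀ ℕ) j + 1 = δ j := by
        simp only [Finsupp.coe_tsub, Pi.sub_apply, Finsupp.single_eq_same]
        omega
      exact_mod_cast this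
    rw [h3]
    ring
  · have h1 : δ j = 0 := by simpa using h
    simp [h1]

theorem degree_euler (m : MonomialOrder τ) (j : τ) (u : MvPolynomial τ Q) :
    m.degree (X j * pderiv j u) ≼[m] m.degree u := by
  rw [m.degree_le_iff]
  intro c hc
  apply m.le_degree
  rw [mem_support_iff] at hc ⊢
  intro h
  rw [coeff_euler, h, mul_zero] at hc
  exact hc rfl

theorem degree_eq_of (m : MonomialOrder τ) {a u : MvPolynomial τ Q} (ha : a ≠ 0) (hu : u ≠ 0)
    (h : ∀ j, a * pderiv j u = u * pderiv j a) : m.degree u = m.degree a := by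
  ext j
  have h1 : a * (X j * pderiv j u) = u * (X j * pderiv j a) := by
    have := h j
    calc a * (X j * pderiv j u) = X j * (a * pderiv j u) := by ring
      _ = X j * (u * pderiv j a) := by rw [this]
      _ = _ := by ring
  have h2 := congrArg (coeff (m.degree a + m.degree u)) h1
  rw [m.coeff_mul_of_add_of_degree_le le_rfl (degree_euler m j u), add_comm (m.degree a),
    m.coeff_mul_of_add_of_degree_le le_rfl (degree_euler m j a), coeff_euler, coeff_euler] at h2
  have ha' : a.coeff (m.degree a) ≠ 0 := m.coeff_degree_ne_zero_iff.2 ha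
  have hu' : u.coeff (m.degree u) ≠ 0 := m.coeff_degree_ne_zero_iff.2 hu
  have h3 : ((m.degree u j : ℕ) : Q) = ((m.degree a j : ℕ) : Q) := by
    have h4 : (a.coeff (m.degree a) * u.coeff (m.degree u)) * ((m.degree u j : ℕ) : Q) =
        (a.coeff (m.degree a) * u.coeff (m.degree u)) * ((m.degree a j : ℕ) : Q) := by
      linear_combination h2
    exact mul_left_cancel₀ (mul_ne_zero ha' hu') h4
  exact_mod_cast h3

/-- if all partial derivatives of `u / a` vanish, then `u / a` is constant -/
theorem const_of (m : MonomialOrder τ) {a u : MvPolynomial τ Q} (ha : a ≠ 0)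
    (h : ∀ j, a * pderiv j u = u * pderiv j a) : ∃ c : Q, u = C c * a := by
  by_cases hu : u = 0
  · exact ⟨0, by simp [hu]⟩
  have hd := degree_eq_of m ha hu h
  set ca := a.coeff (m.degree a) with hca
  set cu := u.coeff (m.degree a) with hcu
  have ha' : ca ≠ 0 := m.coeff_degree_ne_zero_iff.2 ha
  set v := C ca * u - C cu * a with hv
  have hv0 : v = 0 := by
    by_contra hne
    have h1 : ∀ j, a * pderiv j v = v * pderiv j a := by
      intro j
      rw [hv, map_sub, pderiv_C_mul, pderiv_C_mul]
      linear_combination C ca * h j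
    have h2 := degree_eq_of m ha hne h1
    have h3 : v.coeff (m.degree v) ≠ 0 := m.coeff_degree_ne_zero_iff.2 hne
    apply h3
    rw [h2, hv, coeff_sub, coeff_C_mul, coeff_C_mul, ← hca, ← hcu]
    ring
  refine ⟨ca⁻¹ * cu, ?_⟩
  have h4 : C ca * u = C cu * a := sub_eq_zero.1 hv0
  calc u = C ca⁻¹ * (C ca * u) := by
        rw [← mul_assoc, ← C_mul, inv_mul_cancel₀ ha', C_1, one_mul]
    _ = C (ca⁻¹ * cu) * a := by rw [h4, C_mul]; ring

/-- the values of the elements of a saturated differential module are, as constant vectors, in the module -/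
theorem spec_const (m : MonomialOrder τ) {r : Type} [Fintype r] [DecidableEq r]
    (P : Submodule (MvPolynomial τ Q) (r → MvPolynomial τ Q))
    (hsat : ∀ q : MvPolynomial τ Q, q ≠ 0 → ∀ W : r → MvPolynomial τ Q, q • W ∈ P → W ∈ P)
    (hD : ∀ j, ∀ W ∈ P, (fun ρ => pderiv j (W ρ)) ∈ P) :
    ∀ W ∈ P, ∀ s : τ → Q, (fun ρ => (C (eval s (W ρ)) : MvPolynomial τ Q)) ∈ P := by
  classical
  have key : ∀ S : Finset r, ∀ W ∈ P, (∀ ρ, ρ ∉ S → W ρ = 0) → ∀ s : τ → Q,
      (fun ρ => (C (eval s (W ρ)) : MvPolynomial τ Q)) ∈ P := by
    intro S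
    induction S using Finset.strongInduction with
    | H S ih =>
      intro W hW hWS s
      by_cases hex : ∃ W₀ ∈ P, W₀ ≠ 0 ∧ ∀ ρ, ρ ∉ S → W₀ ρ = 0
      · -- an element of minimal support
        let good : ℕ → Prop := fun k => ∃ W₀ ∈ P, W₀ ≠ 0 ∧ (∀ ρ, ρ ∉ S → W₀ ρ = 0) ∧
          (Finset.univ.filter fun ρ => W₀ ρ ≠ 0).card = k
        have hgood : ∃ k, good k := by
          obtain ⟨W₀, h1, h2, h3⟩ := hex
          exact ⟨_, W₀, h1, h2, h3, rfl⟩
        obtain ⟨W₀, h1, h2, h3, h4⟩ := Nat.find_spec hgood
        obtain ⟨i0, hi0⟩ := Function.ne_iff.1 h2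
        have hi0 : W₀ i0 ≠ 0 := hi0
        set a := W₀ i0 with ha
        have hZ : ∀ j, a • (fun ρ => pderiv j (W₀ ρ)) - pderiv j a • W₀ = 0 := by
          intro j
          by_contra hne
          have hmem : a • (fun ρ => pderiv j (W₀ ρ)) - pderiv j a • W₀ ∈ P :=
            P.sub_mem (P.smul_mem _ (hD j _ h1)) (P.smul_mem _ h1)
          have hzero : ∀ ρ, W₀ ρ = 0 → (a • (fun ρ => pderiv j (W₀ ρ)) - pderiv j a • W₀) ρ = 0 := by
            intro ρ hρ
            simp [hρ]
          have hlt : (Finset.univ.filter fun ρ => (a • (fun ρ => pderiv j (W₀ ρ)) - pderiv j a • W₀) ρ ≠ 0).card <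
              Nat.find hgood := by
            rw [← h4]
            apply Finset.card_lt_card
            rw [Finset.ssubset_iff_of_subset]
            · refine ⟨i0, Finset.mem_filter.2 ⟨Finset.mem_univ _, hi0⟩, ?_⟩
              rw [Finset.mem_filter]
              push Not
              intro _
              simp only [Pi.sub_apply, Pi.smul_apply, smul_eq_mul]
              rw [← ha]
              ring
            · intro ρ hρ
              rw [Finset.mem_filter] at hρ ⊢
              exact ⟨Finset.mem_univ _, fun h => hρ.2 (hzero ρ h)⟩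
          refine Nat.find_min hgood hlt ⟨_, hmem, hne, ?_, rfl⟩
          intro ρ hρ
          exact hzero ρ (h3 ρ hρ)
        have hc : ∀ ρ, ∃ c : Q, W₀ ρ = C c * a := by
          intro ρ
          apply const_of m hi0
          intro j
          have := congrFun (hZ j) ρ
          simp only [Pi.sub_apply, Pi.smul_apply, smul_eq_mul, Pi.zero_apply] at this
          linear_combination this
        choose c hc using hc
        have hcP : (fun ρ => (C (c ρ) : MvPolynomial τ Q)) ∈ P := by
          apply hsat a hi0
          have : a • (fun ρ => (C (c ρ) : MvPolynomial τ Q)) = W₀ := by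
            funext ρ
            rw [Pi.smul_apply, smul_eq_mul, hc ρ, mul_comm]
          rw [this]
          exact h1
        have hc0 : c i0 = 1 := by
          have h5 := hc i0
          rw [← ha] at h5
          have h6 : (C (c i0) - 1) * a = 0 := by linear_combination -h5
          have h7 := (mul_eq_zero.1 h6).resolve_right hi0
          have h8 : (C (c i0) : MvPolynomial τ Q) = C 1 := by
            rw [C_1]
            exact sub_eq_zero.1 h7
          exact C_injective _ _ h8
        have hi0S : i0 ∈ S := by
          by_contra hn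
          exact hi0 (h3 i0 hn)
        have hcS : ∀ ρ, ρ ∉ S → c ρ = 0 := by
          intro ρ hρ
          have h5 := hc ρ
          rw [h3 ρ hρ] at h5
          have h6 := (mul_eq_zero.1 h5.symm).resolve_right hi0
          exact C_injective τ Q (by rw [h6, C_0])
        have hW' : W - W i0 • (fun ρ => (C (c ρ) : MvPolynomial τ Q)) ∈ P :=
          P.sub_mem hW (P.smul_mem _ hcP)
        have h9 := ih (S.erase i0) (Finset.erase_ssubset hi0S) _ hW' (by
          intro ρ hρ
          rw [Finset.mem_erase, not_and_or] at hρ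
          simp only [Pi.sub_apply, Pi.smul_apply, smul_eq_mul]
          rcases hρ with hρ | hρ
          · have : ρ = i0 := by simpa using hρ
            rw [this, hc0, C_1, mul_one, sub_self]
          · rw [hWS ρ hρ, hcS ρ hρ]
            simp) s
        have h10 : (fun ρ => (C (eval s (W ρ)) : MvPolynomial τ Q)) =
            (fun ρ => (C (eval s ((W - W i0 • (fun ρ => (C (c ρ) : MvPolynomial τ Q))) ρ)) : MvPolynomial τ Q)) +
              (C (eval s (W i0)) : MvPolynomial τ Q) • (fun ρ => (C (c ρ) : MvPolynomial τ Q)) := by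
          funext ρ
          simp
        rw [h10]
        exact P.add_mem h9 (P.smul_mem _ hcP)
      · have hW0 : W = 0 := by
          by_contra hne
          exact hex ⟨W, hW, hne, hWS⟩
        have : (fun ρ => (C (eval s (W ρ)) : MvPolynomial τ Q)) = 0 := by
          funext ρ
          simp [hW0]
        rw [this]
        exact P.zero_mem
  intro W hW s
  exact key Finset.univ W hW (fun ρ hρ => absurd (Finset.mem_univ ρ) hρ) s

end Pool.Agent.Y890.SP
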