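import Pool.Agent.Y890.SP.Sys
import Pool.Agent.Y890.SP.Stab

/-!
# De Rham–Betti classes: pairs of vectors exchanged by a matrix of functions
-/

set_option autoImplicit false
set_option linter.unusedSectionVars false

open Polynomial NumberField Filter Topology

namespace Pool.Agent.Y890.SP

section
variable {n : ℕ} {σ h r : Type} [Fintype σ] [DecidableEq σ] [Fintype h] [Fintype r]

/-- a matrix whose entries are polynomials in the functions, of partial degrees at most `δ` -/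
noncomputable def TT {δ : ℕ} (f : Fin (n + 1) → σ → ℂ → ℂ) (Ξ : r → h → (Fin (n + 1) → σ → Fin (δ + 1)) → ℂ)
    (x : Fin (n + 1) → ℂ) (ρ : r) (i : h) : ℂ :=
  ∑ l, Ξ ρ i l * ∏ j, ∏ y, f j y (x j) ^ (l j y : ℕ)

/-- the matrix `TT` satisfies linear differential equations over the rational functions with algebraic coefficients:
`b ∂TT/∂x_j = TT * B` with a polynomial `b ≠ 0` and a matrix `B` of polynomials, for every `j` -/
def DiffEq {δ : ℕ} (U : Fin (n + 1) → Set ℂ) (f : Fin (n + 1) → σ → ℂ → ℂ)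
    (Ξ : r → h → (Fin (n + 1) → σ → Fin (δ + 1)) → ℂ) : Prop :=
  ∀ j, ∃ (b : MvPolynomial (Fin (n + 1)) Qbar) (B : h → h → MvPolynomial (Fin (n + 1)) Qbar), b ≠ 0 ∧
    ∀ x : Fin (n + 1) → ℂ, (∀ j, x j ∈ U j) → ∀ ρ i,
      MvPolynomial.aeval x b * deriv (fun t => TT f Ξ (Function.update x j t) ρ i) (x j) =
        ∑ k, TT f Ξ x ρ k * MvPolynomial.aeval x (B k i)

/-- the constant vector `w` is the Betti component of a global section: `TT * V = θ q w` on the whole domain for some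
vector `V` of polynomials with algebraic coefficients and some such polynomial `q ≠ 0` -/
def Global {δ : ℕ} (U : Fin (n + 1) → Set ℂ) (f : Fin (n + 1) → σ → ℂ → ℂ)
    (Ξ : r → h → (Fin (n + 1) → σ → Fin (δ + 1)) → ℂ) (θ : ℂ) (w : r → ℂ) : Prop :=
  ∃ (q : MvPolynomial (Fin (n + 1)) Qbar) (V : h → MvPolynomial (Fin (n + 1)) Qbar), q ≠ 0 ∧
    ∀ x : Fin (n + 1) → ℂ, (∀ j, x j ∈ U j) → ∀ ρ,
      ∑ i, TT f Ξ x ρ i * MvPolynomial.aeval x (V i) = θ * MvPolynomial.aeval x q * w ρ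

theorem hasDerivAt_aeval (x : Fin (n + 1) → ℂ) (j : Fin (n + 1)) (p : MvPolynomial (Fin (n + 1)) Qbar) :
    HasDerivAt (fun t => MvPolynomial.aeval (Function.update x j t) p)
      (MvPolynomial.aeval x (MvPolynomial.pderiv j p)) (x j) := by
  classical
  induction p using MvPolynomial.induction_on with
  | C a =>
    simp only [MvPolynomial.aeval_C, MvPolynomial.pderiv_C, map_zero]
    exact hasDerivAt_const _ _
  | add p q hp hq =>
    simp only [map_add]
    exact hp.add hq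
  | mul_X p i hp =>
    have h1 : HasDerivAt (fun t => Function.update x j t i) (if i = j then 1 else 0) (x j) := by
      by_cases hi : i = j
      · subst hi
        simp only [Function.update_self, if_true]
        exact hasDerivAt_id _
      · simp only [Function.update_of_ne hi, if_neg hi]
        exact hasDerivAt_const _ _
    have h2 := hp.mul h1
    have h3 : (fun t => MvPolynomial.aeval (Function.update x j t) (p * MvPolynomial.X i)) =
        (fun t => MvPolynomial.aeval (Function.update x j t) p) * (fun t => Function.update x j t i) := by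
      funext t
      simp
    rw [h3]
    refine h2.congr_deriv ?_
    rw [MvPolynomial.pderiv_mul, MvPolynomial.pderiv_X]
    simp only [Function.update_eq_self, map_add, map_mul, MvPolynomial.aeval_X]
    congr 1
    by_cases hi : i = j
    · subst hi
      simp
    · rw [if_neg hi, Pi.single_eq_of_ne hi 1]
      simp

theorem diff_TT {δ : ℕ} {U : Fin (n + 1) → Set ℂ} {f : Fin (n + 1) → σ → ℂ → ℂ}
    (hf : ∀ j i, AnalyticOnNhd ℂ (f j i) (U j)) (Ξ : r → h → (Fin (n + 1) → σ → Fin (δ + 1)) → ℂ)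
    (x : Fin (n + 1) → ℂ) (hx : ∀ j, x j ∈ U j) (j : Fin (n + 1)) (ρ : r) (i : h) :
    DifferentiableAt ℂ (fun t => TT f Ξ (Function.update x j t) ρ i) (x j) := by
  classical
  simp only [TT]
  refine DifferentiableAt.fun_sum fun l _ => ?_
  refine DifferentiableAt.const_mul ?_ _
  refine DifferentiableAt.fun_finsetProd fun j' _ => ?_
  refine DifferentiableAt.fun_finsetProd fun y _ => ?_
  refine DifferentiableAt.fun_pow ?_ _
  by_cases hj : j' = j
  · subst hj
    simp only [Function.update_self]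
    exact (hf j' y (x j') (hx j')).differentiableAt
  · simp only [Function.update_of_ne hj]
    exact differentiableAt_const _

/-- the Betti components of the global sections with polynomial coefficients -/
noncomputable def glob {δ : ℕ} (U : Fin (n + 1) → Set ℂ) (f : Fin (n + 1) → σ → ℂ → ℂ)
    (Ξ : r → h → (Fin (n + 1) → σ → Fin (δ + 1)) → ℂ) (θ : ℂ) :
    Submodule (MvPolynomial (Fin (n + 1)) Qbar) (r → MvPolynomial (Fin (n + 1)) Qbar) where
  carrier := {W | ∃ (q : MvPolynomial (Fin (n + 1)) Qbar) (V : h → MvPolynomial (Fin (n + 1)) Qbar), q ≠ 0 ∧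
    ∀ x : Fin (n + 1) → ℂ, (∀ j, x j ∈ U j) → ∀ ρ,
      ∑ i, TT f Ξ x ρ i * MvPolynomial.aeval x (V i) = θ * MvPolynomial.aeval x (q * W ρ)}
  zero_mem' := ⟨1, 0, one_ne_zero, fun x _ ρ => by simp⟩
  add_mem' := by
    rintro W W' ⟨q, V, hq, hV⟩ ⟨q', V', hq', hV'⟩
    refine ⟨q * q', fun i => q' * V i + q * V' i, mul_ne_zero hq hq', fun x hx ρ => ?_⟩
    have h1 := hV x hx ρ
    have h2 := hV' x hx ρ
    have h3 : ∑ i, TT f Ξ x ρ i * MvPolynomial.aeval x (q' * V i + q * V' i) =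
        MvPolynomial.aeval x q' * ∑ i, TT f Ξ x ρ i * MvPolynomial.aeval x (V i) +
          MvPolynomial.aeval x q * ∑ i, TT f Ξ x ρ i * MvPolynomial.aeval x (V' i) := by
      rw [Finset.mul_sum, Finset.mul_sum, ← Finset.sum_add_distrib]
      refine Finset.sum_congr rfl fun i _ => ?_
      rw [map_add, map_mul, map_mul]
      ring
    rw [h3, h1, h2]
    simp only [Pi.add_apply, map_mul, map_add]
    ring
  smul_mem' := by
    rintro c W ⟨q, V, hq, hV⟩
    refine ⟨q, fun i => c * V i, hq, fun x hx ρ => ?_⟩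
    have h1 := hV x hx ρ
    have h3 : ∑ i, TT f Ξ x ρ i * MvPolynomial.aeval x (c * V i) =
        MvPolynomial.aeval x c * ∑ i, TT f Ξ x ρ i * MvPolynomial.aeval x (V i) := by
      rw [Finset.mul_sum]
      refine Finset.sum_congr rfl fun i _ => ?_
      rw [map_mul]
      ring
    rw [h3, h1]
    simp only [Pi.smul_apply, smul_eq_mul, map_mul]
    ring

theorem mem_glob {δ : ℕ} {U : Fin (n + 1) → Set ℂ} {f : Fin (n + 1) → σ → ℂ → ℂ}
    {Ξ : r → h → (Fin (n + 1) → σ → Fin (δ + 1)) → ℂ} {θ : ℂ} {W : r → MvPolynomial (Fin (n + 1)) Qbar} :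
    W ∈ glob U f Ξ θ ↔ ∃ (q : MvPolynomial (Fin (n + 1)) Qbar) (V : h → MvPolynomial (Fin (n + 1)) Qbar), q ≠ 0 ∧
    ∀ x : Fin (n + 1) → ℂ, (∀ j, x j ∈ U j) → ∀ ρ,
      ∑ i, TT f Ξ x ρ i * MvPolynomial.aeval x (V i) = θ * MvPolynomial.aeval x (q * W ρ) := Iff.rfl

theorem glob_sat {δ : ℕ} {U : Fin (n + 1) → Set ℂ} {f : Fin (n + 1) → σ → ℂ → ℂ}
    {Ξ : r → h → (Fin (n + 1) → σ → Fin (δ + 1)) → ℂ} {θ : ℂ} (q : MvPolynomial (Fin (n + 1)) Qbar) (hq : q ≠ 0)
    (W : r → MvPolynomial (Fin (n + 1)) Qbar) (hW : q • W ∈ glob U f Ξ θ) : W ∈ glob U f Ξ θ := by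
  obtain ⟨q', V, hq', hV⟩ := mem_glob.1 hW
  refine mem_glob.2 ⟨q' * q, V, mul_ne_zero hq' hq, fun x hx ρ => ?_⟩
  rw [hV x hx ρ]
  simp only [Pi.smul_apply, smul_eq_mul, mul_assoc]

theorem glob_deriv {δ : ℕ} {U : Fin (n + 1) → Set ℂ} (hUo : ∀ j, IsOpen (U j)) {f : Fin (n + 1) → σ → ℂ → ℂ}
    (hf : ∀ j i, AnalyticOnNhd ℂ (f j i) (U j)) {Ξ : r → h → (Fin (n + 1) → σ → Fin (δ + 1)) → ℂ}
    (hB : DiffEq U f Ξ) {θ : ℂ} (j : Fin (n + 1)) (W : r → MvPolynomial (Fin (n + 1)) Qbar)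
    (hW : W ∈ glob U f Ξ θ) : (fun ρ => MvPolynomial.pderiv j (W ρ)) ∈ glob U f Ξ θ := by
  classical
  obtain ⟨q, V, hq, hV⟩ := mem_glob.1 hW
  obtain ⟨b, B, hb, hBB⟩ := hB j
  refine mem_glob.2 ⟨b * q ^ 2, fun k => q * (∑ i, B k i * V i + b * MvPolynomial.pderiv j (V k)) -
    b * MvPolynomial.pderiv j q * V k, mul_ne_zero hb (pow_ne_zero 2 hq), fun x hx ρ => ?_⟩
  -- the derivative of the identity
  have hder : ∑ i, (deriv (fun t => TT f Ξ (Function.update x j t) ρ i) (x j) * MvPolynomial.aeval x (V i) +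
      TT f Ξ x ρ i * MvPolynomial.aeval x (MvPolynomial.pderiv j (V i))) =
      θ * MvPolynomial.aeval x (MvPolynomial.pderiv j (q * W ρ)) := by
    have h1 : HasDerivAt (fun t => ∑ i, TT f Ξ (Function.update x j t) ρ i *
        MvPolynomial.aeval (Function.update x j t) (V i))
        (∑ i, (deriv (fun t => TT f Ξ (Function.update x j t) ρ i) (x j) * MvPolynomial.aeval x (V i) +
          TT f Ξ x ρ i * MvPolynomial.aeval x (MvPolynomial.pderiv j (V i)))) (x j) := by
      refine HasDerivAt.fun_sum fun i _ => ?_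
      have h2 := (diff_TT hf Ξ x hx j ρ i).hasDerivAt.fun_mul (hasDerivAt_aeval x j (V i))
      simpa only [Function.update_eq_self] using h2
    have h2 : HasDerivAt (fun t => θ * MvPolynomial.aeval (Function.update x j t) (q * W ρ))
        (θ * MvPolynomial.aeval x (MvPolynomial.pderiv j (q * W ρ))) (x j) :=
      (hasDerivAt_aeval x j (q * W ρ)).const_mul θ
    have h3 : (fun t => ∑ i, TT f Ξ (Function.update x j t) ρ i *
        MvPolynomial.aeval (Function.update x j t) (V i)) =ᶠ[𝓝 (x j)]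
        fun t => θ * MvPolynomial.aeval (Function.update x j t) (q * W ρ) := by
      filter_upwards [(hUo j).mem_nhds (hx j)] with t ht
      apply hV
      intro j'
      by_cases hj : j' = j
      · subst hj
        simpa using ht
      · rw [Function.update_of_ne hj]
        exact hx j'
    exact (h1.unique (h2.congr_of_eventuallyEq h3))
  have h0 := hV x hx ρ
  have hmul := congrArg (fun z => MvPolynomial.aeval x b * z) hder
  simp only [Finset.mul_sum] at hmul
  have h4 : ∑ i, MvPolynomial.aeval x b * (deriv (fun t => TT f Ξ (Function.update x j t) ρ i) (x j) *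
      MvPolynomial.aeval x (V i) + TT f Ξ x ρ i * MvPolynomial.aeval x (MvPolynomial.pderiv j (V i))) =
      ∑ k, TT f Ξ x ρ k * MvPolynomial.aeval x (∑ i, B k i * V i + b * MvPolynomial.pderiv j (V k)) := by
    have h5 : ∀ i, MvPolynomial.aeval x b * (deriv (fun t => TT f Ξ (Function.update x j t) ρ i) (x j) *
        MvPolynomial.aeval x (V i) + TT f Ξ x ρ i * MvPolynomial.aeval x (MvPolynomial.pderiv j (V i))) =
        (∑ k, TT f Ξ x ρ k * MvPolynomial.aeval x (B k i)) * MvPolynomial.aeval x (V i) +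
          TT f Ξ x ρ i * (MvPolynomial.aeval x b * MvPolynomial.aeval x (MvPolynomial.pderiv j (V i))) := by
      intro i
      rw [← hBB x hx ρ i]
      ring
    simp only [h5, Finset.sum_add_distrib, Finset.sum_mul]
    rw [Finset.sum_comm, ← Finset.sum_add_distrib]
    refine Finset.sum_congr rfl fun k _ => ?_
    rw [map_add, map_sum, map_mul, mul_add, Finset.mul_sum]
    congr 1
    refine Finset.sum_congr rfl fun i _ => ?_
    rw [map_mul]
    ring
  rw [h4] at hmul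
  have h6 : ∑ i, TT f Ξ x ρ i * MvPolynomial.aeval x (q * (∑ i', B i i' * V i' + b * MvPolynomial.pderiv j (V i)) -
      b * MvPolynomial.pderiv j q * V i) =
      MvPolynomial.aeval x q * ∑ k, TT f Ξ x ρ k *
        MvPolynomial.aeval x (∑ i, B k i * V i + b * MvPolynomial.pderiv j (V k)) -
      MvPolynomial.aeval x (b * MvPolynomial.pderiv j q) * ∑ i, TT f Ξ x ρ i * MvPolynomial.aeval x (V i) := by
    rw [Finset.mul_sum, Finset.mul_sum, ← Finset.sum_sub_distrib]
    refine Finset.sum_congr rfl fun i _ => ?_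
    rw [map_sub, map_mul, map_mul (MvPolynomial.aeval x) (b * MvPolynomial.pderiv j q)]
    ring
  rw [h6, hmul, h0, MvPolynomial.pderiv_mul]
  simp only [map_mul, map_add, map_pow]
  ring

end

/-- the tuples of points at which there is a de Rham–Betti class of bounded size, `TT * v = θ w` with integral vectors
`v` and `w` of size at most `T ^ A`, whose Betti component `w` is not the Betti component of a global section -/
def ExcD {n : ℕ} {σ h r : Type} [Fintype σ] [DecidableEq σ] [Fintype h] [Fintype r] {δ : ℕ}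
    (U : Fin (n + 1) → Set ℂ) (f : Fin (n + 1) → σ → ℂ → ℂ) (Lc : Fin (n + 1) → Set ℂ) (K : Type) [Field K]
    [NumberField K] (io : K →+* ℂ) (Ξ : r → h → (Fin (n + 1) → σ → Fin (δ + 1)) → ℂ) (θ : ℂ) (A T : ℝ) :
    Set (Fin (n + 1) → K) :=
  {s | (∀ j, Y120.HtLe K T (s j) ∧ io (s j) ∈ Lc j) ∧ ∃ (v : h → 𝓞 K) (w : r → 𝓞 K),
    (∀ i (φ : K →+* ℂ), ‖φ (v i : K)‖ ≤ T ^ A) ∧ (∀ ρ (φ : K →+* ℂ), ‖φ (w ρ : K)‖ ≤ T ^ A) ∧
    (∀ ρ, ∑ i, TT f Ξ (fun j => io (s j)) ρ i * io (v i : K) = θ * io (w ρ : K)) ∧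
    ¬ Global U f Ξ θ (fun ρ => io (w ρ : K))}

theorem excD_bound {n : ℕ} {σ : Type} [Fintype σ] [DecidableEq σ] {U : Fin (n + 1) → Set ℂ}
    {f : Fin (n + 1) → σ → ℂ → ℂ} (hU : ∀ j, IsPreconnected (U j)) (hUo : ∀ j, IsOpen (U j))
    (hne : ∀ j, (U j).Nonempty) (hf : ∀ j i, AnalyticOnNhd ℂ (f j i) (U j)) (hreg : ∀ j, Regular (U j) (f j))
    (Lc : Fin (n + 1) → Set ℂ) (hLc : ∀ j, IsCompact (Lc j)) (hLU : ∀ j, Lc j ⊆ U j) (δ : ℕ) (h r : Type) [Fintype h]
    [DecidableEq h] [Fintype r] [DecidableEq r] (m : ℕ) (A ε : ℝ) (hε : 0 < ε) : ∃ C T₀ : ℝ, 0 ≤ C ∧ 2 ≤ T₀ ∧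
      ∀ (Ξ : r → h → (Fin (n + 1) → σ → Fin (δ + 1)) → ℂ) (θ : ℂ), DiffEq U f Ξ →
        ∀ (K : Type) [Field K] [NumberField K], Module.finrank ℚ K ≤ m → ∀ (io : K →+* ℂ) (T : ℝ),
        T₀ ≤ T → (ExcD U f Lc K io Ξ θ A T).Finite ∧
          ((ExcD U f Lc K io Ξ θ A T).ncard : ℝ) ≤ C * T ^ ε * ({x : K | Y120.HtLe K T x}.ncard : ℝ) ^ n := by
  classical
  obtain ⟨C, T₀, hC, hT₀, H⟩ := excS_bound hU hUo hne hf hreg Lc hLc hLU δ (h ⊕ r) r m A ε hε
  refine ⟨C, T₀, hC, hT₀, fun Ξ θ hB K _ _ hK io T hT => ?_⟩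
  let Ξ' : r → (Fin (n + 1) → σ → Fin (δ + 1)) → h ⊕ r → ℂ := fun ρ l =>
    Sum.elim (fun i => Ξ ρ i l) (fun ρ' => if l = 0 ∧ ρ' = ρ then -θ else 0)
  obtain ⟨hfin, hcard⟩ := H K hK io Ξ' T hT
  have hSys : ∀ (x : Fin (n + 1) → ℂ) (c : h ⊕ r → ℂ) (ρ : r),
      ∑ l, (∑ i, Ξ' ρ l i * c i) * ∏ j, ∏ y, f j y (x j) ^ (l j y : ℕ) =
        ∑ i, TT f Ξ x ρ i * c (Sum.inl i) - θ * c (Sum.inr ρ) := by
    intro x c ρ
    have h1 : ∀ l : Fin (n + 1) → σ → Fin (δ + 1), (∑ i, Ξ' ρ l i * c i) * ∏ j, ∏ y, f j y (x j) ^ (l j y : ℕ) =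
        ∑ i, Ξ ρ i l * c (Sum.inl i) * (∏ j, ∏ y, f j y (x j) ^ (l j y : ℕ)) +
          (if l = 0 then -θ * c (Sum.inr ρ) else 0) := by
      intro l
      rw [Fintype.sum_sum_type, add_mul, Finset.sum_mul]
      congr 1
      by_cases hl : l = 0
      · subst hl
        simp [Ξ']
      · simp [Ξ', hl]
    simp only [h1]
    rw [Finset.sum_add_distrib, Finset.sum_comm]
    simp only [Finset.sum_ite_eq', Finset.mem_univ, if_true]
    rw [neg_mul, ← sub_eq_add_neg]
    congr 1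
    refine Finset.sum_congr rfl fun i _ => ?_
    rw [TT, Finset.sum_mul]
    refine Finset.sum_congr rfl fun l _ => ?_
    ring
  have hsub : ExcD U f Lc K io Ξ θ A T ⊆ ExcS U f Lc K io Ξ' A T := by
    rintro s ⟨h1, v, w, h2, h3, h4, h5⟩
    refine ⟨h1, Sum.elim v w, ?_, ?_, ?_⟩
    · rintro (i | ρ) φ
      · exact h2 i φ
      · exact h3 ρ φ
    · intro ρ
      rw [hSys]
      simp only [Sum.elim_inl, Sum.elim_inr]
      rw [h4 ρ, sub_self]
    · rintro ⟨G, hG1, hG2⟩
      apply h5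
      have hW : (fun ρ => G (Sum.inr ρ)) ∈ glob U f Ξ θ := by
        refine mem_glob.2 ⟨1, fun i => G (Sum.inl i), one_ne_zero, fun x hx ρ => ?_⟩
        have h6 := hG2 x hx ρ
        rw [hSys] at h6
        rw [one_mul]
        exact sub_eq_zero.1 h6
      have h7 := spec_const (MonomialOrder.lex) (glob U f Ξ θ) (fun q hq W => glob_sat q hq W)
        (fun j W hW => glob_deriv hUo hf hB j W hW) _ hW (fun j => ioQ io (s j))
      obtain ⟨q, V, hq, hV⟩ := mem_glob.1 h7
      refine ⟨q, V, hq, fun x hx ρ => ?_⟩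
      rw [hV x hx ρ, map_mul, MvPolynomial.aeval_C]
      have h8 : algebraMap Qbar ℂ (MvPolynomial.eval (fun j => ioQ io (s j)) (G (Sum.inr ρ))) = io (w ρ : K) := by
        have h9 := hG1 (Sum.inr ρ)
        rw [Sum.elim_inr] at h9
        rw [← h9, MvPolynomial.aeval_def]
        have h11 := MvPolynomial.eval₂_comp_left (algebraMap Qbar ℂ) (RingHom.id Qbar) (fun j => ioQ io (s j))
          (G (Sum.inr ρ))
        rw [RingHom.comp_id] at h11
        rw [← MvPolynomial.eval₂_id, h11]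
        rfl
      rw [h8]
      ring
  refine ⟨hfin.subset hsub, le_trans ?_ hcard⟩
  exact_mod_cast Set.ncard_le_ncard hsub hfin

end Pool.Agent.Y890.SP
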