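import Pool.Agent.Y890.SP.LD
import Pool.Agent.Y890.SP.BN

/-!
# Generic structure of a regular extension: transcendence basis, primitive element, absolute irreducibility
-/

set_option autoImplicit false
set_option linter.unusedSectionVars false

open Polynomial

namespace Pool.Agent.Y890.SP

/-- values at the chosen coordinates -/
noncomputable abbrev evI {A L I : Type} [CommRing A] [Field L] [Algebra A L] (x : I → L) : MvPolynomial I A →+* L :=
  (MvPolynomial.aeval x : MvPolynomial I A →ₐ[A] L).toRingHom

/-- the data attached to a family -/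
structure Dat (A : Type) [CommRing A] (L : Type) [Field L] [Algebra A L] {σ : Type} (f : σ → L) where
  I : Type
  fin : Fintype I
  dec : DecidableEq I
  ι : I → σ
  m : Polynomial (MvPolynomial I A)
  Θ : MvPolynomial σ A
  ind : AlgebraicIndependent A (f ∘ ι)
  monic : m.Monic
  pos : 0 < m.natDegree
  root : eval₂ (evI (f ∘ ι)) (MvPolynomial.aeval f Θ) m = 0
  gen : ∀ l : L, ∃ (D : MvPolynomial I A) (h : Polynomial (MvPolynomial I A)), D ≠ 0 ∧ h.degree < m.degree ∧
    evI (f ∘ ι) D * l = eval₂ (evI (f ∘ ι)) (MvPolynomial.aeval f Θ) h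
  irr : ∃ D : A, D ≠ 0 ∧ ∀ (F : Type) [Field F] (φ : A →+* F), φ D ≠ 0 →
    Irreducible (m.map (MvPolynomial.map (σ := I) φ))

variable {A L : Type} [CommRing A] [IsDomain A] [Field L] [Algebra A L] [FaithfulSMul A L]

theorem evI_rename {I σ : Type} (f : σ → L) (ι : I → σ) (p : MvPolynomial I A) :
    evI (f ∘ ι) p = MvPolynomial.aeval f (MvPolynomial.rename ι p) := by
  rw [MvPolynomial.aeval_rename]
  rfl

/-- denominators in the chosen coordinates -/
theorem exists_denom {I σ : Type} (f : σ → L) (ι : I → σ)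
    (hfrac : ∀ l : L, ∃ p q : MvPolynomial σ A, MvPolynomial.aeval f q ≠ 0 ∧
      MvPolynomial.aeval f q * l = MvPolynomial.aeval f p)
    (halg : ∀ l : L, ∃ q : Polynomial (MvPolynomial I A), q ≠ 0 ∧ eval₂ (evI (f ∘ ι)) l q = 0)
    (l : L) :
    ∃ (b : MvPolynomial I A) (P : MvPolynomial σ A), b ≠ 0 ∧ evI (f ∘ ι) b * l = MvPolynomial.aeval f P := by
  classical
  let : Algebra (MvPolynomial I A) L := (evI (f ∘ ι)).toAlgebra
  obtain ⟨p, q, hq, hl⟩ := hfrac l
  have h1 : IsAlgebraic (MvPolynomial I A) (MvPolynomial.aeval f q : L) := by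
    obtain ⟨r, hr, hr'⟩ := halg (MvPolynomial.aeval f q)
    exact ⟨r, hr, hr'⟩
  obtain ⟨t, ht, r, hr, hqt⟩ := h1.exists_nonzero_eq_adjoin_mul (mem_nonZeroDivisors_of_ne_zero hq)
  have h2 : ∃ P : MvPolynomial σ A, t = MvPolynomial.aeval f P := by
    refine Algebra.adjoin_induction (p := fun t _ => ∃ P : MvPolynomial σ A, t = MvPolynomial.aeval f P) ?_ ?_ ?_ ?_ ht
    · rintro x hx
      rw [Set.mem_singleton_iff] at hx
      exact ⟨q, hx⟩
    · intro r
      exact ⟨MvPolynomial.rename ι r, evI_rename f ι r⟩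
    · rintro x y _ _ ⟨P, rfl⟩ ⟨Q, rfl⟩
      exact ⟨P + Q, (map_add _ _ _).symm⟩
    · rintro x y _ _ ⟨P, rfl⟩ ⟨Q, rfl⟩
      exact ⟨P * Q, (map_mul _ _ _).symm⟩
  obtain ⟨P, rfl⟩ := h2
  refine ⟨r, P * p, hr, ?_⟩
  rw [map_mul, ← hl]
  have h3 : evI (f ∘ ι) r = MvPolynomial.aeval f q * MvPolynomial.aeval f P := hqt.symm
  rw [h3]
  ring

theorem eval_ne [CharZero A] {k : Type} [Field k] [Algebra A k] [IsFractionRing A k] [Algebra k L] [IsScalarTower A k L]
    [CharZero k]
    {I : Type} [Fintype I] [DecidableEq I] (x : I → L) (θ : L) (e : ℕ)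
    (hmin : ∀ h : Polynomial (MvPolynomial I A), h.degree < e → eval₂ (evI x) θ h = 0 → h = 0)
    (hreg : ∀ a : L, IsAlgebraic k a → a ∈ (algebraMap k L).range)
    {kb Ω : Type} [Field kb] [Algebra k kb] [Algebra.IsAlgebraic k kb] [Field Ω] [Algebra L Ω] [Algebra k Ω]
    [IsScalarTower k L Ω] (j : kb →ₐ[k] Ω) (u : Polynomial (MvPolynomial I kb)) (hu : u.Monic) (hud : u.natDegree < e) :
    eval₂ (MvPolynomial.eval₂Hom (j : kb →+* Ω) fun i => algebraMap L Ω (x i)) (algebraMap L Ω θ) u ≠ 0 := by
  classical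
  intro h0
  set N : ℕ := ∑ i ∈ Finset.range (u.natDegree + 1), (u.coeff i).totalDegree with hN
  have hNle : ∀ i, (u.coeff i).totalDegree ≤ N := by
    intro i
    by_cases hi : i < u.natDegree + 1
    · exact Finset.single_le_sum (f := fun i => (u.coeff i).totalDegree) (fun _ _ => Nat.zero_le _) (Finset.mem_range.2 hi)
    · rw [coeff_eq_zero_of_natDegree_lt (by omega)]
      simp
  let ι' := Fin e × (I → Fin (N + 1))
  let w : ι' → L := fun p => (∏ i, x i ^ (p.2 i : ℕ)) * θ ^ (p.1 : ℕ)
  have hex : ∀ α : I → Fin (N + 1), ∏ i, x i ^ (α i : ℕ) = (ex α).prod fun i e => x i ^ e := by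
    intro α
    rw [Finsupp.prod_fintype _ _ (fun _ => pow_zero _)]
    rfl
  -- independence over `A`
  have hwA : LinearIndependent A w := by
    rw [Fintype.linearIndependent_iff]
    intro g hg
    let h : Polynomial (MvPolynomial I A) := ∑ i : Fin e, C (box fun α : I → Fin (N + 1) => g (i, α)) * X ^ (i : ℕ)
    have hh : h = 0 := by
      apply hmin h (mon_lt e _)
      rw [← hg]
      simp only [h]
      rw [eval₂_finsetSum, Fintype.sum_prod_type]
      refine Finset.sum_congr rfl fun i _ => ?_
      rw [eval₂_mul, eval₂_C, eval₂_X_pow, box, map_sum, Finset.sum_mul]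
      refine Finset.sum_congr rfl fun α _ => ?_
      change MvPolynomial.aeval x (MvPolynomial.monomial (ex α) (g (i, α))) * _ = _
      rw [MvPolynomial.aeval_monomial, Algebra.smul_def, ← hex]
      simp only [w]
      ring
    rintro ⟨i, α⟩
    have h1 := congrArg (fun p => (Polynomial.coeff p (i : ℕ)).coeff (ex α)) hh
    simp only [h, finsetSum_coeff, coeff_C_mul, coeff_X_pow, coeff_zero, MvPolynomial.coeff_zero] at h1
    rw [Finset.sum_eq_single i] at h1
    · simp only [if_true, mul_one, box, MvPolynomial.coeff_sum, MvPolynomial.coeff_monomial] at h1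
      rw [Finset.sum_eq_single α] at h1
      · simpa using h1
      · intro β _ hβ
        rw [if_neg fun hh => hβ (ex_inj hh)]
      · simp
    · intro b _ hb
      rw [if_neg fun hh => hb (Fin.ext hh.symm), mul_zero]
    · simp
  have hwk : LinearIndependent k w := (LinearIndependent.iff_fractionRing (R := A) (K := k)).1 hwA
  let c : ι' → Ω := fun p => j ((u.coeff p.1).coeff (ex p.2))
  have hsum : ∑ p ∈ (Finset.univ : Finset ι'), c p * algebraMap L Ω (w p) = 0 := by
    rw [← h0, Fintype.sum_prod_type]
    have hu1 : u = ∑ i : Fin e, C (u.coeff i) * X ^ (i : ℕ) := by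
      conv_lhs => rw [u.as_sum_range' e hud]
      rw [Finset.sum_range]
      refine Finset.sum_congr rfl fun i _ => ?_
      rw [C_mul_X_pow_eq_monomial]
    conv_rhs => rw [hu1]
    rw [eval₂_finsetSum]
    refine Finset.sum_congr rfl fun i _ => ?_
    rw [eval₂_mul, eval₂_C, eval₂_X_pow]
    conv_rhs => rw [← box_of_le (u.coeff i) (hNle i), box, map_sum, Finset.sum_mul]
    refine Finset.sum_congr rfl fun α _ => ?_
    rw [MvPolynomial.coe_eval₂Hom, MvPolynomial.eval₂_monomial, Finsupp.prod_fintype _ _ (fun _ => pow_zero _)]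
    simp only [c, w, map_mul, map_pow, map_prod]
    rw [mul_assoc]
    rfl
  have hz := ld hreg Finset.univ w hwk c (fun p => (Algebra.IsAlgebraic.isAlgebraic (R := k) _).algHom j) hsum
  have h1 := hz (⟨u.natDegree, hud⟩, fun _ => 0) (Finset.mem_univ _)
  have h2 : (ex fun _ : I => (0 : Fin (N + 1))) = 0 := by
    ext i
    rfl
  simp only [c] at h1
  rw [h2] at h1
  have h3 : u.coeff u.natDegree = 1 := hu
  rw [h3, MvPolynomial.coeff_zero_one, map_one] at h1
  exact one_ne_zero h1

theorem exists_dat [UniqueFactorizationMonoid A] [CharZero A] {σ : Type} [Fintype σ] (f : σ → L)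
    (hfrac : ∀ l : L, ∃ p q : MvPolynomial σ A, MvPolynomial.aeval f q ≠ 0 ∧
      MvPolynomial.aeval f q * l = MvPolynomial.aeval f p)
    (hreg : ∀ a : L, IsAlgebraic A a → ∃ p q : A, q ≠ 0 ∧ algebraMap A L q * a = algebraMap A L p) :
    Nonempty (Dat A L f) := by
  classical
  have hAL : Function.Injective (algebraMap A L) := FaithfulSMul.algebraMap_injective A L
  -- the transcendence basis
  have halg0 : Algebra.IsAlgebraic (Algebra.adjoin A (Set.range f)) L := by
    refine ⟨fun l => ?_⟩
    obtain ⟨p, q, hq, hl⟩ := hfrac l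
    have hmem : ∀ p : MvPolynomial σ A, MvPolynomial.aeval f p ∈ Algebra.adjoin A (Set.range f) := by
      intro p
      rw [Algebra.adjoin_range_eq_range_aeval]
      exact ⟨p, rfl⟩
    refine ⟨C ⟨_, hmem q⟩ * X - C ⟨_, hmem p⟩, ?_, ?_⟩
    · intro h
      have h1 := congrArg (fun r => Polynomial.coeff r 1) h
      simp only [coeff_sub, coeff_C_mul, coeff_X_one, mul_one, coeff_C_succ, sub_zero, coeff_zero] at h1
      exact hq (congrArg Subtype.val h1)
    · rw [map_sub, map_mul, aeval_C, aeval_X, aeval_C, sub_eq_zero]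
      exact hl
  obtain ⟨t, ht, htb⟩ := exists_isTranscendenceBasis_subset (R := A) (Set.range f)
  have hfinI : Finite t := (Set.finite_range f).subset ht
  let finI : Fintype t := Fintype.ofFinite t
  choose ι hι using fun x : t => ht x.2
  have hfι : f ∘ ι = ((↑) : t → L) := funext hι
  rw [← hfι] at htb
  let S := MvPolynomial t A
  let algS : Algebra S L := (evI (f ∘ ι)).toAlgebra
  have hmapS : ∀ p : S, algebraMap S L p = evI (f ∘ ι) p := fun p => rfl
  have hSinj : Function.Injective (algebraMap S L) := htb.1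
  have : FaithfulSMul S L := (faithfulSMul_iff_algebraMap_injective S L).2 hSinj
  have htower : IsScalarTower A S L := IsScalarTower.of_algebraMap_eq fun a => by
    rw [hmapS]
    exact (MvPolynomial.aeval_C (f ∘ ι) a).symm
  -- algebraic
  have halg1 : Algebra.IsAlgebraic S L := by
    have h1 := htb.isAlgebraic
    refine ⟨fun l => ?_⟩
    have h2 : IsAlgebraic (Algebra.adjoin A (Set.range (f ∘ ι))) l := h1.isAlgebraic l
    exact h2.ringHom_of_comp_eq (htb.1.aevalEquiv.symm : _ →+* S) (RingHom.id L)
      (htb.1.aevalEquiv.symm.injective) (by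
        ext y
        obtain ⟨z, rfl⟩ := htb.1.aevalEquiv.surjective y
        simp only [RingHom.comp_apply]
        change algebraMap S L (htb.1.aevalEquiv.symm (htb.1.aevalEquiv z)) = _
        rw [AlgEquiv.symm_apply_apply, hmapS]
        exact (htb.1.algebraMap_aevalEquiv z).symm)
  -- the field of fractions
  let E₀ := FractionRing S
  let algE : Algebra E₀ L := FractionRing.liftAlgebra S L
  have htE : IsScalarTower S E₀ L := FractionRing.isScalarTower_liftAlgebra S L
  have hcharS : CharZero S := inferInstance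
  have hcharE : CharZero E₀ := inferInstance
  have halgE : Algebra.IsAlgebraic E₀ L := Algebra.IsAlgebraic.extendScalars (R := S) (S := E₀) (A := L)
    (IsFractionRing.injective S E₀)
  have hadj : IntermediateField.adjoin E₀ (Set.range f) = ⊤ := by
    rw [eq_top_iff]
    intro l _
    obtain ⟨p, q, hq, hl⟩ := hfrac l
    have hmem : ∀ p : MvPolynomial σ A, MvPolynomial.aeval f p ∈ IntermediateField.adjoin E₀ (Set.range f) := by
      intro p
      induction p using MvPolynomial.induction_on with
      | C a =>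
        rw [MvPolynomial.aeval_C, IsScalarTower.algebraMap_apply A S L, IsScalarTower.algebraMap_apply S E₀ L]
        exact IntermediateField.algebraMap_mem _ _
      | add p q hp hq => rw [map_add]; exact add_mem hp hq
      | mul_X p i hp =>
        rw [map_mul, MvPolynomial.aeval_X]
        exact mul_mem hp (IntermediateField.subset_adjoin _ _ ⟨i, rfl⟩)
    have h1 : l = MvPolynomial.aeval f p / MvPolynomial.aeval f q := by
      rw [eq_div_iff hq, mul_comm]
      exact hl
    rw [h1]
    exact div_mem (hmem p) (hmem q)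
  have hfinE : FiniteDimensional E₀ L := by
    have h1 : FiniteDimensional E₀ (IntermediateField.adjoin E₀ (Set.range f)) :=
      IntermediateField.finiteDimensional_adjoin (by
        rintro _ ⟨i, rfl⟩
        exact Algebra.IsIntegral.isIntegral _)
    rw [hadj] at h1
    exact IntermediateField.topEquiv.toLinearEquiv.finiteDimensional
  obtain ⟨θ₀, hθ₀⟩ := Field.exists_primitive_element E₀ L
  have hq0 : ∀ l : L, ∃ q : Polynomial (MvPolynomial t A), q ≠ 0 ∧ eval₂ (evI (f ∘ ι)) l q = 0 :=
    fun l => halg1.isAlgebraic l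
  obtain ⟨b, P, hb, hP⟩ := exists_denom f ι hfrac hq0 θ₀
  obtain ⟨y, hy, hyint⟩ := (halg1.isAlgebraic (MvPolynomial.aeval f P : L)).exists_integral_multiple
  set θ : L := y • (MvPolynomial.aeval f P : L) with hθ
  set Θ : MvPolynomial σ A := MvPolynomial.rename ι y * P with hΘ
  have hΘθ : MvPolynomial.aeval f Θ = θ := by
    rw [hΘ, map_mul, ← evI_rename, hθ, Algebra.smul_def, hmapS]
  have hyb : y * b ≠ 0 := mul_ne_zero hy hb
  have hθθ₀ : θ = algebraMap E₀ L (algebraMap S E₀ (y * b)) * θ₀ := by
    rw [← IsScalarTower.algebraMap_apply, hθ, Algebra.smul_def, ← hP, map_mul, hmapS, hmapS]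
    ring
  have hprim : IntermediateField.adjoin E₀ {θ} = ⊤ := by
    rw [eq_top_iff, ← hθ₀, IntermediateField.adjoin_le_iff, Set.singleton_subset_iff]
    have h1 : algebraMap E₀ L (algebraMap S E₀ (y * b)) ≠ 0 := by
      rw [← IsScalarTower.algebraMap_apply]
      exact (map_ne_zero_iff _ hSinj).2 hyb
    have h2 : θ₀ = θ / algebraMap E₀ L (algebraMap S E₀ (y * b)) := by
      rw [hθθ₀]
      field_simp
    rw [h2]
    exact div_mem (IntermediateField.mem_adjoin_simple_self _ _) (IntermediateField.algebraMap_mem _ _)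
  -- the minimal polynomial
  set m : Polynomial S := minpoly S θ with hm
  have hmm : m.Monic := minpoly.monic hyint
  have hmE : minpoly E₀ θ = m.map (algebraMap S E₀) := minpoly.isIntegrallyClosed_eq_field_fractions' E₀ hyint
  have hmin : ∀ h : Polynomial S, h.degree < m.degree → eval₂ (evI (f ∘ ι)) θ h = 0 → h = 0 := by
    intro h hd h0
    by_contra hne
    have := minpoly.IsIntegrallyClosed.degree_le_of_ne_zero (R := S) (s := θ) hne h0
    exact absurd hd (not_lt.2 this)
  have hroot : eval₂ (evI (f ∘ ι)) θ m = 0 := minpoly.aeval S θ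
  -- absolute irreducibility
  let k := FractionRing A
  let algk : Algebra k L := FractionRing.liftAlgebra A L
  have htk : IsScalarTower A k L := FractionRing.isScalarTower_liftAlgebra A L
  have hregk : ∀ a : L, IsAlgebraic k a → a ∈ (algebraMap k L).range := by
    intro a ha
    have h1 : IsAlgebraic A a := (IsFractionRing.isAlgebraic_iff A k L).2 ha
    obtain ⟨p, q, hq, hpq⟩ := hreg a h1
    refine ⟨algebraMap A k p / algebraMap A k q, ?_⟩
    have hq' : algebraMap A L q ≠ 0 := (map_ne_zero_iff _ hAL).2 hq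
    rw [map_div₀, ← IsScalarTower.algebraMap_apply, ← IsScalarTower.algebraMap_apply, div_eq_iff hq', ← hpq]
    ring
  let kb := AlgebraicClosure k
  let Ω := AlgebraicClosure L
  let j : kb →ₐ[k] Ω := IsAlgClosed.lift
  have hmpos : 0 < m.natDegree := minpoly.natDegree_pos hyint
  have hnofac : ∀ a b, 0 < a → 0 < b →
      ¬ Fac (m.map (MvPolynomial.map ((algebraMap k kb).comp (algebraMap A k)))) a b := by
    rintro a b ha hb ⟨u, v, hu, hv, rfl, rfl, huv⟩
    have hdeg : (m.map (MvPolynomial.map (σ := t) ((algebraMap k kb).comp (algebraMap A k)))).natDegree = m.natDegree :=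
      hmm.natDegree_map _
    have hsum : u.natDegree + v.natDegree = m.natDegree := by
      rw [← hdeg, ← huv, hu.natDegree_mul hv]
    have hmin' : ∀ h : Polynomial (MvPolynomial t A), h.degree < m.natDegree → eval₂ (evI (f ∘ ι)) θ h = 0 → h = 0 := by
      intro h hd h0
      apply hmin h _ h0
      rw [degree_eq_natDegree hmm.ne_zero]
      exact hd
    have h1 := eval_ne (k := k) (f ∘ ι) θ m.natDegree hmin' hregk j u hu (by omega)
    have h2 := eval_ne (k := k) (f ∘ ι) θ m.natDegree hmin' hregk j v hv (by omega)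
    have h3 := mul_ne_zero h1 h2
    apply h3
    rw [← eval₂_mul, huv, eval₂_map]
    have h4 : (MvPolynomial.eval₂Hom (j : kb →+* Ω) fun i => algebraMap L Ω ((f ∘ ι) i)).comp
        (MvPolynomial.map ((algebraMap k kb).comp (algebraMap A k))) = (algebraMap L Ω).comp (evI (f ∘ ι)) := by
      refine MvPolynomial.ringHom_ext ?_ ?_
      · intro a
        simp only [RingHom.comp_apply, MvPolynomial.map_C, MvPolynomial.coe_eval₂Hom, MvPolynomial.eval₂_C]
        change j (algebraMap k kb (algebraMap A k a)) = algebraMap L Ω (MvPolynomial.aeval (f ∘ ι) (MvPolynomial.C a))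
        rw [AlgHom.commutes, MvPolynomial.aeval_C, IsScalarTower.algebraMap_apply A k L,
          ← IsScalarTower.algebraMap_apply k L Ω]
      · intro i
        simp only [RingHom.comp_apply, MvPolynomial.map_X, MvPolynomial.coe_eval₂Hom, MvPolynomial.eval₂_X]
        change _ = algebraMap L Ω (MvPolynomial.aeval (f ∘ ι) (MvPolynomial.X i))
        rw [MvPolynomial.aeval_X]
    rw [h4, ← hom_eval₂, hroot, map_zero]
  refine ⟨⟨t, finI, Classical.decEq t, ι, m, Θ, htb.1, hmm, hmpos, ?_, ?_, ?_⟩⟩
  · rw [hΘθ]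
    exact hroot
  · intro l
    rw [hΘθ]
    have h1 : l ∈ (⊤ : IntermediateField E₀ L) := trivial
    rw [← hprim, ← IntermediateField.mem_toSubalgebra,
      IntermediateField.adjoin_simple_toSubalgebra_of_isAlgebraic (Algebra.IsAlgebraic.isAlgebraic θ),
      Algebra.adjoin_singleton_eq_range_aeval] at h1
    obtain ⟨q, hq⟩ := h1
    have hq : aeval θ q = l := hq
    have hmEm : (minpoly E₀ θ).Monic := by
      rw [hmE]
      exact hmm.map _
    set r := q %ₘ (minpoly E₀ θ) with hr
    have hr1 : aeval θ r = l := by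
      have h3 := congrArg (aeval θ) (modByMonic_add_div q (minpoly E₀ θ))
      rw [map_add, map_mul, minpoly.aeval, zero_mul, add_zero] at h3
      rw [hr, h3, hq]
    have hr2 : r.degree < m.degree := by
      have := degree_modByMonic_lt q hmEm
      rw [hmE, hmm.degree_map] at this
      rw [hr, hmE]
      exact this
    obtain ⟨D, hD, hh⟩ := IsLocalization.integerNormalization_spec (nonZeroDivisors S) r
    refine ⟨D, IsLocalization.integerNormalization (nonZeroDivisors S) r, nonZeroDivisors.ne_zero hD, ?_, ?_⟩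
    · refine lt_of_le_of_lt (degree_mono (IsLocalization.integerNormalization_support _ _)) hr2
    · have h4 : aeval θ ((IsLocalization.integerNormalization (nonZeroDivisors S) r).map (algebraMap S E₀)) =
          evI (f ∘ ι) D * l := by
        have h5 : D • r = C (algebraMap S E₀ D) * r := by
          rw [← smul_eq_C_mul, algebraMap_smul]
        rw [hh, h5, map_mul, aeval_C, hr1, ← IsScalarTower.algebraMap_apply]
        rfl
      rw [← h4, aeval_map_algebraMap]
      rfl
  · exact bn_all (k := k) (kb := kb) m hmm m.natDegree rfl hmpos hnofac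

end Pool.Agent.Y890.SP
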