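import Pool.Agent.Y890.SP.Tup
import Pool.Agent.Y890.SP.Coord

/-!
# Relations between values at tuples of points are specializations of functional relations
-/

set_option autoImplicit false
set_option linter.unusedSectionVars false

open Polynomial NumberField

namespace Pool.Agent.Y890.SP

theorem sum_fib' {R Λ Λ₁ : Type*} [CommRing R] [Fintype Λ] [Fintype Λ₁] [DecidableEq Λ₁] (p : Λ → Λ₁) (w : Λ → R)
    (g : Λ₁ → R) : ∑ l₁, (∑ l, if p l = l₁ then w l else 0) * g l₁ = ∑ l, w l * g (p l) := by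
  classical
  simp only [Finset.sum_mul]
  rw [Finset.sum_comm]
  refine Finset.sum_congr rfl fun l _ => ?_
  rw [Finset.sum_eq_single (p l)]
  · simp
  · intro b _ hb
    rw [if_neg (Ne.symm hb), zero_mul]
  · simp

theorem eval_subst {n : ℕ} (j : Fin (n + 1)) (x : Fin (n + 1) → ℂ) (t : ℂ) (g : MvPolynomial (Fin (n + 1)) ℂ) :
    (MvPolynomial.aeval (fun i => if i = j then (X : ℂ[X]) else C (x i)) g).eval t =
      MvPolynomial.eval (Function.update x j t) g := by
  have h1 : ∀ g : MvPolynomial (Fin (n + 1)) ℂ,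
      (Polynomial.evalRingHom t).comp (MvPolynomial.aeval (fun i => if i = j then (X : ℂ[X]) else C (x i))).toRingHom g =
        MvPolynomial.eval (Function.update x j t) g := by
    intro g
    congr 1
    apply MvPolynomial.ringHom_ext
    · intro r
      simp
    · intro i
      by_cases hi : i = j
      · subst hi
        simp
      · simp [hi]
  exact h1 g

/-- the kernel of the product of the matrices `M j` consists of functional relations -/
theorem kernel_tup {n : ℕ} {σ : Type} [Fintype σ] [DecidableEq σ] {U : Fin (n + 1) → Set ℂ}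
    {f : Fin (n + 1) → σ → ℂ → ℂ} (hUo : ∀ j, IsOpen (U j)) (hne : ∀ j, (U j).Nonempty) {δ : ℕ}
    {N : Fin (n + 1) → Type} (M : ∀ j, N j → (σ → Fin (δ + 1)) → ℂ[X])
    (hM : ∀ j, ∀ G : (σ → Fin (δ + 1)) → ℂ[X], (∀ ν, ∑ l, M j ν l * G l = 0) →
      ∀ x ∈ U j, ∑ l, (G l).eval x * ∏ y, f j y x ^ (l y : ℕ) = 0)
    (G : (Fin (n + 1) → σ → Fin (δ + 1)) → MvPolynomial (Fin (n + 1)) ℂ)
    (hG : ∀ κ : (∀ j, N j), ∑ l, G l * ∏ j, Polynomial.aeval (MvPolynomial.X j : MvPolynomial (Fin (n + 1)) ℂ)
      (M j (κ j) (l j)) = 0) (x : Fin (n + 1) → ℂ) (hx : ∀ j, x j ∈ U j) :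
    ∑ l, MvPolynomial.eval x (G l) * ∏ j, ∏ y, f j y (x j) ^ (l j y : ℕ) = 0 := by
  classical
  have hNe : ∀ j, Nonempty (N j) := by
    intro j
    by_contra h0
    rw [not_nonempty_iff] at h0
    obtain ⟨x0, hx0⟩ := hne j
    have h1 := hM j (fun l => if l = 0 then 1 else 0) (fun ν => (h0.false ν).elim) x0 hx0
    rw [Finset.sum_eq_single (0 : σ → Fin (δ + 1))] at h1
    · simp at h1
    · intro b _ hb
      simp [hb]
    · simp
  let aF : (∀ j, N j) → (Fin (n + 1) → ℂ) → Fin (n + 1) → (σ → Fin (δ + 1)) → ℂ := fun κ x i l =>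
    (M i (κ i) l).eval (x i)
  let bF : (Fin (n + 1) → ℂ) → Fin (n + 1) → (σ → Fin (δ + 1)) → ℂ := fun x i l => ∏ y, f i y (x i) ^ (l y : ℕ)
  have claim : ∀ r : ℕ, r ≤ n + 1 → ∀ (κ : ∀ j, N j) (x : Fin (n + 1) → ℂ), (∀ j, x j ∈ U j) →
      ∑ l, MvPolynomial.eval x (G l) * ∏ i : Fin (n + 1), (if (i : ℕ) < n + 1 - r then aF κ x i (l i) else
        bF x i (l i)) = 0 := by
    intro r
    induction r with
    | zero =>
        intro _ κ x _
        have h1 := congrArg (MvPolynomial.eval x) (hG κ)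
        rw [map_sum, map_zero] at h1
        refine Eq.trans ?_ h1
        refine Finset.sum_congr rfl fun l _ => ?_
        rw [map_mul, map_prod]
        congr 1
        refine Finset.prod_congr rfl fun i _ => ?_
        rw [if_pos (by have := i.2; omega)]
        have h2 : MvPolynomial.eval x (Polynomial.aeval (MvPolynomial.X i : MvPolynomial (Fin (n + 1)) ℂ)
            (M i (κ i) (l i))) = (M i (κ i) (l i)).eval (x i) := by
          rw [Polynomial.aeval_def, Polynomial.hom_eval₂, MvPolynomial.eval_X]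
          have h3 : (MvPolynomial.eval x).comp (algebraMap ℂ (MvPolynomial (Fin (n + 1)) ℂ)) = RingHom.id ℂ := by
            ext
            simp
          rw [h3, Polynomial.eval₂_id]
        exact h2.symm
    | succ r ih =>
        intro hr κ x hx
        have ih' := ih (by omega)
        set k := n + 1 - (r + 1) with hk
        have hk1 : n + 1 - r = k + 1 := by omega
        rw [hk1] at ih'
        let j : Fin (n + 1) := ⟨k, by omega⟩
        have hj : k = (j : ℕ) := rfl
        let H : (σ → Fin (δ + 1)) → ℂ[X] := fun lam => ∑ l : Fin (n + 1) → σ → Fin (δ + 1), if l j = lam then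
          MvPolynomial.aeval (fun i => if i = j then (X : ℂ[X]) else C (x i)) (G l) *
            C (mix j (aF κ x) (bF x) l) else 0
        have hH : ∀ (t : ℂ) (g : (σ → Fin (δ + 1)) → ℂ), ∑ lam, (H lam).eval t * g lam =
            ∑ l, (MvPolynomial.eval (Function.update x j t) (G l) * mix j (aF κ x) (bF x) l) * g (l j) := by
          intro t g
          have h1 := sum_fib' (fun l : Fin (n + 1) → σ → Fin (δ + 1) => l j)
            (fun l => MvPolynomial.eval (Function.update x j t) (G l) * mix j (aF κ x) (bF x) l) g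
          rw [← h1]
          refine Finset.sum_congr rfl fun lam _ => ?_
          congr 1
          rw [Polynomial.eval_finsetSum]
          refine Finset.sum_congr rfl fun l _ => ?_
          split_ifs
          · rw [Polynomial.eval_mul, Polynomial.eval_C, eval_subst]
          · exact Polynomial.eval_zero
        have hker : ∀ ν, ∑ lam, M j ν lam * H lam = 0 := by
          intro ν
          apply Polynomial.eq_zero_of_infinite_isRoot
          have hinf : (U j).Infinite := by
            obtain ⟨x0, hx0⟩ := hne j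
            exact infinite_of_mem_nhds x0 ((hUo j).mem_nhds hx0)
          refine hinf.mono fun t ht => ?_
          have h1 := ih' (Function.update κ j ν) (Function.update x j t) (by
            intro i
            by_cases hi : i = j
            · subst hi
              simpa using ht
            · rw [Function.update_of_ne hi]
              exact hx i)
          change Polynomial.eval t _ = 0
          rw [Polynomial.eval_finsetSum]
          simp only [Polynomial.eval_mul]
          have h2 := hH t (fun lam => (M j ν lam).eval t)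
          have h3 : ∑ lam, (M j ν lam).eval t * (H lam).eval t = ∑ lam, (H lam).eval t * (M j ν lam).eval t :=
            Finset.sum_congr rfl fun _ _ => mul_comm _ _
          rw [h3, h2]
          refine Eq.trans ?_ h1
          refine Finset.sum_congr rfl fun l _ => ?_
          rw [hj, mix_a, mul_assoc]
          congr 2
          · apply mix_congr
            · intro i hi
              funext lam
              simp only [aF]
              rw [Function.update_of_ne hi, Function.update_of_ne hi]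
            · intro i hi
              funext lam
              simp only [bF]
              rw [Function.update_of_ne hi]
          · simp only [aF]
            rw [Function.update_self, Function.update_self]
        have h4 := hM j H hker (x j) (hx j)
        rw [hH] at h4
        rw [Function.update_eq_self] at h4
        refine Eq.trans ?_ h4
        refine Finset.sum_congr rfl fun l _ => ?_
        rw [hj, mix_b, mul_assoc]
  have hfin := claim (n + 1) le_rfl (fun j => (hNe j).some) x hx
  refine Eq.trans ?_ hfin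
  refine Finset.sum_congr rfl fun l _ => ?_
  congr 1
  refine Finset.prod_congr rfl fun i _ => ?_
  rw [if_neg (by omega)]

theorem sz_count {n : ℕ} {Q K : Type} [Field Q] [Field K] (D : MvPolynomial (Fin (n + 1)) Q) (hD : D ≠ 0)
    (e : K →+* Q) (B : Set K) (hB : B.Finite) :
    {s : Fin (n + 1) → K | (∀ j, s j ∈ B) ∧ MvPolynomial.eval (fun j => e (s j)) D = 0}.ncard ≤
      D.totalDegree * B.ncard ^ n := by
  classical
  set Z := {s : Fin (n + 1) → K | (∀ j, s j ∈ B) ∧ MvPolynomial.eval (fun j => e (s j)) D = 0} with hZ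
  rcases Nat.eq_zero_or_pos B.ncard with h0 | h0
  · have h1 : B = ∅ := (Set.ncard_eq_zero hB).1 h0
    have h2 : Z = ∅ := by
      rw [Set.eq_empty_iff_forall_notMem]
      rintro s ⟨hs, -⟩
      have := hs 0
      rw [h1] at this
      exact this
    rw [h2]
    simp
  set S : Finset Q := hB.toFinset.image e with hS
  have hScard : S.card = B.ncard := by
    rw [hS, Finset.card_image_of_injective _ e.injective, ← Set.ncard_eq_toFinset_card _ hB]
  have h1 : Z.ncard ≤ ({f ∈ Fintype.piFinset fun _ : Fin (n + 1) => S | MvPolynomial.eval f D = 0} : Finset _).card := by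
    rw [← Set.ncard_coe_finset]
    refine Set.ncard_le_ncard_of_injOn (fun s j => e (s j)) ?_ ?_ (Finset.finite_toSet _)
    · rintro s ⟨hs, hs'⟩
      rw [Finset.mem_coe, Finset.mem_filter, Fintype.mem_piFinset]
      refine ⟨fun j => ?_, hs'⟩
      rw [hS, Finset.mem_image]
      exact ⟨s j, (Set.Finite.mem_toFinset _).2 (hs j), rfl⟩
    · intro s _ s' _ hss
      funext j
      exact e.injective (congrFun hss j)
  have h2 := MvPolynomial.schwartz_zippel_totalDegree hD S
  have hSpos : (0 : ℚ≥0) < (S.card : ℚ≥0) := by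
    rw [hScard]
    exact_mod_cast h0
  rw [div_le_iff₀ (by positivity)] at h2
  have h3 : ((D.totalDegree : ℚ≥0) / (S.card : ℚ≥0)) * (S.card : ℚ≥0) ^ (n + 1) =
      (D.totalDegree : ℚ≥0) * (S.card : ℚ≥0) ^ n := by
    rw [pow_succ]
    field_simp
  rw [h3, hScard] at h2
  refine h1.trans ?_
  exact_mod_cast h2

/-- the field of algebraic numbers -/
abbrev Qbar : Type := algebraicClosure ℚ ℂ

/-- a number field in the field of algebraic numbers -/
noncomputable def ioQ {K : Type} [Field K] [NumberField K] (io : K →+* ℂ) : K →+* Qbar :=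
  io.codRestrict (algebraicClosure ℚ ℂ) fun x => by
    rw [mem_algebraicClosure_iff]
    have h1 : IsAlgebraic ℚ x := Algebra.IsAlgebraic.isAlgebraic x
    exact (h1.algHom io.toRatAlgHom)

theorem ioQ_coe {K : Type} [Field K] [NumberField K] (io : K →+* ℂ) (x : K) :
    algebraMap Qbar ℂ (ioQ io x) = io x := rfl

/-- `n + 1`-tuples of elements of `K` of height at most `T`, in given compact sets, at which the values of the functions
satisfy a relation of partial degrees at most `δ`, with coefficients in `∑ ξ i * 𝓞 K` of size at most `T ^ A`, that is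
not the specialization of a functional relation of the same shape with coefficients that are polynomials over the field
of algebraic numbers -/
def Exc {n : ℕ} {σ h : Type} [Fintype σ] [DecidableEq σ] [Fintype h] (δ : ℕ) (U : Fin (n + 1) → Set ℂ)
    (f : Fin (n + 1) → σ → ℂ → ℂ) (Lc : Fin (n + 1) → Set ℂ) (K : Type) [Field K] [NumberField K] (io : K →+* ℂ)
    (ξ : h → ℂ) (A T : ℝ) : Set (Fin (n + 1) → K) :=
  {s | (∀ j, Y120.HtLe K T (s j) ∧ io (s j) ∈ Lc j) ∧ ∃ c : (Fin (n + 1) → σ → Fin (δ + 1)) → h → 𝓞 K,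
    (∀ l i (φ : K →+* ℂ), ‖φ (c l i : K)‖ ≤ T ^ A) ∧
    ∑ l, (∑ i, ξ i * io (c l i : K)) * ∏ j, ∏ y, f j y (io (s j)) ^ (l j y : ℕ) = 0 ∧
    ¬ ∃ G : (Fin (n + 1) → σ → Fin (δ + 1)) → h → MvPolynomial (Fin (n + 1)) Qbar,
      (∀ l i, MvPolynomial.aeval (fun j => io (s j)) (G l i) = io (c l i : K)) ∧
      ∀ x : Fin (n + 1) → ℂ, (∀ j, x j ∈ U j) →
        ∑ l, (∑ i, ξ i * MvPolynomial.aeval x (G l i)) * ∏ j, ∏ y, f j y (x j) ^ (l j y : ℕ) = 0}

theorem exc_bound {n : ℕ} {σ : Type} [Fintype σ] [DecidableEq σ] {U : Fin (n + 1) → Set ℂ}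
    {f : Fin (n + 1) → σ → ℂ → ℂ} (hU : ∀ j, IsPreconnected (U j)) (hUo : ∀ j, IsOpen (U j))
    (hne : ∀ j, (U j).Nonempty) (hf : ∀ j i, AnalyticOnNhd ℂ (f j i) (U j)) (hreg : ∀ j, Regular (U j) (f j))
    (Lc : Fin (n + 1) → Set ℂ) (hLc : ∀ j, IsCompact (Lc j)) (hLU : ∀ j, Lc j ⊆ U j) (δ : ℕ) (h : Type) [Fintype h]
    [DecidableEq h] (m : ℕ) (A ε : ℝ) (hε : 0 < ε) : ∃ C T₀ : ℝ, 0 ≤ C ∧ 2 ≤ T₀ ∧
      ∀ (K : Type) [Field K] [NumberField K], Module.finrank ℚ K ≤ m → ∀ (io : K →+* ℂ) (ξ : h → ℂ) (T : ℝ),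
        T₀ ≤ T → (Exc δ U f Lc K io ξ A T).Finite ∧
          ((Exc δ U f Lc K io ξ A T).ncard : ℝ) ≤ C * T ^ ε * ({x : K | Y120.HtLe K T x}.ncard : ℝ) ^ n := by
  classical
  obtain ⟨N, _, _, M, hM, hcount⟩ := tup hU hUo hne hf hreg Lc hLc hLU δ
  obtain ⟨C, T₀, hC, hT₀, H⟩ := hcount h m A ε hε
  let MM : (∀ j, N j) → (Fin (n + 1) → σ → Fin (δ + 1)) → MvPolynomial (Fin (n + 1)) ℂ := fun κ l =>
    ∏ j, Polynomial.aeval (MvPolynomial.X j : MvPolynomial (Fin (n + 1)) ℂ) (M j (κ j) (l j))
  set d : ℕ := ∑ κ, ∑ l, (MM κ l).totalDegree with hd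
  have hd' : ∀ κ l, (MM κ l).totalDegree ≤ d := by
    intro κ l
    have h1 : (MM κ l).totalDegree ≤ ∑ l, (MM κ l).totalDegree :=
      Finset.single_le_sum (f := fun l => (MM κ l).totalDegree) (fun _ _ => Nat.zero_le _) (Finset.mem_univ l)
    exact h1.trans (Finset.single_le_sum (f := fun κ => ∑ l, (MM κ l).totalDegree) (fun _ _ => Nat.zero_le _)
      (Finset.mem_univ κ))
  set dd : ℕ := Fintype.card ((Fin (n + 1) → σ → Fin (δ + 1)) × h) * d with hdd
  refine ⟨C + dd, T₀, by positivity, hT₀, ?_⟩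
  intro K _ _ hK io ξ T hT
  have hT1 : 1 ≤ T := by linarith
  obtain ⟨hfin, hcard⟩ := H K hK io ξ T hT
  have hBfin : {x : K | Y120.HtLe K T x}.Finite := Y120.HtLe_fin K T
  set B := {x : K | Y120.HtLe K T x} with hB
  have hEfin : (Exc δ U f Lc K io ξ A T).Finite := by
    refine (Set.Finite.pi' (fun _ : Fin (n + 1) => hBfin)).subset fun s hs => ?_
    exact fun i => (hs.1 i).1
  refine ⟨hEfin, ?_⟩
  obtain ⟨D, hD, hDd, hlift⟩ := exists_lift (Q := Qbar) (Module.Basis.ofVectorSpace Qbar ℂ) MM d hd' ξ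
  set Z := {s : Fin (n + 1) → K | (∀ j, s j ∈ B) ∧ MvPolynomial.eval (fun j => ioQ io (s j)) D = 0} with hZ
  have hZcard : Z.ncard ≤ D.totalDegree * B.ncard ^ n := sz_count D hD (ioQ io) B hBfin
  have hZfin : Z.Finite := by
    refine (Set.Finite.pi' (fun _ : Fin (n + 1) => hBfin)).subset fun s hs => ?_
    exact hs.1
  have hsub : Exc δ U f Lc K io ξ A T ⊆ BadT δ M f Lc K io ξ A T ∪ Z := by
    rintro s ⟨h1, c, h2, h3, h4⟩
    by_contra h5
    rw [Set.mem_union, not_or] at h5
    obtain ⟨h6, h7⟩ := h5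
    apply h4
    have h8 : MvPolynomial.eval (fun j => ioQ io (s j)) D ≠ 0 := by
      intro h0
      exact h7 ⟨fun j => (h1 j).1, h0⟩
    have h9 : ∀ κ : (∀ j, N j), ∑ l, (∑ i, ξ i * io (c l i : K)) * ∏ j, (M j (κ j) (l j)).eval (io (s j)) = 0 := by
      intro κ
      by_contra h0
      exact h6 ⟨h1, c, h2, h3, κ, h0⟩
    have hMMe : ∀ κ l (x : Fin (n + 1) → ℂ), MvPolynomial.eval x (MM κ l) = ∏ j, (M j (κ j) (l j)).eval (x j) := by
      intro κ l x
      simp only [MM]
      rw [map_prod]
      refine Finset.prod_congr rfl fun i _ => ?_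
      rw [Polynomial.aeval_def, Polynomial.hom_eval₂, MvPolynomial.eval_X]
      have h3 : (MvPolynomial.eval x).comp (algebraMap ℂ (MvPolynomial (Fin (n + 1)) ℂ)) = RingHom.id ℂ := by
        ext
        simp
      rw [h3, Polynomial.eval₂_id]
    obtain ⟨G, hG1, hG2⟩ := hlift (fun j => ioQ io (s j)) (fun l i => ioQ io (c l i : K)) h8 (by
      intro κ
      simp only [ioQ_coe]
      rw [← h9 κ]
      refine Finset.sum_congr rfl fun l _ => ?_
      rw [hMMe])
    refine ⟨G, ?_, ?_⟩
    · intro l i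
      have h10 := congrArg (algebraMap Qbar ℂ) (hG1 l i)
      rw [ioQ_coe] at h10
      rw [← h10, MvPolynomial.aeval_def]
      have h11 := MvPolynomial.eval₂_comp_left (algebraMap Qbar ℂ) (RingHom.id Qbar) (fun j => ioQ io (s j)) (G l i)
      rw [RingHom.comp_id] at h11
      rw [← MvPolynomial.eval₂_id, h11]
      rfl
    · intro x hx
      have h10 := kernel_tup hUo hne M hM (fun l => ∑ i, MvPolynomial.C (ξ i) *
        MvPolynomial.map (algebraMap Qbar ℂ) (G l i)) hG2 x hx
      refine Eq.trans ?_ h10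
      refine Finset.sum_congr rfl fun l _ => ?_
      congr 1
      rw [map_sum]
      refine Finset.sum_congr rfl fun i _ => ?_
      rw [map_mul, MvPolynomial.eval_C, MvPolynomial.eval_map, MvPolynomial.aeval_def]
  have h1 := Set.ncard_le_ncard hsub (hfin.union hZfin)
  have h2 := Set.ncard_union_le (BadT δ M f Lc K io ξ A T) Z
  have h3 : ((Exc δ U f Lc K io ξ A T).ncard : ℝ) ≤ (BadT δ M f Lc K io ξ A T).ncard + dd * (B.ncard : ℝ) ^ n := by
    have h4 : Z.ncard ≤ dd * B.ncard ^ n := hZcard.trans (Nat.mul_le_mul_right _ hDd)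
    exact_mod_cast h1.trans (h2.trans (Nat.add_le_add_left h4 _))
  refine h3.trans ?_
  have h5 : (1 : ℝ) ≤ T ^ ε := Real.one_le_rpow hT1 hε.le
  have h6 : (0 : ℝ) ≤ (B.ncard : ℝ) ^ n := by positivity
  have h7 : (dd : ℝ) * (B.ncard : ℝ) ^ n ≤ dd * T ^ ε * (B.ncard : ℝ) ^ n := by
    have h8 : (dd : ℝ) ≤ dd * T ^ ε := by
      have : (0 : ℝ) ≤ dd := Nat.cast_nonneg _
      nlinarith
    exact mul_le_mul_of_nonneg_right h8 h6
  have h9 : (C + dd) * T ^ ε * (B.ncard : ℝ) ^ n = C * T ^ ε * (B.ncard : ℝ) ^ n + dd * T ^ ε * (B.ncard : ℝ) ^ n := by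
    ring
  rw [h9]
  exact add_le_add hcard h7

end Pool.Agent.Y890.SP
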