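import Pool.Agent.Y890.SP.BN

/-!
# Homogenization: values as combinations of integers with fixed complex coefficients
-/

set_option autoImplicit false
set_option linter.unusedSectionVars false

open Polynomial

namespace Pool.Agent.Y890.SP

variable {Λ h : Type} [Fintype Λ] [DecidableEq Λ] [Fintype h] [DecidableEq h]

/-- the homogenized polynomial in numerator, denominator and the integral coordinates of the coefficients -/
noncomputable def hmg (ξ : h → ℂ) (J : ℕ) (r : MvPolynomial Λ ℂ[X]) : MvPolynomial (Bool ⊕ (Λ × h)) ℂ :=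
  ∑ ν ∈ r.support, ∑ j ∈ Finset.range (J + 1), MvPolynomial.C ((r.coeff ν).coeff j) *
    (MvPolynomial.X (Sum.inl false)) ^ j * (MvPolynomial.X (Sum.inl true)) ^ (J - j) *
      ∏ l, (∑ i, MvPolynomial.C (ξ i) * MvPolynomial.X (Sum.inr (l, i))) ^ (ν l)

theorem hmg_eval (ξ : h → ℂ) (J : ℕ) (r : MvPolynomial Λ ℂ[X]) (hJ : ∀ ν, (r.coeff ν).natDegree ≤ J)
    (w : Bool ⊕ (Λ × h) → ℂ) (hw : w (Sum.inl true) ≠ 0) :
    MvPolynomial.eval w (hmg ξ J r) = w (Sum.inl true) ^ J *
      MvPolynomial.eval₂ (Polynomial.evalRingHom (w (Sum.inl false) / w (Sum.inl true)))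
        (fun l => ∑ i, ξ i * w (Sum.inr (l, i))) r := by
  classical
  rw [MvPolynomial.eval₂_eq', hmg, map_sum, Finset.mul_sum]
  refine Finset.sum_congr rfl fun ν _ => ?_
  rw [map_sum, coe_evalRingHom, eval_eq_sum_range' (Nat.lt_succ_of_le (hJ ν)), Finset.sum_mul, Finset.mul_sum]
  refine Finset.sum_congr rfl fun j hj => ?_
  have hj' : j ≤ J := Nat.lt_succ_iff.1 (Finset.mem_range.1 hj)
  simp only [map_mul, map_pow, map_prod, map_sum, MvPolynomial.eval_C, MvPolynomial.eval_X]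
  have h1 : w (Sum.inl true) ^ J = w (Sum.inl true) ^ j * w (Sum.inl true) ^ (J - j) := by
    rw [← pow_add]
    congr 1
    omega
  rw [h1, div_pow]
  have h2 : w (Sum.inl true) ^ j ≠ 0 := pow_ne_zero _ hw
  field_simp

theorem hmg_degree (ξ : h → ℂ) (J : ℕ) (r : MvPolynomial Λ ℂ[X]) : (hmg ξ J r).totalDegree ≤ J + r.totalDegree := by
  classical
  rw [hmg]
  refine MvPolynomial.totalDegree_finsetSum_le fun ν hν => ?_
  refine MvPolynomial.totalDegree_finsetSum_le fun j hj => ?_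
  have hj' : j ≤ J := Nat.lt_succ_iff.1 (Finset.mem_range.1 hj)
  have h1 : (∏ l, (∑ i, MvPolynomial.C (ξ i) * MvPolynomial.X (Sum.inr (l, i)) :
      MvPolynomial (Bool ⊕ (Λ × h)) ℂ) ^ (ν l)).totalDegree ≤ r.totalDegree := by
    refine (MvPolynomial.totalDegree_finsetProd _ _).trans ?_
    have h2 : ∑ l, ν l ≤ r.totalDegree := by
      have h3 := MvPolynomial.le_totalDegree hν
      rwa [Finsupp.sum_fintype _ _ (fun _ => rfl)] at h3
    refine le_trans (Finset.sum_le_sum fun l _ => ?_) h2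
    refine (MvPolynomial.totalDegree_pow _ _).trans ?_
    have h4 : (∑ i, MvPolynomial.C (ξ i) * MvPolynomial.X (Sum.inr (l, i)) :
      MvPolynomial (Bool ⊕ (Λ × h)) ℂ).totalDegree ≤ 1 := by
      refine MvPolynomial.totalDegree_finsetSum_le fun i _ => ?_
      refine (MvPolynomial.totalDegree_mul _ _).trans ?_
      rw [MvPolynomial.totalDegree_C, MvPolynomial.totalDegree_X]
    nlinarith
  refine (MvPolynomial.totalDegree_mul _ _).trans ?_
  refine add_le_add ?_ h1
  refine (MvPolynomial.totalDegree_mul _ _).trans ?_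
  have h5 : (MvPolynomial.C ((r.coeff ν).coeff j) * (MvPolynomial.X (Sum.inl false)) ^ j :
      MvPolynomial (Bool ⊕ (Λ × h)) ℂ).totalDegree ≤ j := by
    refine (MvPolynomial.totalDegree_mul _ _).trans ?_
    rw [MvPolynomial.totalDegree_C, MvPolynomial.totalDegree_X_pow, zero_add]
  have h6 : ((MvPolynomial.X (Sum.inl true)) ^ (J - j) : MvPolynomial (Bool ⊕ (Λ × h)) ℂ).totalDegree ≤ J - j := by
    rw [MvPolynomial.totalDegree_X_pow]
  omega

theorem eval_box {W : Type} [Fintype W] [DecidableEq W] (Q : MvPolynomial W ℂ) (G : ℕ) (hQ : Q.totalDegree ≤ G)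
    (z : W → ℂ) : MvPolynomial.eval z Q = ∑ γ : W → Fin (G + 1), Q.coeff (ex γ) * ∏ w, z w ^ (γ w : ℕ) := by
  conv_lhs => rw [← box_of_le Q hQ]
  rw [box, map_sum]
  refine Finset.sum_congr rfl fun γ _ => ?_
  rw [MvPolynomial.eval_monomial, Finsupp.prod_fintype _ _ (fun _ => pow_zero _)]
  rfl

end Pool.Agent.Y890.SP
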