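import Mathlib

/-!
# Linear disjointness from the algebraic elements
-/

set_option autoImplicit false

open Polynomial

namespace Pool.Agent.Y890.SP

theorem ld {k L Ω : Type*} [Field k] [Field L] [Field Ω] [CharZero k] [Algebra k L] [Algebra L Ω] [Algebra k Ω]
    [IsScalarTower k L Ω] (hreg : ∀ a : L, IsAlgebraic k a → a ∈ (algebraMap k L).range)
    {ι : Type*} [Finite ι] (s : Finset ι) (w : ι → L) (hw : LinearIndependent k w) (c : ι → Ω) (hc : ∀ i, IsAlgebraic k (c i))
    (h : ∑ i ∈ s, c i * algebraMap L Ω (w i) = 0) : ∀ i ∈ s, c i = 0 := by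
  classical
  let F' : IntermediateField k Ω := IntermediateField.adjoin k (Set.range c)
  have hfin : FiniteDimensional k F' := by
    have : Finite (Set.range c) := Set.finite_range c
    exact IntermediateField.finiteDimensional_adjoin (by
      rintro _ ⟨i, rfl⟩
      exact (hc i).isIntegral)
  obtain ⟨α, hα⟩ := Field.exists_primitive_element k F'
  set a : Ω := (α : Ω) with ha
  have hαint : IsIntegral k α := Algebra.IsIntegral.isIntegral α
  have haint : IsIntegral k a := hαint.map (F'.val)
  set μ := minpoly k a with hμ
  have hμm : μ.Monic := minpoly.monic haint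
  have haL : IsIntegral L a := haint.tower_top
  -- the minimal polynomial over `L`
  have hdeg : μ.natDegree ≤ (minpoly L a).natDegree := by
    have hdvd : minpoly L a ∣ μ.map (algebraMap k L) := by
      apply minpoly.dvd
      rw [aeval_map_algebraMap]
      exact minpoly.aeval k a
    have hcoef : ∀ n, (minpoly L a).coeff n ∈ (algebraMap k L).range := by
      intro n
      apply hreg
      exact (isIntegral_coeff_of_dvd μ (minpoly L a) hμm (minpoly.monic haL) hdvd n).isAlgebraic
    obtain ⟨p', hp'⟩ : minpoly L a ∈ lifts (algebraMap k L) := by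
      rw [lifts_iff_coeff_lifts]
      exact hcoef
    have hp'' : p'.map (algebraMap k L) = minpoly L a := hp'
    have h1 : aeval a p' = 0 := by
      rw [← aeval_map_algebraMap L, hp'']
      exact minpoly.aeval L a
    have h2 : p' ≠ 0 := by
      rintro rfl
      rw [Polynomial.map_zero] at hp''
      exact minpoly.ne_zero haL hp''.symm
    have h3 := Polynomial.natDegree_le_of_dvd (minpoly.dvd k a h1) h2
    rw [← hp'', Polynomial.natDegree_map]
    exact h3
  -- the coefficients
  have hq : ∀ i, ∃ q : k[X], aeval a q = c i ∧ q.degree < μ.degree := by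
    intro i
    have h1 : (⟨c i, IntermediateField.subset_adjoin k _ ⟨i, rfl⟩⟩ : F') ∈ (⊤ : IntermediateField k F') := trivial
    rw [← hα, ← IntermediateField.mem_toSubalgebra, IntermediateField.adjoin_simple_toSubalgebra_of_isAlgebraic hαint.isAlgebraic,
      Algebra.adjoin_singleton_eq_range_aeval] at h1
    obtain ⟨q, hq⟩ := h1
    have hq' : aeval a q = c i := by
      have h2 := congrArg (F'.val) hq
      change F'.val (aeval α q) = c i at h2
      rw [← aeval_algHom_apply] at h2
      exact h2
    refine ⟨q %ₘ μ, ?_, degree_modByMonic_lt _ hμm⟩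
    have h3 := modByMonic_add_div q μ
    have h4 := congrArg (aeval a) h3
    rw [map_add, map_mul, minpoly.aeval, zero_mul, add_zero] at h4
    rw [h4, hq']
  choose q hq1 hq2 using hq
  set P : L[X] := ∑ i ∈ s, C (w i) * (q i).map (algebraMap k L) with hP
  have hP0 : aeval a P = 0 := by
    rw [hP, map_sum, ← h]
    refine Finset.sum_congr rfl fun i _ => ?_
    rw [map_mul, aeval_C, aeval_map_algebraMap, hq1, mul_comm]
  have hPd : P.degree < μ.degree := by
    rw [hP]
    refine lt_of_le_of_lt (degree_sum_le _ _) ?_
    rw [Finset.sup_lt_iff]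
    · intro i _
      refine lt_of_le_of_lt (degree_mul_le _ _) ?_
      refine lt_of_le_of_lt (add_le_add degree_C_le le_rfl) ?_
      rw [zero_add, degree_map]
      exact hq2 i
    · rw [bot_lt_iff_ne_bot, Ne, degree_eq_bot]
      exact hμm.ne_zero
  have hPz : P = 0 := by
    by_contra hne
    have h1 := minpoly.degree_le_of_ne_zero L a hne hP0
    have h2 : μ.degree ≤ (minpoly L a).degree := by
      rw [degree_eq_natDegree hμm.ne_zero, degree_eq_natDegree (minpoly.ne_zero haL)]
      exact_mod_cast hdeg
    exact absurd (lt_of_lt_of_le hPd (h2.trans h1)) (lt_irrefl _)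
  intro i hi
  have hqi : q i = 0 := by
    ext n
    have h1 := congrArg (fun p => p.coeff n) hPz
    simp only [hP, finsetSum_coeff, coeff_C_mul, coeff_map, coeff_zero] at h1
    have h2 := (linearIndependent_iff'.1 hw) s (fun i => (q i).coeff n) (by
      rw [← h1]
      refine Finset.sum_congr rfl fun i _ => ?_
      rw [Algebra.smul_def, mul_comm]) i hi
    rw [h2, coeff_zero]
  rw [← hq1 i, hqi, map_zero]

end Pool.Agent.Y890.SP
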