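import Mathlib

/-!
# Generalized inverses of matrices over domains: the denominator is a minor
-/

set_option autoImplicit false

namespace Pool.Agent.Y890.SP

theorem bordered {E : Type*} [Field E] {k : ℕ} (A : Matrix (Fin k) (Fin k) E) (hA : A.det ≠ 0)
    (B : Matrix (Fin k) Unit E) (C : Matrix Unit (Fin k) E) (D : Matrix Unit Unit E)
    (h0 : (Matrix.fromBlocks A B C D).det = 0) : (C * A.adjugate * B) () () = A.det * D () () := by
  have : Invertible A := Matrix.invertibleOfIsUnitDet A (isUnit_iff_ne_zero.2 hA)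
  rw [Matrix.det_fromBlocks₁₁] at h0
  have h1 := (mul_eq_zero.1 h0).resolve_left hA
  rw [Matrix.det_unique] at h1
  have h2 : (C * ⅟A * B) () () = D () () := by
    have h3 : D () () - (C * ⅟A * B) () () = 0 := h1
    exact (sub_eq_zero.1 h3).symm
  have h4 : A.adjugate = A.det • ⅟A := by
    have h5 := Matrix.mul_adjugate A
    have h6 := congrArg (fun X => ⅟A * X) h5
    simp only [← mul_assoc, invOf_mul_self, one_mul] at h6
    rw [h6]
    simp
  rw [h4, Matrix.mul_smul, Matrix.smul_mul, Matrix.smul_apply, smul_eq_mul, h2]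

/-- a generalized inverse whose denominator is a minor -/
theorem exists_geninv_minor {R : Type*} [CommRing R] [IsDomain R] {N Λ : Type*} [Fintype N] [Fintype Λ] [DecidableEq N]
    [DecidableEq Λ] (M : Matrix N Λ R) : ∃ (k : ℕ) (r : Fin k → N) (c : Fin k → Λ) (Φ : Matrix Λ N R),
      k ≤ Fintype.card Λ ∧ (M.submatrix r c).det ≠ 0 ∧ M * Φ * M = (M.submatrix r c).det • M := by
  classical
  let P : ℕ → Prop := fun k => ∃ (r : Fin k → N) (c : Fin k → Λ), (M.submatrix r c).det ≠ 0
  have hP : ∀ k, P k → k ≤ Fintype.card Λ := by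
    rintro k ⟨r, c, hrc⟩
    have hinj : Function.Injective c := by
      intro i j hij
      by_contra hne
      apply hrc
      apply Matrix.det_zero_of_column_eq hne
      intro l
      simp [hij]
    simpa using Fintype.card_le_of_injective c hinj
  have h0 : P 0 := ⟨Fin.elim0, Fin.elim0, by simp⟩
  set k := Nat.findGreatest P (Fintype.card Λ) with hk
  have hPk : P k := Nat.findGreatest_spec (Nat.zero_le _) h0
  have hPk1 : ¬ P (k + 1) := by
    intro h
    have h1 := hP _ h
    have h2 : k + 1 ≤ Nat.findGreatest P (Fintype.card Λ) := Nat.le_findGreatest h1 h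
    omega
  obtain ⟨r, c, hrc⟩ := hPk
  set A := M.submatrix r c with hA
  refine ⟨k, r, c, (1 : Matrix Λ Λ R).submatrix id c * A.adjugate * (1 : Matrix N N R).submatrix r id,
    hP k ⟨r, c, hrc⟩, hrc, ?_⟩
  have h1 : M * ((1 : Matrix Λ Λ R).submatrix id c * A.adjugate * (1 : Matrix N N R).submatrix r id) * M =
      M.submatrix id c * A.adjugate * M.submatrix r id := by
    have h2 : M * (1 : Matrix Λ Λ R).submatrix id c = M.submatrix id c := by
      ext i j
      simp [Matrix.mul_apply, Matrix.one_apply]
    have h3 : (1 : Matrix N N R).submatrix r id * M = M.submatrix r id := by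
      ext i j
      simp [Matrix.mul_apply, Matrix.one_apply]
    rw [← h2, ← h3]
    simp only [Matrix.mul_assoc]
  rw [h1]
  ext ν lam
  let E := FractionRing R
  let φ : R →+* E := algebraMap R E
  have hφ : Function.Injective φ := IsFractionRing.injective R E
  apply hφ
  let r' : Fin k ⊕ Unit → N := Sum.elim r fun _ => ν
  let c' : Fin k ⊕ Unit → Λ := Sum.elim c fun _ => lam
  have h4 : (M.submatrix r' c').det = 0 := by
    by_contra h5
    apply hPk1
    let e : Fin (k + 1) ≃ Fin k ⊕ Unit := Fintype.equivOfCardEq (by simp)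
    refine ⟨r' ∘ e, c' ∘ e, ?_⟩
    have h6 : M.submatrix (r' ∘ e) (c' ∘ e) = (M.submatrix r' c').submatrix e e := rfl
    rw [h6, Matrix.det_submatrix_equiv_self]
    exact h5
  have h7 : ((M.submatrix r' c').map φ) = Matrix.fromBlocks (A.map φ)
      (Matrix.of fun i (_ : Unit) => φ (M (r i) lam)) (Matrix.of fun (_ : Unit) j => φ (M ν (c j)))
      (Matrix.of fun (_ _ : Unit) => φ (M ν lam)) := by
    ext i j
    rcases i with i | i <;> rcases j with j | j <;> rfl
  have h8 : ((M.submatrix r' c').map φ).det = 0 := by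
    have := RingHom.map_det φ (M.submatrix r' c')
    rw [h4, map_zero] at this
    exact this.symm
  rw [h7] at h8
  have hdet : (A.map φ).det = φ A.det := (RingHom.map_det φ A).symm
  have h9 := bordered (A.map φ) (by
    rw [hdet]
    exact fun h => hrc (hφ (by rw [h, map_zero]))) _ _ _ h8
  have hadj : (A.map φ).adjugate = A.adjugate.map φ := (RingHom.map_adjugate φ A).symm
  rw [hdet, hadj] at h9
  rw [Matrix.smul_apply, smul_eq_mul, map_mul]
  refine Eq.trans ?_ h9
  simp [Matrix.mul_apply, map_sum, map_mul]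

theorem totalDegree_det_le {R σ : Type*} [CommRing R] {k : ℕ} (A : Matrix (Fin k) (Fin k) (MvPolynomial σ R)) (d : ℕ)
    (hA : ∀ i j, (A i j).totalDegree ≤ d) : A.det.totalDegree ≤ k * d := by
  classical
  rw [Matrix.det_apply]
  refine MvPolynomial.totalDegree_finsetSum_le fun p _ => ?_
  have h1 : (Equiv.Perm.sign p • ∏ i, A (p i) i).totalDegree ≤ (∏ i, A (p i) i).totalDegree := by
    rw [Units.smul_def]
    rcases Int.units_eq_one_or (Equiv.Perm.sign p) with h | h
    · simp [h]
    · simp [h, MvPolynomial.totalDegree_neg]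
  refine h1.trans ?_
  refine (MvPolynomial.totalDegree_finset_prod _ _).trans ?_
  calc ∑ i, (A (p i) i).totalDegree ≤ ∑ _i : Fin k, d := Finset.sum_le_sum fun i _ => hA _ _
    _ = k * d := by simp

end Pool.Agent.Y890.SP
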