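import Pool.Agent.Y890.SP.Ana
import Pool.Agent.Y890.SP.Int

/-!
# One point: relations at points of a number field are specializations of functional relations
-/

set_option autoImplicit false
set_option linter.unusedSectionVars false

open Polynomial NumberField

namespace Pool.Agent.Y890.SP

/-- the points at which there is a relation between the monomials of bounded degree in the functions, with coefficients
in `∑ ξ i * 𝓞 K` of bounded size, to which the matrix `M` is not orthogonal -/
def Bad1 {σ h N : Type} [Fintype σ] [DecidableEq σ] [Fintype h] (δ : ℕ) (M : N → (σ → Fin (δ + 1)) → ℂ[X])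
    (f : σ → ℂ → ℂ) (Lc : Set ℂ) (K : Type) [Field K] [NumberField K] (io : K →+* ℂ) (ξ : h → ℂ) (A T : ℝ) : Set K :=
  {s | Y120.HtLe K T s ∧ io s ∈ Lc ∧ ∃ c : (σ → Fin (δ + 1)) → h → 𝓞 K,
    (∀ l i (φ : K →+* ℂ), ‖φ (c l i : K)‖ ≤ T ^ A) ∧
    ∑ l, (∑ i, ξ i * io (c l i : K)) * ∏ y, f y (io s) ^ (l y : ℕ) = 0 ∧
    ∃ ν, ∑ l, (M ν l).eval (io s) * (∑ i, ξ i * io (c l i : K)) ≠ 0}

theorem relPoly_coeff {I Λ : Type} [Fintype Λ] {R : Type} [CommRing R] (h : Λ → Polynomial (MvPolynomial I R))
    (P : Λ → R) (i : ℕ) (α : I →₀ ℕ) :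
    ((relPoly h P).coeff i).coeff α = ∑ l, P l * ((h l).coeff i).coeff α := by
  rw [relPoly, finsetSum_coeff, MvPolynomial.coeff_sum]
  refine Finset.sum_congr rfl fun l _ => ?_
  rw [coeff_C_mul, MvPolynomial.coeff_C_mul]

theorem relPoly_zero {I Λ : Type} [Fintype I] [DecidableEq I] [Fintype Λ] {R : Type} [CommRing R]
    (h : Λ → Polynomial (MvPolynomial I R)) (P : Λ → R) (e N : ℕ) (he : ∀ l, (h l).natDegree < e)
    (hN : ∀ l i, ((h l).coeff i).totalDegree ≤ N)
    (h0 : ∀ (i : Fin e) (α : I → Fin (N + 1)), ∑ l, P l * ((h l).coeff i).coeff (ex α) = 0) : relPoly h P = 0 := by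
  classical
  ext1 i
  rw [coeff_zero]
  by_cases hi : i < e
  · have h1 : (relPoly h P).coeff i = box (N := N) fun α => ((relPoly h P).coeff i).coeff (ex α) := by
      symm
      apply box_of_le
      rw [relPoly, finsetSum_coeff]
      refine MvPolynomial.totalDegree_finsetSum_le fun l _ => ?_
      rw [coeff_C_mul]
      refine (MvPolynomial.totalDegree_mul _ _).trans ?_
      rw [MvPolynomial.totalDegree_C, zero_add]
      exact hN l i
    rw [h1]
    have h2 : (fun α : I → Fin (N + 1) => ((relPoly h P).coeff i).coeff (ex α)) = fun _ => 0 := by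
      funext α
      rw [relPoly_coeff]
      exact h0 ⟨i, hi⟩ α
    rw [h2]
    simp [box]
  · rw [relPoly, finsetSum_coeff]
    refine Finset.sum_eq_zero fun l _ => ?_
    rw [coeff_C_mul, coeff_eq_zero_of_natDegree_lt (by have := he l; omega), mul_zero]

theorem norm_prod_le {W : Type} [Fintype W] (G : ℕ) (γ : W → Fin (G + 1)) (z : W → ℂ) (X : ℝ) (hX : 1 ≤ X)
    (hz : ∀ w, ‖z w‖ ≤ X) : ‖∏ w, z w ^ (γ w : ℕ)‖ ≤ X ^ (Fintype.card W * G) := by
  classical
  rw [norm_prod]
  calc ∏ w, ‖z w ^ (γ w : ℕ)‖ ≤ ∏ _w : W, X ^ G := by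
        refine Finset.prod_le_prod (fun w _ => norm_nonneg _) fun w _ => ?_
        rw [norm_pow]
        calc ‖z w‖ ^ (γ w : ℕ) ≤ X ^ (γ w : ℕ) := pow_le_pow_left₀ (norm_nonneg _) (hz w) _
          _ ≤ X ^ G := pow_le_pow_right₀ hX (Nat.lt_succ_iff.1 (γ w).2)
    _ = X ^ (Fintype.card W * G) := by
        rw [Finset.prod_const, Finset.card_univ, ← pow_mul, mul_comm]

/-- **One point.** -/
theorem one {σ : Type} [Fintype σ] [DecidableEq σ] {U : Set ℂ} {f : σ → ℂ → ℂ} (hU : IsPreconnected U)
    (hUo : IsOpen U) (hne : U.Nonempty) (hf : ∀ i, AnalyticOnNhd ℂ (f i) U) (hreg : Regular U f) (Lc : Set ℂ)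
    (hLc : IsCompact Lc) (hLU : Lc ⊆ U) (δ : ℕ) :
    ∃ (N : Type) (_ : Fintype N) (_ : DecidableEq N) (M : N → (σ → Fin (δ + 1)) → ℂ[X]),
      (∀ G : (σ → Fin (δ + 1)) → ℂ[X], (∀ ν, ∑ l, M ν l * G l = 0) →
        ∀ x ∈ U, ∑ l, (G l).eval x * ∏ y, f y x ^ (l y : ℕ) = 0) ∧
      ∀ (h : Type) [Fintype h] [DecidableEq h] (m : ℕ) (A ε : ℝ), 0 < ε → ∃ C T₀ : ℝ, 0 ≤ C ∧ 2 ≤ T₀ ∧
        ∀ (K : Type) [Field K] [NumberField K], Module.finrank ℚ K ≤ m → ∀ (io : K →+* ℂ) (ξ : h → ℂ) (T : ℝ),
          T₀ ≤ T → (Bad1 δ M f Lc K io ξ A T).Finite ∧ ((Bad1 δ M f Lc K io ξ A T).ncard : ℝ) ≤ C * T ^ ε := by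
  classical
  obtain ⟨L, _, _, _, F, hz, hfrac⟩ := exists_field hU hUo hne hf
  obtain ⟨d⟩ := exists_dat F hfrac (reg_field hU hUo hf hreg F hz hfrac)
  let := d.fin
  let := d.dec
  let Λ := σ → Fin (δ + 1)
  let lm : Λ → MvPolynomial σ ℂ[X] := fun l => ∏ y, MvPolynomial.X y ^ (l y : ℕ)
  have hlm : ∀ l x, evF f x (lm l) = ∏ y, f y x ^ (l y : ℕ) := by
    intro l x
    rw [evF, MvPolynomial.eval₂_prod]
    refine Finset.prod_congr rfl fun y _ => ?_
    rw [MvPolynomial.eval₂_pow, MvPolynomial.eval₂_X]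
  obtain ⟨D, hh, hD, hh'⟩ := d.exists_fam (fun l : Λ => MvPolynomial.aeval F (lm l))
  set e := d.m.natDegree with he
  have hhe : ∀ l, (hh l).natDegree < e := by
    intro l
    rcases eq_or_ne (hh l) 0 with h0 | h0
    · rw [h0, natDegree_zero]
      exact d.pos
    · exact natDegree_lt_natDegree h0 (hh' l).1
  set Nb : ℕ := ∑ l, ∑ i ∈ Finset.range e, ((hh l).coeff i).totalDegree with hNb
  have hNb' : ∀ l i, ((hh l).coeff i).totalDegree ≤ Nb := by
    intro l i
    by_cases hi : i < e
    · have h1 : ((hh l).coeff i).totalDegree ≤ ∑ i ∈ Finset.range e, ((hh l).coeff i).totalDegree :=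
        Finset.single_le_sum (f := fun i => ((hh l).coeff i).totalDegree) (fun _ _ => Nat.zero_le _)
          (Finset.mem_range.2 hi)
      exact h1.trans (Finset.single_le_sum (f := fun l => ∑ i ∈ Finset.range e, ((hh l).coeff i).totalDegree)
        (fun _ _ => Nat.zero_le _) (Finset.mem_univ l))
    · rw [coeff_eq_zero_of_natDegree_lt (by have := hhe l; omega)]
      simp
  let N := Fin e × (d.I → Fin (Nb + 1))
  let M : N → Λ → ℂ[X] := fun ν l => ((hh l).coeff ν.1).coeff (ex ν.2)
  obtain ⟨D₁, hD₁, hirr⟩ := d.irr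
  refine ⟨N, inferInstance, inferInstance, M, ?_, ?_⟩
  · -- the kernel
    intro G hG x hx
    have h1 : relPoly hh G = 0 := by
      apply relPoly_zero hh G e Nb hhe hNb'
      intro i α
      rw [← hG (i, α)]
      refine Finset.sum_congr rfl fun l _ => mul_comm _ _
    have h2 : eval₂ (evI (F ∘ d.ι)) (MvPolynomial.aeval F d.Θ) (relPoly hh G) =
        evI (F ∘ d.ι) D * MvPolynomial.aeval F (∑ l, MvPolynomial.C (G l) * lm l) := by
      rw [relPoly, eval₂_finsetSum, map_sum, Finset.mul_sum]
      refine Finset.sum_congr rfl fun l _ => ?_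
      rw [eval₂_mul, eval₂_C, ← (hh' l).2, map_mul]
      have h3 : evI (F ∘ d.ι) (MvPolynomial.C (G l)) = MvPolynomial.aeval F (MvPolynomial.C (G l)) := by
        rw [evI_rename, MvPolynomial.rename_C]
      rw [h3]
      ring
    rw [h1, eval₂_zero] at h2
    have h4 : evI (F ∘ d.ι) D ≠ 0 := by
      intro h0
      exact hD (d.ind (h0.trans (map_zero _).symm))
    have h5 := (mul_eq_zero.1 h2.symm).resolve_left h4
    rw [hz] at h5
    have h6 := h5 x hx
    rw [← h6, evF, MvPolynomial.eval₂_sum]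
    refine Finset.sum_congr rfl fun l _ => ?_
    rw [MvPolynomial.eval₂_mul, MvPolynomial.eval₂_C, ← hlm]
    rfl
  · intro h _ _ m A ε hε
    set 𝒢 := resG d.m e hh with h𝒢
    set J : ℕ := ∑ α ∈ 𝒢.support, ∑ ν ∈ (𝒢.coeff α).support, ((𝒢.coeff α).coeff ν).natDegree with hJ
    have hJ' : ∀ α ν, ((𝒢.coeff α).coeff ν).natDegree ≤ J := by
      intro α ν
      by_cases hα : α ∈ 𝒢.support
      · by_cases hν : ν ∈ (𝒢.coeff α).support
        · have h1 := Finset.single_le_sum (f := fun ν => ((𝒢.coeff α).coeff ν).natDegree) (fun _ _ => Nat.zero_le _) hν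
          exact h1.trans (Finset.single_le_sum
            (f := fun α => ∑ ν ∈ (𝒢.coeff α).support, ((𝒢.coeff α).coeff ν).natDegree) (fun _ _ => Nat.zero_le _) hα)
        · rw [MvPolynomial.notMem_support_iff.1 hν]
          simp
      · rw [MvPolynomial.notMem_support_iff.1 hα]
        simp
    set dd := 𝒢.totalDegree with hdd
    set G' : ℕ := J + ∑ α ∈ 𝒢.support, (𝒢.coeff α).totalDegree with hG'
    have hG'' : ∀ (ξ : h → ℂ) α, (hmg ξ J (𝒢.coeff α)).totalDegree ≤ G' := by
      intro ξ α
      refine (hmg_degree ξ J _).trans ?_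
      refine Nat.add_le_add_left ?_ J
      by_cases hα : α ∈ 𝒢.support
      · exact Finset.single_le_sum (f := fun α => (𝒢.coeff α).totalDegree) (fun _ _ => Nat.zero_le _) hα
      · rw [MvPolynomial.notMem_support_iff.1 hα]
        simp
    let W := Bool ⊕ (Λ × h)
    let h' := (d.I → Fin (dd + 1)) × (W → Fin (G' + 1))
    set A₁ := max A 1 with hA₁
    set A' : ℝ := A₁ * (Fintype.card W * G' : ℕ) with hA'
    have hv : ∀ g, Y124.OneV g (fun R T => {t | t ∈ Lc ∧ Y120.Pt R T t}) (fun t (i : d.I) => f (d.ι i) t) := fun g =>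
      Y124.oneV_of g (fun i t => f (d.ι i) t) Lc hLc (fun i t ht => hf _ t (hLU ht))
        fun t ht => locInd_of hU hf F hz d.ι d.ind t (hLU ht)
    obtain ⟨B, C, T₀, hC, hT₀, H⟩ := Y124.excNF (h := h') m 1 dd (fun t (i : d.I) => f (d.ι i) t) Lc hv A' ε hε
    refine ⟨C + D₁.natDegree, T₀, by positivity, hT₀, ?_⟩
    intro K _ _ hm io ξ T hT
    have hT1 : 1 ≤ T := by linarith
    let ξ' : h' → ℂ := fun p => (hmg ξ J (𝒢.coeff (ex p.1))).coeff (ex p.2)
    obtain ⟨hfin, hcard⟩ := H K hm io ξ' T hT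
    have hfinB : (Bad1 δ M f Lc K io ξ A T).Finite := (Y120.HtLe_fin K T).subset fun s hs => hs.1
    refine ⟨hfinB, ?_⟩
    set E := Y124.ExcNF 1 dd K io ξ' (fun t (i : d.I) => f (d.ι i) t) Lc A' B T with hE
    set Z : Set K := {s | D₁.eval (io s) = 0} with hZ
    have hZfin : Z.Finite := by
      refine Set.Finite.of_finite_image (f := io) ?_ io.injective.injOn
      refine (D₁.roots.toFinset.finite_toSet).subset ?_
      rintro _ ⟨s, hs, rfl⟩
      rw [Finset.mem_coe, Multiset.mem_toFinset, mem_roots hD₁]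
      exact hs
    have hZcard : Z.ncard ≤ D₁.natDegree := by
      have h1 : (io '' Z).ncard = Z.ncard := Set.ncard_image_of_injective _ io.injective
      rw [← h1]
      have h2 : io '' Z ⊆ (D₁.roots.toFinset : Finset ℂ) := by
        rintro _ ⟨s, hs, rfl⟩
        rw [Finset.mem_coe, Multiset.mem_toFinset, mem_roots hD₁]
        exact hs
      refine (Set.ncard_le_ncard h2 (Finset.finite_toSet _)).trans ?_
      rw [Set.ncard_coe_finset]
      exact (Multiset.toFinset_card_le _).trans (card_roots' _)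
    have hsub : Bad1 δ M f Lc K io ξ A T ⊆ (fun t : Fin 1 → K => t 0) '' E ∪ Z := by
      rintro s ⟨hs1, hs2, c, hc1, hc2, ν, hν⟩
      by_cases hsZ : s ∈ Z
      · exact Or.inr hsZ
      refine Or.inl ⟨fun _ => s, ?_, rfl⟩
      obtain ⟨a, b, hb, ha1, hb1, hab⟩ := id hs1
      set φ : ℂ[X] →+* ℂ := Polynomial.evalRingHom (io s) with hφ
      set P : Λ → ℂ := fun l => ∑ i, ξ i * io (c l i : K) with hP
      have hφD : φ D₁ ≠ 0 := hsZ
      set 𝓡 : MvPolynomial d.I ℂ := resP (d.m.map (MvPolynomial.map φ)) e (fun l => (hh l).map (MvPolynomial.map φ)) P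
        with h𝓡
      have h𝓡G : 𝓡 = MvPolynomial.map (MvPolynomial.eval₂Hom φ P) 𝒢 := resG_map d.m e hh φ P
      -- the resultant is not zero
      have h𝓡0 : 𝓡 ≠ 0 := by
        intro h0
        have hmd : (d.m.map (MvPolynomial.map (σ := d.I) φ)).natDegree = e := d.monic.natDegree_map _
        have hmd' : (d.m.map (MvPolynomial.map (σ := d.I) φ)).degree = d.m.degree := d.monic.degree_map _
        have hRd : (relPoly (fun l => (hh l).map (MvPolynomial.map (σ := d.I) φ)) P).degree < d.m.degree := by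
          apply relPoly_degree _ _ _ (bot_lt_iff_ne_bot.2 (by rw [Ne, degree_eq_bot]; exact d.monic.ne_zero))
          intro l
          exact lt_of_le_of_lt degree_map_le (hh' l).1
        have h1 := eq_zero_of_resultant (d.m.map (MvPolynomial.map (σ := d.I) φ))
          (relPoly (fun l => (hh l).map (MvPolynomial.map (σ := d.I) φ)) P) (d.monic.map _) (hirr ℂ φ hφD)
          (by rw [hmd']; exact hRd) e (by
            apply natDegree_le_of_degree_le
            rw [degree_eq_natDegree d.monic.ne_zero] at hRd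
            exact hRd.le) (by rw [hmd]; exact h0)
        apply hν
        have h2 := congrArg (fun q => (Polynomial.coeff q (ν.1 : ℕ)).coeff (ex ν.2)) h1
        simp only [relPoly_coeff, coeff_zero, MvPolynomial.coeff_zero, coeff_map, MvPolynomial.coeff_map] at h2
        rw [← h2]
        exact Finset.sum_congr rfl fun l _ => mul_comm _ _
      -- the value is zero
      have h𝓡v : MvPolynomial.eval (fun i => f (d.ι i) (io s)) 𝓡 = 0 := by
        refine res_eval d lm D hh hh' φ (fun i => f i (io s)) ?_ P ?_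
        · intro p hp
          exact (hz p).1 hp (io s) (hLU hs2)
        · rw [← hc2]
          refine Finset.sum_congr rfl fun l _ => ?_
          rw [← hlm]
          rfl
      -- the integral coordinates
      let zK : W → 𝓞 K := Sum.elim (fun t => if t then b else a) (fun p => c p.1 p.2)
      let w : W → ℂ := fun t => io (zK t : K)
      have hwb : w (Sum.inl true) = io (b : K) := rfl
      have hwa : w (Sum.inl false) = io (a : K) := rfl
      have hb0 : io (b : K) ≠ 0 := by
        rw [Ne, map_eq_zero]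
        exact_mod_cast hb
      have hsw : io s = w (Sum.inl false) / w (Sum.inl true) := by
        rw [hwa, hwb, ← map_div₀, ← hab]
      have hval : ∀ α : d.I →₀ ℕ, io (b : K) ^ J * 𝓡.coeff α = MvPolynomial.eval w (hmg ξ J (𝒢.coeff α)) := by
        intro α
        rw [hmg_eval ξ J _ (fun ν => hJ' α ν) w (by rw [hwb]; exact hb0), hwb, h𝓡G, MvPolynomial.coeff_map]
        congr 1
        rw [← hwb, ← hsw]
        rfl
      let e₁ : d.I ≃ Fin 1 × d.I := (Equiv.uniqueProd d.I (Fin 1)).symm
      let P' : MvPolynomial (Fin 1 × d.I) ℂ := MvPolynomial.C (io (b : K) ^ J) * MvPolynomial.rename e₁ 𝓡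
      have hcoef : ∀ s₁ : Fin 1 × d.I →₀ ℕ, P'.coeff s₁ = io (b : K) ^ J * 𝓡.coeff (s₁.mapDomain e₁.symm) := by
        intro s₁
        have h1 : Finsupp.mapDomain e₁ (Finsupp.mapDomain e₁.symm s₁) = s₁ := by
          rw [← Finsupp.mapDomain_comp]
          simp
        conv_lhs => rw [← h1]
        rw [MvPolynomial.coeff_C_mul, MvPolynomial.coeff_rename_mapDomain e₁ e₁.injective]
      refine ⟨fun j => ⟨hs1, hs2⟩, P', ?_, ?_, ?_⟩
      · intro x
        refine (MvPolynomial.degreeOf_le_totalDegree _ _).trans ?_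
        refine (MvPolynomial.totalDegree_mul _ _).trans ?_
        rw [MvPolynomial.totalDegree_C, zero_add]
        refine (MvPolynomial.totalDegree_rename_le _ _).trans ?_
        rw [h𝓡G, hdd]
        exact Finset.sup_mono (MvPolynomial.support_map_subset _ _)
      · intro s₁
        set α₀ := s₁.mapDomain e₁.symm with hα₀
        by_cases hα : ∃ α : d.I → Fin (dd + 1), ex α = α₀
        · obtain ⟨α, hα⟩ := hα
          refine ⟨fun p => if p.1 = α then ∏ t, zK t ^ (p.2 t : ℕ) else 0, ?_, ?_⟩
          · rintro ⟨α', γ⟩ ψ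
            by_cases hαα : α' = α
            · simp only [hαα, if_true]
              have hT' : 1 ≤ T ^ A₁ := Real.one_le_rpow hT1 (by rw [hA₁]; exact le_trans zero_le_one (le_max_right _ _))
              have h1 := norm_prod_le G' γ (fun t => ψ (zK t : K)) (T ^ A₁) hT' (by
                rintro (t | ⟨l, i⟩)
                · have h2 : T ≤ T ^ A₁ := by
                    conv_lhs => rw [← Real.rpow_one T]
                    exact Real.rpow_le_rpow_of_exponent_le hT1 (le_max_right _ _)
                  cases t with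
                  | false => exact ((Y120.house_ge K _ ψ).trans ha1).trans h2
                  | true => exact ((Y120.house_ge K _ ψ).trans hb1).trans h2
                · exact (hc1 l i ψ).trans (Real.rpow_le_rpow_of_exponent_le hT1 (le_max_left _ _)))
              have h3 : ψ ((∏ t, zK t ^ (γ t : ℕ) : 𝓞 K) : K) = ∏ t, ψ (zK t : K) ^ (γ t : ℕ) := by
                simp [map_prod]
              rw [h3]
              refine h1.trans (le_of_eq ?_)
              rw [hA', Real.rpow_mul (by linarith), Real.rpow_natCast]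
            · simp only [hαα, if_false]
              simp
              positivity
          · rw [hcoef, ← hα₀, ← hα, hval, eval_box _ G' (hG'' ξ _) w, Fintype.sum_prod_type, Finset.sum_eq_single α]
            · refine Finset.sum_congr rfl fun γ _ => ?_
              have h3 : io ((∏ t, zK t ^ (γ t : ℕ) : 𝓞 K) : K) = ∏ t, io (zK t : K) ^ (γ t : ℕ) := by
                simp [map_prod]
              simp only [if_true, ξ']
              congr 1
              exact h3.symm
            · intro α' _ hα'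
              refine Finset.sum_eq_zero fun γ _ => ?_
              simp [hα']
            · simp
        · refine ⟨fun _ => 0, ?_, ?_⟩
          · intro _ ψ
            simp
            positivity
          · have h1 : 𝒢.coeff α₀ = 0 := by
              have h2 := box_of_le 𝒢 (le_refl dd)
              rw [← h2, box, MvPolynomial.coeff_sum]
              refine Finset.sum_eq_zero fun α _ => ?_
              rw [MvPolynomial.coeff_monomial, if_neg fun hh => hα ⟨α, hh⟩]
            rw [hcoef, h𝓡G, MvPolynomial.coeff_map, h1]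
            simp
      · have hP'0 : P' ≠ 0 := by
          refine mul_ne_zero ?_ ?_
          · rw [Ne, MvPolynomial.C_eq_zero]
            exact pow_ne_zero _ hb0
          · intro h0
            exact h𝓡0 (MvPolynomial.rename_injective e₁ e₁.injective (by rw [h0, map_zero]))
        obtain ⟨s₀, hs₀⟩ := MvPolynomial.ne_zero_iff.1 hP'0
        refine ⟨s₀, hs₀, ?_⟩
        have h1 : MvPolynomial.aeval (fun x : Fin 1 × d.I => f (d.ι x.2) (io s)) P' = 0 := by
          rw [map_mul, MvPolynomial.aeval_rename]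
          have h2 : MvPolynomial.aeval ((fun x : Fin 1 × d.I => f (d.ι x.2) (io s)) ∘ e₁) 𝓡 =
              MvPolynomial.eval (fun i => f (d.ι i) (io s)) 𝓡 := by
            rfl
          rw [h2, h𝓡v, mul_zero]
        rw [h1, norm_zero]
        positivity
    -- counting
    have hEfin : ((fun t : Fin 1 → K => t 0) '' E).Finite := hfin.image _
    have h1 := Set.ncard_le_ncard hsub (hEfin.union hZfin)
    have h2 := Set.ncard_union_le ((fun t : Fin 1 → K => t 0) '' E) Z
    have h3 : ((fun t : Fin 1 → K => t 0) '' E).ncard ≤ E.ncard := Set.ncard_image_le hfin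
    have h4 : ((Bad1 δ M f Lc K io ξ A T).ncard : ℝ) ≤ E.ncard + D₁.natDegree := by
      exact_mod_cast h1.trans (h2.trans (add_le_add h3 hZcard))
    refine h4.trans ?_
    have h5 : (E.ncard : ℝ) ≤ C * T ^ ε := by
      refine hcard.trans (le_of_eq ?_)
      simp
    have h6 : (D₁.natDegree : ℝ) ≤ D₁.natDegree * T ^ ε := by
      have : 1 ≤ T ^ ε := Real.one_le_rpow hT1 hε.le
      have h7 : (0 : ℝ) ≤ D₁.natDegree := Nat.cast_nonneg _
      nlinarith
    linarith

end Pool.Agent.Y890.SP
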