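import Mathlib

/-!
# Generalized inverses of matrices over domains
-/

set_option autoImplicit false

namespace Pool.Agent.Y890.SP

theorem exists_geninv_field {E : Type*} [Field E] {V W : Type*} [AddCommGroup V] [Module E V] [AddCommGroup W]
    [Module E W] (T : V →ₗ[E] W) : ∃ g : W →ₗ[E] V, ∀ v, T (g (T v)) = T v := by
  obtain ⟨g0, hg0⟩ := T.rangeRestrict.exists_rightInverse_of_surjective T.range_rangeRestrict
  obtain ⟨g, hg⟩ := g0.exists_extend
  refine ⟨g, fun v => ?_⟩
  have h1 : g (T v) = g0 (T.rangeRestrict v) := by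
    rw [← hg]
    rfl
  rw [h1]
  have := congrArg Subtype.val (LinearMap.congr_fun hg0 (T.rangeRestrict v))
  simpa using this

/-- a generalized inverse with a denominator -/
theorem exists_geninv {R : Type*} [CommRing R] [IsDomain R] {N Λ : Type*} [Fintype N] [Fintype Λ] [DecidableEq N]
    [DecidableEq Λ] (M : Matrix N Λ R) : ∃ (D : R) (Φ : Matrix Λ N R), D ≠ 0 ∧ M * Φ * M = D • M := by
  classical
  let E := FractionRing R
  obtain ⟨g, hg⟩ := exists_geninv_field (Matrix.toLin' (M.map (algebraMap R E)))
  set P : Matrix Λ N E := LinearMap.toMatrix' g with hP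
  have hP1 : M.map (algebraMap R E) * P * M.map (algebraMap R E) = M.map (algebraMap R E) := by
    apply Matrix.toLin'.injective
    rw [Matrix.toLin'_mul, Matrix.toLin'_mul, hP, Matrix.toLin'_toMatrix']
    exact LinearMap.ext fun v => hg v
  obtain ⟨b, hb⟩ := IsLocalization.exist_integer_multiples_of_finite (nonZeroDivisors R)
    (fun x : Λ × N => P x.1 x.2)
  choose q hq using hb
  refine ⟨(b : R), Matrix.of fun i j => q (i, j), nonZeroDivisors.ne_zero b.2, ?_⟩
  have h2 : (Matrix.of fun i j => q (i, j) : Matrix Λ N R).map (algebraMap R E) = (algebraMap R E b) • P := by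
    ext i j
    have := hq (i, j)
    rw [Algebra.smul_def] at this
    simpa using this
  have hinj : Function.Injective (fun X : Matrix N Λ R => X.map (algebraMap R E)) :=
    Matrix.map_injective (IsFractionRing.injective R E)
  apply hinj
  beta_reduce
  rw [Matrix.map_mul, Matrix.map_mul, h2, Matrix.mul_smul, Matrix.smul_mul, hP1]
  ext i j
  simp

end Pool.Agent.Y890.SP
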