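import Pool.Agent.Y890.SP.Field

/-!
# The resultant of a relation and of the equation of a family
-/

set_option autoImplicit false
set_option linter.unusedSectionVars false

open Polynomial

namespace Pool.Agent.Y890.SP

theorem degree_C_mul_le' {R : Type*} [CommRing R] (a : R) (p : R[X]) : (C a * p).degree ≤ p.degree := by
  refine (degree_mul_le _ _).trans ?_
  calc (C a).degree + p.degree ≤ 0 + p.degree := add_le_add degree_C_le le_rfl
    _ = p.degree := zero_add _

/-- the resultant of a monic irreducible polynomial and a polynomial of smaller degree -/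
theorem eq_zero_of_resultant {F I : Type} [Field F] [Fintype I] (m h : Polynomial (MvPolynomial I F)) (hm : m.Monic)
    (hirr : Irreducible m) (hd : h.degree < m.degree) (n : ℕ) (hn : h.natDegree ≤ n)
    (h0 : resultant m h m.natDegree n = 0) : h = 0 := by
  classical
  let S := MvPolynomial I F
  let K := FractionRing S
  have hirr' : Irreducible (m.map (algebraMap S K)) := (hm.irreducible_iff_irreducible_map_fraction_map (K := K)).1 hirr
  by_contra hne
  obtain ⟨k, rfl⟩ := Nat.exists_eq_add_of_le hn
  rw [resultant_add_right_deg _ _ _ _ _ le_rfl] at h0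
  have h1 : m.coeff m.natDegree = 1 := hm
  rw [h1, one_pow, one_mul] at h0
  have h2 : resultant (m.map (algebraMap S K)) (h.map (algebraMap S K)) = 0 := by
    rw [natDegree_map_eq_of_injective (IsFractionRing.injective S K),
      natDegree_map_eq_of_injective (IsFractionRing.injective S K), resultant_map_map, h0, map_zero]
  rw [resultant_eq_zero_iff] at h2
  have h3 : h.map (algebraMap S K) ≠ 0 := by
    rw [Ne, Polynomial.map_eq_zero_iff (IsFractionRing.injective S K)]
    exact hne
  by_cases h4 : m.map (algebraMap S K) ∣ h.map (algebraMap S K)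
  · have h5 := degree_le_of_dvd h4 h3
    rw [degree_map_eq_of_injective (IsFractionRing.injective S K),
      degree_map_eq_of_injective (IsFractionRing.injective S K)] at h5
    exact absurd hd (not_lt.2 h5)
  · exact h2.2 (hirr'.coprime_iff_not_dvd.2 h4)

variable {A L : Type} [CommRing A] [IsDomain A] [Field L] [Algebra A L] [FaithfulSMul A L]

theorem Dat.exists_fam {σ : Type} {f : σ → L} (d : Dat A L f) {Λ : Type} [Fintype Λ] [DecidableEq Λ] (l : Λ → L) :
    ∃ (D : MvPolynomial d.I A) (h : Λ → Polynomial (MvPolynomial d.I A)), D ≠ 0 ∧ ∀ i, (h i).degree < d.m.degree ∧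
      evI (f ∘ d.ι) D * l i = eval₂ (evI (f ∘ d.ι)) (MvPolynomial.aeval f d.Θ) (h i) := by
  classical
  choose D h hD hd hh using fun i => d.gen (l i)
  refine ⟨∏ i, D i, fun i => C (∏ j ∈ Finset.univ.erase i, D j) * h i, Finset.prod_ne_zero_iff.2 fun i _ => hD i, ?_⟩
  intro i
  refine ⟨?_, ?_⟩
  · refine lt_of_le_of_lt (degree_C_mul_le' _ _) (hd i)
  · rw [eval₂_mul, eval₂_C, ← hh i, ← mul_assoc, ← map_mul, Finset.prod_erase_mul _ _ (Finset.mem_univ i)]

/-- the equation of the family and the relation -/
noncomputable def relPoly {I Λ : Type} [Fintype Λ] {R : Type} [CommRing R] (h : Λ → Polynomial (MvPolynomial I R))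
    (P : Λ → R) : Polynomial (MvPolynomial I R) := ∑ i, C (MvPolynomial.C (P i)) * h i

theorem relPoly_map {I Λ : Type} [Fintype Λ] {R S : Type} [CommRing R] [CommRing S] (g : R →+* S)
    (h : Λ → Polynomial (MvPolynomial I R)) (P : Λ → R) :
    (relPoly h P).map (MvPolynomial.map g) = relPoly (fun i => (h i).map (MvPolynomial.map g)) (fun i => g (P i)) := by
  simp [relPoly, Polynomial.map_sum]

theorem relPoly_degree {I Λ : Type} [Fintype Λ] {R : Type} [CommRing R] (h : Λ → Polynomial (MvPolynomial I R))
    (P : Λ → R) (n : WithBot ℕ) (hn : ⊥ < n) (hh : ∀ i, (h i).degree < n) : (relPoly h P).degree < n := by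
  refine lt_of_le_of_lt (degree_sum_le _ _) ?_
  rw [Finset.sup_lt_iff hn]
  intro i _
  exact lt_of_le_of_lt (degree_C_mul_le' _ _) (hh i)

/-- the resultant -/
noncomputable def resP {I Λ : Type} [Fintype Λ] {R : Type} [CommRing R] (m : Polynomial (MvPolynomial I R)) (e : ℕ)
    (h : Λ → Polynomial (MvPolynomial I R)) (P : Λ → R) : MvPolynomial I R := resultant m (relPoly h P) e e

theorem resP_map {I Λ : Type} [Fintype Λ] {R S : Type} [CommRing R] [CommRing S] (g : R →+* S)
    (m : Polynomial (MvPolynomial I R)) (e : ℕ) (h : Λ → Polynomial (MvPolynomial I R)) (P : Λ → R) :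
    resP (m.map (MvPolynomial.map g)) e (fun i => (h i).map (MvPolynomial.map g)) (fun i => g (P i)) =
      MvPolynomial.map g (resP m e h P) := by
  rw [resP, resP, ← relPoly_map, resultant_map_map]

/-- the generic resultant -/
noncomputable def resG {I Λ : Type} [Fintype Λ] (m : Polynomial (MvPolynomial I A)) (e : ℕ)
    (h : Λ → Polynomial (MvPolynomial I A)) : MvPolynomial I (MvPolynomial Λ A) :=
  resP (m.map (MvPolynomial.map MvPolynomial.C)) e (fun i => (h i).map (MvPolynomial.map MvPolynomial.C))
    (fun i => MvPolynomial.X i)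

theorem resG_map {I Λ F : Type} [Fintype Λ] [Field F] (m : Polynomial (MvPolynomial I A)) (e : ℕ)
    (h : Λ → Polynomial (MvPolynomial I A)) (φ : A →+* F) (P : Λ → F) :
    resP (m.map (MvPolynomial.map φ)) e (fun i => (h i).map (MvPolynomial.map φ)) P =
      MvPolynomial.map (MvPolynomial.eval₂Hom φ P) (resG m e h) := by
  have hC : (MvPolynomial.eval₂Hom φ P).comp MvPolynomial.C = φ := RingHom.ext fun y => MvPolynomial.eval₂Hom_C _ _ _
  have hmm : ∀ q : Polynomial (MvPolynomial I A), (q.map (MvPolynomial.map (MvPolynomial.C : A →+* MvPolynomial Λ A))).map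
      (MvPolynomial.map (MvPolynomial.eval₂Hom φ P)) = q.map (MvPolynomial.map φ) := by
    intro q
    rw [Polynomial.map_map]
    congr 1
    exact RingHom.ext fun p => by rw [RingHom.comp_apply, MvPolynomial.map_map, hC]
  have h1 := resP_map (MvPolynomial.eval₂Hom φ P) (m.map (MvPolynomial.map MvPolynomial.C)) e
    (fun i => (h i).map (MvPolynomial.map MvPolynomial.C)) (fun i => (MvPolynomial.X i : MvPolynomial Λ A))
  rw [resG, ← h1]
  simp only [hmm]
  congr 1
  funext i
  exact (MvPolynomial.eval₂Hom_X' _ _ _).symm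

/-- a point of the family at which the relation holds is a zero of the resultant -/
theorem res_eval {σ : Type} {f : σ → L} (d : Dat A L f) {Λ F : Type} [Fintype Λ] [Field F] (l : Λ → MvPolynomial σ A)
    (D : MvPolynomial d.I A) (h : Λ → Polynomial (MvPolynomial d.I A))
    (hh : ∀ i, (h i).degree < d.m.degree ∧ evI (f ∘ d.ι) D * MvPolynomial.aeval f (l i) =
      eval₂ (evI (f ∘ d.ι)) (MvPolynomial.aeval f d.Θ) (h i))
    (φ : A →+* F) (y : σ → F)
    (hy : ∀ p : MvPolynomial σ A, MvPolynomial.aeval f p = (0 : L) → MvPolynomial.eval₂ φ y p = 0)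
    (P : Λ → F) (h0 : ∑ i, P i * MvPolynomial.eval₂ φ y (l i) = 0) :
    MvPolynomial.eval (fun i => y (d.ι i))
      (resP (d.m.map (MvPolynomial.map φ)) d.m.natDegree (fun i => (h i).map (MvPolynomial.map φ)) P) = 0 := by
  classical
  set Y : MvPolynomial σ A →+* F := MvPolynomial.eval₂Hom φ y with hY
  set θ : F := Y d.Θ with hθ
  -- evaluation of polynomials in `z`
  let R : MvPolynomial d.I A →+* MvPolynomial σ A := (MvPolynomial.rename d.ι : MvPolynomial d.I A →ₐ[A] _).toRingHom
  have hlift : ∀ q : Polynomial (MvPolynomial d.I A),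
      MvPolynomial.aeval f (eval₂ R d.Θ q) = eval₂ (evI (f ∘ d.ι)) (MvPolynomial.aeval f d.Θ) q := by
    intro q
    have h1 := Polynomial.hom_eval₂ q R (MvPolynomial.aeval f : MvPolynomial σ A →ₐ[A] L).toRingHom d.Θ
    have h2 : (MvPolynomial.aeval f : MvPolynomial σ A →ₐ[A] L).toRingHom.comp R = evI (f ∘ d.ι) :=
      RingHom.ext fun p => (evI_rename f d.ι p).symm
    rw [h2] at h1
    exact h1
  have hval : ∀ q : Polynomial (MvPolynomial d.I A),
      Y (eval₂ R d.Θ q) = ((q.map (MvPolynomial.map φ)).map (MvPolynomial.eval fun i => y (d.ι i))).eval θ := by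
    intro q
    rw [Polynomial.hom_eval₂, Polynomial.map_map, Polynomial.eval_map]
    congr 1
    refine MvPolynomial.ringHom_ext ?_ ?_
    · intro a
      simp [R, hY]
    · intro i
      simp [R, hY]
  -- the equation
  have hm0 : ((d.m.map (MvPolynomial.map φ)).map (MvPolynomial.eval fun i => y (d.ι i))).eval θ = 0 := by
    rw [← hval]
    apply hy
    rw [hlift]
    exact d.root
  have hl0 : ∀ i, (((h i).map (MvPolynomial.map φ)).map (MvPolynomial.eval fun i => y (d.ι i))).eval θ =
      Y (R D) * MvPolynomial.eval₂ φ y (l i) := by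
    intro i
    rw [← hval]
    have h1 : MvPolynomial.aeval f (eval₂ R d.Θ (h i) - R D * l i) = (0 : L) := by
      rw [map_sub, hlift, map_mul, ← (hh i).2, sub_eq_zero]
      congr 1
      exact evI_rename f d.ι D
    have h2 := hy _ h1
    have h3 : Y (eval₂ R d.Θ (h i) - R D * l i) = 0 := h2
    rw [map_sub, map_mul, sub_eq_zero] at h3
    exact h3
  set m' := d.m.map (MvPolynomial.map (σ := d.I) φ) with hm'
  set H := relPoly (fun i => (h i).map (MvPolynomial.map (σ := d.I) φ)) P with hH
  have hH0 : (H.map (MvPolynomial.eval fun i => y (d.ι i))).eval θ = 0 := by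
    rw [hH, relPoly, Polynomial.map_sum, eval_finsetSum]
    simp only [Polynomial.map_mul, map_C, eval_mul, eval_C, hl0, MvPolynomial.eval_C]
    rw [← mul_zero (Y (R D)), ← h0, Finset.mul_sum]
    refine Finset.sum_congr rfl fun i _ => by ring
  have hHd : H.natDegree ≤ d.m.natDegree := by
    apply natDegree_le_of_degree_le
    have h1 : H.degree < d.m.degree := by
      apply relPoly_degree _ _ _ (bot_lt_iff_ne_bot.2 (by rw [Ne, degree_eq_bot]; exact d.monic.ne_zero))
      intro i
      exact lt_of_le_of_lt (degree_map_le) (hh i).1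
    rw [degree_eq_natDegree d.monic.ne_zero] at h1
    exact h1.le
  obtain ⟨p, q, -, -, hpq⟩ := exists_mul_add_mul_eq_C_resultant (m := d.m.natDegree) (n := d.m.natDegree) m' H
    (natDegree_map_le) hHd (Or.inl d.pos.ne')
  have h1 := congrArg (fun w => (w.map (MvPolynomial.eval fun i => y (d.ι i))).eval θ) hpq
  simp only [Polynomial.map_add, Polynomial.map_mul, eval_add, eval_mul, map_C, eval_C] at h1
  rw [hm0, hH0, zero_mul, zero_mul, add_zero] at h1
  exact h1.symm

end Pool.Agent.Y890.SP
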