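import Pool.Agent.Y890.SP.Fin

/-!
# Systems of relations with arbitrary structure constants
-/

set_option autoImplicit false
set_option linter.unusedSectionVars false

open Polynomial NumberField

namespace Pool.Agent.Y890.SP

section
variable {τ ι Q : Type*} [Field Q] [Algebra Q ℂ]

/-- **Lifting.** -/
theorem exists_lift' {N h : Type} [Fintype N] [Fintype h] [DecidableEq N] [DecidableEq h] (b : Module.Basis ι Q ℂ)
    (M : N → h → MvPolynomial τ ℂ) (d : ℕ) (hd : ∀ κ i, (M κ i).totalDegree ≤ d) :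
    ∃ D : MvPolynomial τ Q, D ≠ 0 ∧ D.totalDegree ≤ Fintype.card h * d ∧
      ∀ (s : τ → Q) (P : h → Q), MvPolynomial.eval s D ≠ 0 →
        (∀ κ, ∑ i, algebraMap Q ℂ (P i) * MvPolynomial.eval (fun j => algebraMap Q ℂ (s j)) (M κ i) = 0) →
        ∃ G : h → MvPolynomial τ Q, (∀ i, MvPolynomial.eval s (G i) = P i) ∧
          ∀ κ, ∑ i, MvPolynomial.map (algebraMap Q ℂ) (G i) * M κ i = 0 := by
  classical
  obtain ⟨D, hD, hDd, H⟩ := exists_lift (Λ := h) (h := Unit) b M d hd (fun _ => 1)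
  refine ⟨D, hD, by simpa using hDd, ?_⟩
  intro s P hs hP
  obtain ⟨G, hG1, hG2⟩ := H s (fun i _ => P i) hs (by
    intro κ
    simpa using hP κ)
  refine ⟨fun i => G i (), fun i => hG1 i (), fun κ => ?_⟩
  have := hG2 κ
  simpa using this

end

/-- a finite system of polynomial relations between the values of the functions at `s`, whose coefficients are complex
linear combinations (given by `Ξ`) of the elements `c i` -/
def SysAt {n : ℕ} {σ h r : Type} [Fintype σ] [DecidableEq σ] [Fintype h] {δ : ℕ} (f : Fin (n + 1) → σ → ℂ → ℂ)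
    (Ξ : r → (Fin (n + 1) → σ → Fin (δ + 1)) → h → ℂ) (x : Fin (n + 1) → ℂ) (c : h → ℂ) : Prop :=
  ∀ ρ, ∑ l, (∑ i, Ξ ρ l i * c i) * ∏ j, ∏ y, f j y (x j) ^ (l j y : ℕ) = 0

/-- `n + 1`-tuples of elements of `K` of height at most `T`, in given compact sets, at which a solution in integers of
`K` of size at most `T ^ A` of the system is not the specialization of a solution in polynomials over the field of
algebraic numbers -/
def ExcS {n : ℕ} {σ h r : Type} [Fintype σ] [DecidableEq σ] [Fintype h] {δ : ℕ} (U : Fin (n + 1) → Set ℂ)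
    (f : Fin (n + 1) → σ → ℂ → ℂ) (Lc : Fin (n + 1) → Set ℂ) (K : Type) [Field K] [NumberField K] (io : K →+* ℂ)
    (Ξ : r → (Fin (n + 1) → σ → Fin (δ + 1)) → h → ℂ) (A T : ℝ) : Set (Fin (n + 1) → K) :=
  {s | (∀ j, Y120.HtLe K T (s j) ∧ io (s j) ∈ Lc j) ∧ ∃ c : h → 𝓞 K, (∀ i (φ : K →+* ℂ), ‖φ (c i : K)‖ ≤ T ^ A) ∧
    SysAt f Ξ (fun j => io (s j)) (fun i => io (c i : K)) ∧
    ¬ ∃ G : h → MvPolynomial (Fin (n + 1)) Qbar,
      (∀ i, MvPolynomial.aeval (fun j => io (s j)) (G i) = io (c i : K)) ∧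
      ∀ x : Fin (n + 1) → ℂ, (∀ j, x j ∈ U j) → SysAt f Ξ x (fun i => MvPolynomial.aeval x (G i))}

theorem excS_bound {n : ℕ} {σ : Type} [Fintype σ] [DecidableEq σ] {U : Fin (n + 1) → Set ℂ}
    {f : Fin (n + 1) → σ → ℂ → ℂ} (hU : ∀ j, IsPreconnected (U j)) (hUo : ∀ j, IsOpen (U j))
    (hne : ∀ j, (U j).Nonempty) (hf : ∀ j i, AnalyticOnNhd ℂ (f j i) (U j)) (hreg : ∀ j, Regular (U j) (f j))
    (Lc : Fin (n + 1) → Set ℂ) (hLc : ∀ j, IsCompact (Lc j)) (hLU : ∀ j, Lc j ⊆ U j) (δ : ℕ) (h r : Type) [Fintype h]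
    [DecidableEq h] [Fintype r] [DecidableEq r] (m : ℕ) (A ε : ℝ) (hε : 0 < ε) : ∃ C T₀ : ℝ, 0 ≤ C ∧ 2 ≤ T₀ ∧
      ∀ (K : Type) [Field K] [NumberField K], Module.finrank ℚ K ≤ m → ∀ (io : K →+* ℂ)
        (Ξ : r → (Fin (n + 1) → σ → Fin (δ + 1)) → h → ℂ) (T : ℝ),
        T₀ ≤ T → (ExcS U f Lc K io Ξ A T).Finite ∧
          ((ExcS U f Lc K io Ξ A T).ncard : ℝ) ≤ C * T ^ ε * ({x : K | Y120.HtLe K T x}.ncard : ℝ) ^ n := by
  classical
  obtain ⟨N, _, _, M, hM, hcount⟩ := tup hU hUo hne hf hreg Lc hLc hLU δ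
  obtain ⟨C, T₀, hC, hT₀, H⟩ := hcount ((Fin (n + 1) → σ → Fin (δ + 1)) × h) m A ε hε
  let MM : (∀ j, N j) → (Fin (n + 1) → σ → Fin (δ + 1)) → MvPolynomial (Fin (n + 1)) ℂ := fun κ l =>
    ∏ j, Polynomial.aeval (MvPolynomial.X j : MvPolynomial (Fin (n + 1)) ℂ) (M j (κ j) (l j))
  set d : ℕ := ∑ κ, ∑ l, (MM κ l).totalDegree with hd
  have hd' : ∀ κ l, (MM κ l).totalDegree ≤ d := by
    intro κ l
    have h1 : (MM κ l).totalDegree ≤ ∑ l, (MM κ l).totalDegree :=
      Finset.single_le_sum (f := fun l => (MM κ l).totalDegree) (fun _ _ => Nat.zero_le _) (Finset.mem_univ l)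
    exact h1.trans (Finset.single_le_sum (f := fun κ => ∑ l, (MM κ l).totalDegree) (fun _ _ => Nat.zero_le _)
      (Finset.mem_univ κ))
  set dd : ℕ := Fintype.card h * d with hdd
  refine ⟨Fintype.card r * C + dd, T₀, by positivity, hT₀, ?_⟩
  intro K _ _ hK io Ξ T hT
  have hT1 : 1 ≤ T := by linarith
  have HK := fun ρ => H K hK io (fun p => Ξ ρ p.1 p.2) T hT
  have hBfin : {x : K | Y120.HtLe K T x}.Finite := Y120.HtLe_fin K T
  set B := {x : K | Y120.HtLe K T x} with hB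
  have hEfin : (ExcS U f Lc K io Ξ A T).Finite := by
    refine (Set.Finite.pi' (fun _ : Fin (n + 1) => hBfin)).subset fun s hs => ?_
    exact fun i => (hs.1 i).1
  refine ⟨hEfin, ?_⟩
  let LL : r × (∀ j, N j) → h → MvPolynomial (Fin (n + 1)) ℂ := fun q i =>
    ∑ l, MvPolynomial.C (Ξ q.1 l i) * MM q.2 l
  have hLL : ∀ q i, (LL q i).totalDegree ≤ d := by
    intro q i
    refine MvPolynomial.totalDegree_finsetSum_le fun l _ => ?_
    refine (MvPolynomial.totalDegree_mul _ _).trans ?_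
    rw [MvPolynomial.totalDegree_C, zero_add]
    exact hd' _ _
  obtain ⟨D, hD, hDd, hlift⟩ := exists_lift' (Q := Qbar) (Module.Basis.ofVectorSpace Qbar ℂ) LL d hLL
  set Z := {s : Fin (n + 1) → K | (∀ j, s j ∈ B) ∧ MvPolynomial.eval (fun j => ioQ io (s j)) D = 0} with hZ
  have hZcard : Z.ncard ≤ D.totalDegree * B.ncard ^ n := sz_count D hD (ioQ io) B hBfin
  have hZfin : Z.Finite := by
    refine (Set.Finite.pi' (fun _ : Fin (n + 1) => hBfin)).subset fun s hs => ?_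
    exact hs.1
  set W : Set (Fin (n + 1) → K) := ⋃ ρ ∈ (Finset.univ : Finset r),
    BadT δ M f Lc K io (fun p : (Fin (n + 1) → σ → Fin (δ + 1)) × h => Ξ ρ p.1 p.2) A T with hW
  have hWfin : W.Finite := Set.Finite.biUnion (Finset.finite_toSet _) fun ρ _ => (HK ρ).1
  have hsub : ExcS U f Lc K io Ξ A T ⊆ W ∪ Z := by
    rintro s ⟨h1, c, h2, h3, h4⟩
    by_contra h5
    rw [Set.mem_union, not_or] at h5
    obtain ⟨h6, h7⟩ := h5
    apply h4
    have h8 : MvPolynomial.eval (fun j => ioQ io (s j)) D ≠ 0 := by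
      intro h0
      exact h7 ⟨fun j => (h1 j).1, h0⟩
    have hsum : ∀ (ρ : r) (l : Fin (n + 1) → σ → Fin (δ + 1)),
        ∑ p : (Fin (n + 1) → σ → Fin (δ + 1)) × h, Ξ ρ p.1 p.2 * io (((if p.1 = l then c p.2 else 0 : 𝓞 K) : 𝓞 K) : K) =
          ∑ i, Ξ ρ l i * io (c i : K) := by
      intro ρ l
      rw [Fintype.sum_prod_type, Finset.sum_eq_single l]
      · simp
      · intro b _ hb
        simp [hb]
      · simp
    have h9 : ∀ (ρ : r) (κ : ∀ j, N j), ∑ l, (∑ i, Ξ ρ l i * io (c i : K)) *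
        ∏ j, (M j (κ j) (l j)).eval (io (s j)) = 0 := by
      intro ρ κ
      by_contra h0
      apply h6
      rw [hW, Set.mem_iUnion₂]
      refine ⟨ρ, Finset.mem_univ _, h1, fun l p => if p.1 = l then c p.2 else 0, ?_, ?_, κ, ?_⟩
      · intro l p φ
        beta_reduce
        split_ifs
        · exact h2 _ φ
        · simp
          positivity
      · simp only [hsum]
        exact h3 ρ
      · simp only [hsum]
        exact h0
    have hMMe : ∀ κ l (x : Fin (n + 1) → ℂ), MvPolynomial.eval x (MM κ l) = ∏ j, (M j (κ j) (l j)).eval (x j) := by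
      intro κ l x
      simp only [MM]
      rw [map_prod]
      refine Finset.prod_congr rfl fun i _ => ?_
      rw [Polynomial.aeval_def, Polynomial.hom_eval₂, MvPolynomial.eval_X]
      have h3 : (MvPolynomial.eval x).comp (algebraMap ℂ (MvPolynomial (Fin (n + 1)) ℂ)) = RingHom.id ℂ := by
        ext
        simp
      rw [h3, Polynomial.eval₂_id]
    obtain ⟨G, hG1, hG2⟩ := hlift (fun j => ioQ io (s j)) (fun i => ioQ io (c i : K)) h8 (by
      rintro ⟨ρ, κ⟩
      simp only [ioQ_coe, LL]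
      refine Eq.trans ?_ (h9 ρ κ)
      simp only [map_sum, map_mul, MvPolynomial.eval_C, hMMe, Finset.sum_mul, Finset.mul_sum]
      rw [Finset.sum_comm]
      refine Finset.sum_congr rfl fun l _ => Finset.sum_congr rfl fun i _ => ?_
      ring)
    refine ⟨G, ?_, ?_⟩
    · intro i
      have h10 := congrArg (algebraMap Qbar ℂ) (hG1 i)
      rw [ioQ_coe] at h10
      rw [← h10, MvPolynomial.aeval_def]
      have h11 := MvPolynomial.eval₂_comp_left (algebraMap Qbar ℂ) (RingHom.id Qbar) (fun j => ioQ io (s j)) (G i)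
      rw [RingHom.comp_id] at h11
      rw [← MvPolynomial.eval₂_id, h11]
      rfl
    · intro x hx ρ
      have h10 := kernel_tup hUo hne M hM (fun l => ∑ i, MvPolynomial.C (Ξ ρ l i) *
        MvPolynomial.map (algebraMap Qbar ℂ) (G i)) (fun κ => by
          refine Eq.trans ?_ (hG2 (ρ, κ))
          simp only [LL, Finset.sum_mul, Finset.mul_sum]
          rw [Finset.sum_comm]
          refine Finset.sum_congr rfl fun i _ => Finset.sum_congr rfl fun l _ => ?_
          simp only [MM]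
          ring) x hx
      refine Eq.trans ?_ h10
      refine Finset.sum_congr rfl fun l _ => ?_
      congr 1
      rw [map_sum]
      refine Finset.sum_congr rfl fun i _ => ?_
      rw [map_mul, MvPolynomial.eval_C, MvPolynomial.eval_map]
      rfl
  have h1 := Set.ncard_le_ncard hsub (hWfin.union hZfin)
  have h2 := Set.ncard_union_le W Z
  have h0 : W.ncard ≤ ∑ ρ, (BadT δ M f Lc K io (fun p : (Fin (n + 1) → σ → Fin (δ + 1)) × h => Ξ ρ p.1 p.2) A T).ncard :=
    Finset.set_ncard_biUnion_le _ _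
  have h0' : (W.ncard : ℝ) ≤ Fintype.card r * (C * T ^ ε * (B.ncard : ℝ) ^ n) := by
    calc (W.ncard : ℝ) ≤ ∑ ρ, ((BadT δ M f Lc K io (fun p : (Fin (n + 1) → σ → Fin (δ + 1)) × h => Ξ ρ p.1 p.2)
          A T).ncard : ℝ) := by exact_mod_cast h0
      _ ≤ ∑ _ρ : r, (C * T ^ ε * (B.ncard : ℝ) ^ n) := Finset.sum_le_sum fun ρ _ => (HK ρ).2
      _ = _ := by rw [Finset.sum_const, Finset.card_univ, nsmul_eq_mul]
  have h3 : ((ExcS U f Lc K io Ξ A T).ncard : ℝ) ≤ W.ncard + dd * (B.ncard : ℝ) ^ n := by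
    have h4 : Z.ncard ≤ dd * B.ncard ^ n := hZcard.trans (Nat.mul_le_mul_right _ hDd)
    exact_mod_cast h1.trans (h2.trans (Nat.add_le_add_left h4 _))
  refine h3.trans ?_
  have h5 : (1 : ℝ) ≤ T ^ ε := Real.one_le_rpow hT1 hε.le
  have h6 : (0 : ℝ) ≤ (B.ncard : ℝ) ^ n := by positivity
  have h7 : (dd : ℝ) * (B.ncard : ℝ) ^ n ≤ dd * T ^ ε * (B.ncard : ℝ) ^ n := by
    have h8 : (dd : ℝ) ≤ dd * T ^ ε := by
      have : (0 : ℝ) ≤ dd := Nat.cast_nonneg _
      nlinarith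
    exact mul_le_mul_of_nonneg_right h8 h6
  have h9 : (Fintype.card r * C + dd) * T ^ ε * (B.ncard : ℝ) ^ n =
      Fintype.card r * (C * T ^ ε * (B.ncard : ℝ) ^ n) + dd * T ^ ε * (B.ncard : ℝ) ^ n := by
    ring
  rw [h9]
  exact add_le_add h0' h7

end Pool.Agent.Y890.SP
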