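import Pool.Agent.Y890.SP.One

/-!
# Tuples of points
-/

set_option autoImplicit false
set_option linter.unusedSectionVars false

open Polynomial NumberField

namespace Pool.Agent.Y890.SP

/-- a counting lemma -/
theorem ncard_slice {n : ℕ} {α : Type} (B : Set α) (hB : B.Finite) (S : Set (Fin (n + 1) → α))
    (hS : ∀ s ∈ S, ∀ j, s j ∈ B) (j : Fin (n + 1)) (R : ℝ) (F : (Fin n → α) → Set α)
    (hF : ∀ t, (F t).Finite ∧ ((F t).ncard : ℝ) ≤ R) (hSF : ∀ s ∈ S, s j ∈ F (fun i => s (j.succAbove i))) :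
    S.Finite ∧ (S.ncard : ℝ) ≤ R * (B.ncard : ℝ) ^ n := by
  classical
  have hfin : S.Finite := by
    refine (Set.Finite.pi' (fun _ : Fin (n + 1) => hB)).subset fun s hs => ?_
    exact fun i => hS s hs i
  refine ⟨hfin, ?_⟩
  let P : Finset (Fin n → α) := Fintype.piFinset fun _ => hB.toFinset
  let Z : Finset (Σ _ : Fin n → α, α) := P.sigma fun t => (hF t).1.toFinset
  let g : (Fin (n + 1) → α) → Σ _ : Fin n → α, α := fun s => ⟨fun i => s (j.succAbove i), s j⟩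
  have h1 : S.ncard ≤ (Z : Set (Σ _ : Fin n → α, α)).ncard := by
    refine Set.ncard_le_ncard_of_injOn g ?_ ?_ (Finset.finite_toSet _)
    · intro s hs
      rw [Finset.mem_coe, Finset.mem_sigma]
      refine ⟨?_, ?_⟩
      · rw [Fintype.mem_piFinset]
        intro i
        rw [Set.Finite.mem_toFinset]
        exact hS s hs _
      · rw [Set.Finite.mem_toFinset]
        exact hSF s hs
    · intro s _ s' _ hss
      have h2 := Sigma.mk.inj hss
      funext i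
      rcases Fin.eq_self_or_eq_succAbove j i with h3 | ⟨i', h3⟩
      · rw [h3]
        exact eq_of_heq h2.2
      · rw [h3]
        exact congrFun h2.1 i'
  rw [Set.ncard_coe_finset] at h1
  have h4 : (Z.card : ℝ) ≤ R * (B.ncard : ℝ) ^ n := by
    have h5 : Z.card = ∑ t ∈ P, (F t).ncard := by
      rw [Finset.card_sigma]
      exact Finset.sum_congr rfl fun t _ => (Set.ncard_eq_toFinset_card _ (hF t).1).symm
    rw [h5]
    push_cast
    calc ∑ t ∈ P, ((F t).ncard : ℝ) ≤ ∑ _t ∈ P, R := Finset.sum_le_sum fun t _ => (hF t).2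
      _ = R * (B.ncard : ℝ) ^ n := by
          rw [Finset.sum_const, nsmul_eq_mul, Fintype.card_piFinset, Finset.prod_const, Finset.card_univ,
            Fintype.card_fin, Set.ncard_eq_toFinset_card _ hB]
          push_cast
          ring
  exact le_trans (by exact_mod_cast h1) h4

/-- the product of all but one factor -/
noncomputable def mix {n : ℕ} {Λ₁ : Type} (j : Fin (n + 1)) (a b : Fin (n + 1) → Λ₁ → ℂ) (l : Fin (n + 1) → Λ₁) : ℂ :=
  ∏ i ∈ Finset.univ.erase j, if (i : ℕ) < j then a i (l i) else b i (l i)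

theorem mix_b {n : ℕ} {Λ₁ : Type} (j : Fin (n + 1)) (a b : Fin (n + 1) → Λ₁ → ℂ) (l : Fin (n + 1) → Λ₁) :
    ∏ i : Fin (n + 1), (if (i : ℕ) < j then a i (l i) else b i (l i)) = mix j a b l * b j (l j) := by
  rw [mix, ← Finset.prod_erase_mul _ _ (Finset.mem_univ j)]
  simp

theorem mix_a {n : ℕ} {Λ₁ : Type} (j : Fin (n + 1)) (a b : Fin (n + 1) → Λ₁ → ℂ) (l : Fin (n + 1) → Λ₁) :
    ∏ i : Fin (n + 1), (if (i : ℕ) < (j : ℕ) + 1 then a i (l i) else b i (l i)) = mix j a b l * a j (l j) := by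
  rw [mix, ← Finset.prod_erase_mul _ _ (Finset.mem_univ j)]
  congr 1
  · refine Finset.prod_congr rfl fun i hi => ?_
    have h1 : i ≠ j := Finset.ne_of_mem_erase hi
    have h2 : (i : ℕ) ≠ j := fun h => h1 (Fin.ext h)
    have h3 : ((i : ℕ) < (j : ℕ) + 1) ↔ ((i : ℕ) < j) := by omega
    simp only [h3]
  · simp

theorem mix_congr {n : ℕ} {Λ₁ : Type} (j : Fin (n + 1)) (a b a' b' : Fin (n + 1) → Λ₁ → ℂ)
    (ha : ∀ i, i ≠ j → a i = a' i) (hb : ∀ i, i ≠ j → b i = b' i) (l : Fin (n + 1) → Λ₁) :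
    mix j a b l = mix j a' b' l := by
  refine Finset.prod_congr rfl fun i hi => ?_
  have h1 : i ≠ j := Finset.ne_of_mem_erase hi
  rw [ha i h1, hb i h1]

/-- a telescoping argument -/
theorem exists_step {n : ℕ} {Λ₁ : Type} [Fintype Λ₁] [DecidableEq Λ₁] (a b : Fin (n + 1) → Λ₁ → ℂ)
    (P : (Fin (n + 1) → Λ₁) → ℂ) (h0 : ∑ l, P l * ∏ j, b j (l j) = 0) (h1 : ∑ l, P l * ∏ j, a j (l j) ≠ 0) :
    ∃ j : Fin (n + 1), ∑ l, P l * (mix j a b l * b j (l j)) = 0 ∧ ∑ l, P l * (mix j a b l * a j (l j)) ≠ 0 := by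
  classical
  let v : ℕ → ℂ := fun k => ∑ l, P l * ∏ i : Fin (n + 1), (if (i : ℕ) < k then a i (l i) else b i (l i))
  have hv0 : v 0 = 0 := by simpa [v] using h0
  have hv1 : v (n + 1) ≠ 0 := by
    have : v (n + 1) = ∑ l, P l * ∏ j, a j (l j) := by
      refine Finset.sum_congr rfl fun l _ => ?_
      congr 1
      refine Finset.prod_congr rfl fun i _ => ?_
      rw [if_pos i.2]
    rw [this]
    exact h1
  have hex : ∃ k, v k ≠ 0 := ⟨_, hv1⟩
  obtain ⟨k, hk⟩ : ∃ k, Nat.find hex = k + 1 := by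
    refine Nat.exists_eq_succ_of_ne_zero fun h => ?_
    have := Nat.find_spec hex
    rw [h] at this
    exact this hv0
  have hk1 : v (k + 1) ≠ 0 := by
    rw [← hk]
    exact Nat.find_spec hex
  have hk0 : v k = 0 := by
    by_contra h
    have := Nat.find_min' hex h
    omega
  have hkn : k < n + 1 := by
    have := Nat.find_min' hex hv1
    omega
  refine ⟨⟨k, hkn⟩, ?_, ?_⟩
  · rw [← hk0]
    refine Finset.sum_congr rfl fun l _ => ?_
    rw [← mix_b]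
  · have : v (k + 1) = ∑ l, P l * (mix ⟨k, hkn⟩ a b l * a ⟨k, hkn⟩ (l ⟨k, hkn⟩)) := by
      refine Finset.sum_congr rfl fun l _ => ?_
      rw [← mix_a]
    rw [← this]
    exact hk1

/-- tuples of points at which there is a relation between the monomials of bounded degree in the functions, with
coefficients in `∑ ξ i * 𝓞 K` of bounded size, to which the product of the matrices `M j` is not orthogonal -/
def BadT {n : ℕ} {σ h : Type} [Fintype σ] [DecidableEq σ] [Fintype h] (δ : ℕ) {N : Fin (n + 1) → Type}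
    (M : ∀ j, N j → (σ → Fin (δ + 1)) → ℂ[X]) (f : Fin (n + 1) → σ → ℂ → ℂ) (Lc : Fin (n + 1) → Set ℂ)
    (K : Type) [Field K] [NumberField K] (io : K →+* ℂ) (ξ : h → ℂ) (A T : ℝ) : Set (Fin (n + 1) → K) :=
  {s | (∀ j, Y120.HtLe K T (s j) ∧ io (s j) ∈ Lc j) ∧ ∃ c : (Fin (n + 1) → σ → Fin (δ + 1)) → h → 𝓞 K,
    (∀ l i (φ : K →+* ℂ), ‖φ (c l i : K)‖ ≤ T ^ A) ∧
    ∑ l, (∑ i, ξ i * io (c l i : K)) * ∏ j, ∏ y, f j y (io (s j)) ^ (l j y : ℕ) = 0 ∧
    ∃ κ : ∀ j, N j, ∑ l, (∑ i, ξ i * io (c l i : K)) * ∏ j, (M j (κ j) (l j)).eval (io (s j)) ≠ 0}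

/-- the constants of the one point statement -/
noncomputable def xi' {n : ℕ} {σ h : Type} {δ : ℕ} [Fintype σ] {N : Fin (n + 1) → Type}
    (M : ∀ j, N j → (σ → Fin (δ + 1)) → ℂ[X]) (f : Fin (n + 1) → σ → ℂ → ℂ) {K : Type} [Field K] (io : K →+* ℂ)
    (ξ : h → ℂ) (j : Fin (n + 1)) (κ : ∀ j, N j) (s : Fin (n + 1) → K) :
    (Fin (n + 1) → σ → Fin (δ + 1)) × h → ℂ :=
  fun p => ξ p.2 * mix j (fun i l => (M i (κ i) l).eval (io (s i))) (fun i l => ∏ y, f i y (io (s i)) ^ (l y : ℕ)) p.1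

theorem sum_fib {Λ Λ₁ h : Type} [Fintype Λ] [Fintype Λ₁] [DecidableEq Λ₁] [Fintype h] (pr : Λ → Λ₁) (w : Λ → ℂ)
    (ξ : h → ℂ) (c : Λ → h → ℂ) (g : Λ₁ → ℂ) :
    ∑ l₁, (∑ p : Λ × h, (ξ p.2 * w p.1) * (if pr p.1 = l₁ then c p.1 p.2 else 0)) * g l₁ =
      ∑ l, (∑ i, ξ i * c l i) * (w l * g (pr l)) := by
  classical
  simp only [Fintype.sum_prod_type, Finset.sum_mul]
  rw [Finset.sum_comm]
  refine Finset.sum_congr rfl fun l _ => ?_
  rw [Finset.sum_comm]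
  refine Finset.sum_congr rfl fun i _ => ?_
  rw [Finset.sum_eq_single (pr l)]
  · simp
    ring
  · intro b _ hb
    rw [if_neg (Ne.symm hb)]
    simp
  · simp

theorem badT_sub {n : ℕ} {σ h : Type} [Fintype σ] [DecidableEq σ] [Fintype h] (δ : ℕ) {N : Fin (n + 1) → Type}
    (M : ∀ j, N j → (σ → Fin (δ + 1)) → ℂ[X]) (f : Fin (n + 1) → σ → ℂ → ℂ) (Lc : Fin (n + 1) → Set ℂ)
    (K : Type) [Field K] [NumberField K] (io : K →+* ℂ) (ξ : h → ℂ) (A T : ℝ) (hT : 0 < T)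
    (s : Fin (n + 1) → K) (hs : s ∈ BadT δ M f Lc K io ξ A T) :
    ∃ (j : Fin (n + 1)) (κ : ∀ j, N j), s j ∈ Bad1 δ (M j) (f j) (Lc j) K io (xi' M f io ξ j κ s) A T := by
  classical
  obtain ⟨h1, c, h2, h3, κ, h4⟩ := hs
  obtain ⟨j, h5, h6⟩ := exists_step (fun i l => (M i (κ i) l).eval (io (s i)))
    (fun i l => ∏ y, f i y (io (s i)) ^ (l y : ℕ)) (fun l => ∑ i, ξ i * io (c l i : K)) h3 h4
  refine ⟨j, κ, (h1 j).1, (h1 j).2, fun l₁ p => if p.1 j = l₁ then c p.1 p.2 else 0, ?_, ?_, κ j, ?_⟩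
  · intro l₁ p φ
    beta_reduce
    split_ifs with hp
    · exact h2 _ _ φ
    · simp
      positivity
  · have h7 := sum_fib (fun l : Fin (n + 1) → σ → Fin (δ + 1) => l j)
      (mix j (fun i l => (M i (κ i) l).eval (io (s i))) (fun i l => ∏ y, f i y (io (s i)) ^ (l y : ℕ))) ξ
      (fun l i => io (c l i : K)) (fun l => ∏ y, f j y (io (s j)) ^ (l y : ℕ))
    rw [← h5, ← h7]
    refine Finset.sum_congr rfl fun l₁ _ => ?_
    congr 1
    refine Finset.sum_congr rfl fun p _ => ?_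
    rw [xi']
    congr 1
    by_cases hp : p.1 j = l₁ <;> simp [hp]
  · have h7 := sum_fib (fun l : Fin (n + 1) → σ → Fin (δ + 1) => l j)
      (mix j (fun i l => (M i (κ i) l).eval (io (s i))) (fun i l => ∏ y, f i y (io (s i)) ^ (l y : ℕ))) ξ
      (fun l i => io (c l i : K)) (fun l => (M j (κ j) l).eval (io (s j)))
    rw [← h7] at h6
    intro h8
    apply h6
    refine Eq.trans ?_ h8
    refine Finset.sum_congr rfl fun l₁ _ => ?_
    rw [mul_comm]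
    congr 1
    refine Finset.sum_congr rfl fun p _ => ?_
    rw [xi']
    congr 1
    by_cases hp : p.1 j = l₁ <;> simp [hp]

theorem xi'_congr {n : ℕ} {σ h : Type} {δ : ℕ} [Fintype σ] {N : Fin (n + 1) → Type}
    (M : ∀ j, N j → (σ → Fin (δ + 1)) → ℂ[X]) (f : Fin (n + 1) → σ → ℂ → ℂ) {K : Type} [Field K] (io : K →+* ℂ)
    (ξ : h → ℂ) (j : Fin (n + 1)) (κ : ∀ j, N j) (s s' : Fin (n + 1) → K) (hs : ∀ i, i ≠ j → s i = s' i) :
    xi' M f io ξ j κ s = xi' M f io ξ j κ s' := by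
  funext p
  rw [xi', xi']
  congr 1
  apply mix_congr
  · intro i hi
    funext l
    rw [hs i hi]
  · intro i hi
    funext l
    rw [hs i hi]

/-- **Tuples of points.** -/
theorem tup {n : ℕ} {σ : Type} [Fintype σ] [DecidableEq σ] {U : Fin (n + 1) → Set ℂ} {f : Fin (n + 1) → σ → ℂ → ℂ}
    (hU : ∀ j, IsPreconnected (U j)) (hUo : ∀ j, IsOpen (U j)) (hne : ∀ j, (U j).Nonempty)
    (hf : ∀ j i, AnalyticOnNhd ℂ (f j i) (U j)) (hreg : ∀ j, Regular (U j) (f j)) (Lc : Fin (n + 1) → Set ℂ)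
    (hLc : ∀ j, IsCompact (Lc j)) (hLU : ∀ j, Lc j ⊆ U j) (δ : ℕ) :
    ∃ (N : Fin (n + 1) → Type) (_ : ∀ j, Fintype (N j)) (_ : ∀ j, DecidableEq (N j))
      (M : ∀ j, N j → (σ → Fin (δ + 1)) → ℂ[X]),
      (∀ j, ∀ G : (σ → Fin (δ + 1)) → ℂ[X], (∀ ν, ∑ l, M j ν l * G l = 0) →
        ∀ x ∈ U j, ∑ l, (G l).eval x * ∏ y, f j y x ^ (l y : ℕ) = 0) ∧
      ∀ (h : Type) [Fintype h] [DecidableEq h] (m : ℕ) (A ε : ℝ), 0 < ε → ∃ C T₀ : ℝ, 0 ≤ C ∧ 2 ≤ T₀ ∧
        ∀ (K : Type) [Field K] [NumberField K], Module.finrank ℚ K ≤ m → ∀ (io : K →+* ℂ) (ξ : h → ℂ) (T : ℝ),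
          T₀ ≤ T → (BadT δ M f Lc K io ξ A T).Finite ∧
            ((BadT δ M f Lc K io ξ A T).ncard : ℝ) ≤ C * T ^ ε * ({x : K | Y120.HtLe K T x}.ncard : ℝ) ^ n := by
  classical
  have h1 := fun j => one (hU j) (hUo j) (hne j) (hf j) (hreg j) (Lc j) (hLc j) (hLU j) δ
  choose N iN iD M hM hcount using h1
  refine ⟨N, iN, iD, M, hM, ?_⟩
  intro h _ _ m A ε hε
  choose C T₀ hC hT₀ H using fun j => hcount j ((Fin (n + 1) → σ → Fin (δ + 1)) × h) m A ε hε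
  refine ⟨∑ j, ∑ _κ : (∀ j, N j), C j, 2 + ∑ j, T₀ j, ?_, ?_, ?_⟩
  · exact Finset.sum_nonneg fun j _ => Finset.sum_nonneg fun _ _ => hC j
  · have : 0 ≤ ∑ j, T₀ j := Finset.sum_nonneg fun j _ => by linarith [hT₀ j]
    linarith
  intro K _ _ hK io ξ T hT
  have hTj : ∀ j, T₀ j ≤ T := by
    intro j
    have : T₀ j ≤ ∑ j, T₀ j := Finset.single_le_sum (f := T₀) (fun j _ => by linarith [hT₀ j]) (Finset.mem_univ j)
    linarith
  have hT2 : 2 ≤ T := le_trans (hT₀ 0) (hTj 0)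
  have hBfin : {x : K | Y120.HtLe K T x}.Finite := Y120.HtLe_fin K T
  set B := {x : K | Y120.HtLe K T x} with hB
  have hfin : (BadT δ M f Lc K io ξ A T).Finite := by
    refine (Set.Finite.pi' (fun _ : Fin (n + 1) => hBfin)).subset fun s hs => ?_
    exact fun i => (hs.1 i).1
  refine ⟨hfin, ?_⟩
  let S : Fin (n + 1) → (∀ j, N j) → Set (Fin (n + 1) → K) := fun j κ =>
    {s | (∀ i, s i ∈ B) ∧ s j ∈ Bad1 δ (M j) (f j) (Lc j) K io (xi' M f io ξ j κ s) A T}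
  have hS : ∀ j κ, (S j κ).Finite ∧ ((S j κ).ncard : ℝ) ≤ (C j * T ^ ε) * (B.ncard : ℝ) ^ n := by
    intro j κ
    refine ncard_slice B hBfin (S j κ) (fun s hs => hs.1) j _
      (fun t => Bad1 δ (M j) (f j) (Lc j) K io (xi' M f io ξ j κ (j.insertNth 0 t)) A T) ?_ ?_
    · intro t
      exact H j K hK io _ T (hTj j)
    · intro s hs
      have h2 := hs.2
      rw [xi'_congr M f io ξ j κ s (j.insertNth 0 fun i => s (j.succAbove i)) ?_] at h2
      · exact h2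
      · intro i hi
        obtain ⟨i', rfl⟩ := Fin.exists_succAbove_eq hi
        simp
  have hsub : BadT δ M f Lc K io ξ A T ⊆ ⋃ p ∈ (Finset.univ : Finset (Fin (n + 1) × ∀ j, N j)), S p.1 p.2 := by
    intro s hs
    obtain ⟨j, κ, hj⟩ := badT_sub δ M f Lc K io ξ A T (by linarith) s hs
    simp only [Set.mem_iUnion]
    exact ⟨(j, κ), Finset.mem_univ _, fun i => (hs.1 i).1, hj⟩
  have hcard : (BadT δ M f Lc K io ξ A T).ncard ≤ ∑ p : Fin (n + 1) × ∀ j, N j, (S p.1 p.2).ncard := by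
    refine (Set.ncard_le_ncard hsub ?_).trans ?_
    · exact Set.Finite.biUnion (Finset.finite_toSet _) fun p _ => (hS p.1 p.2).1
    · exact Finset.set_ncard_biUnion_le _ _
  calc ((BadT δ M f Lc K io ξ A T).ncard : ℝ) ≤ ∑ p : Fin (n + 1) × ∀ j, N j, ((S p.1 p.2).ncard : ℝ) := by
        exact_mod_cast hcard
    _ ≤ ∑ p : Fin (n + 1) × ∀ j, N j, (C p.1 * T ^ ε) * (B.ncard : ℝ) ^ n :=
        Finset.sum_le_sum fun p _ => (hS p.1 p.2).2
    _ = (∑ j, ∑ _κ : (∀ j, N j), C j) * T ^ ε * (B.ncard : ℝ) ^ n := by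
        rw [Fintype.sum_prod_type, Finset.sum_mul, Finset.sum_mul]
        refine Finset.sum_congr rfl fun j _ => ?_
        rw [Finset.sum_mul, Finset.sum_mul]

end Pool.Agent.Y890.SP
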